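import Mathlib

/-!
JOB CB-11 (orders modulo prime powers and proportional solutions, about 100-150 lines; independent).

`ord_three`: `k` odd: `3^k - 1 ≡ 2 (mod 8)` (`≡ 2 (mod 4)`), `2^μ ≤ 2`.  `k = 2k'`: `v2(9^k' - 1) = 3 + v2(k')`, so
`2^μ ≤ 8 * 2^(v2 k') ≤ 8 k' = 4k`.
`ord_four`: `v3(4^l - 1) = 1 + v3(l)`, `3^ν ≤ 3 * 3^(v3 l) ≤ 3 l`.
`ord_odd`: `v2((a²)^k - 1) = v2(a² - 1) + v2(k)`; one of `a - 1`, `a + 1` is `2 (mod 4)`, so
`2^(v2(a²-1)) ≤ 2 (a+1)`.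
`prop_contra`: put `α = A/(A+B)`, `α' = A'/(A'+B')`: `α'^m = α^m'` (divide `h1` by `h3`) `< α^m` since
`0 < α < 1`, `m < m'`; so `α' < α`.  In the same way `β' = B'/(A'+B') < β = B/(A+B)`.  But
`α + β = 1 = α' + β'`.
-/

namespace Pool.Agent.H91.CB

theorem ord_odd {a k μ : ℕ} (ha : a % 2 = 1) (ha3 : 3 ≤ a) (hk : 1 ≤ k)
    (h : (2 : ℤ) ^ μ ∣ (a : ℤ) ^ (2 * k) - 1) : 2 ^ μ ≤ 2 * (a + 1) * k := by
  have h1 : 1 < a ^ (2 * k) := Nat.one_lt_pow (by omega) (by omega)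
  have hd : 2 ^ μ ∣ a ^ (2 * k) - 1 := by
    have h2 : ((2 ^ μ : ℕ) : ℤ) ∣ ((a ^ (2 * k) - 1 : ℕ) : ℤ) := by
      rw [Nat.cast_sub h1.le]; push_cast; exact h
    exact_mod_cast h2
  have h3 := padicValNat.pow_two_sub_pow (x := a) (y := 1) (by omega) (by omega) (by omega)
    (n := 2 * k) (by omega) ⟨k, by ring⟩
  rw [one_pow, padicValNat.mul (by norm_num) (by omega)] at h3
  have h4 : μ ≤ padicValNat 2 (a ^ (2 * k) - 1) :=
    (padicValNat_dvd_iff_le (by omega)).mp hd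
  have h5 : padicValNat 2 2 = 1 := by simp
  have h6 : 2 ^ padicValNat 2 k ≤ k := Nat.le_of_dvd (by omega) pow_padicValNat_dvd
  have h7 : 2 ^ padicValNat 2 (a + 1) * 2 ^ padicValNat 2 (a - 1) ≤ 2 * (a + 1) := by
    have ha1 : 2 ^ padicValNat 2 (a + 1) ≤ a + 1 := Nat.le_of_dvd (by omega) pow_padicValNat_dvd
    have ha2 : 2 ^ padicValNat 2 (a - 1) ≤ a - 1 := Nat.le_of_dvd (by omega) pow_padicValNat_dvd
    by_cases h8 : a % 4 = 1
    · have h9 : padicValNat 2 (a + 1) ≤ 1 := by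
        by_contra hc
        have h10 : 2 ^ 2 ∣ a + 1 := (padicValNat_dvd_iff_le (by omega)).mpr (by omega)
        omega
      calc 2 ^ padicValNat 2 (a + 1) * 2 ^ padicValNat 2 (a - 1) ≤ 2 ^ 1 * (a - 1) :=
            Nat.mul_le_mul (Nat.pow_le_pow_right (by norm_num) h9) ha2
        _ ≤ 2 * (a + 1) := by omega
    · have h9 : padicValNat 2 (a - 1) ≤ 1 := by
        by_contra hc
        have h10 : 2 ^ 2 ∣ a - 1 := (padicValNat_dvd_iff_le (by omega)).mpr (by omega)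
        omega
      calc 2 ^ padicValNat 2 (a + 1) * 2 ^ padicValNat 2 (a - 1) ≤ (a + 1) * 2 ^ 1 :=
            Nat.mul_le_mul ha1 (Nat.pow_le_pow_right (by norm_num) h9)
        _ ≤ 2 * (a + 1) := by omega
  calc 2 ^ μ ≤ 2 ^ (padicValNat 2 (a + 1) + padicValNat 2 (a - 1) + padicValNat 2 k) :=
        Nat.pow_le_pow_right (by norm_num) (by omega)
    _ = 2 ^ padicValNat 2 (a + 1) * 2 ^ padicValNat 2 (a - 1) * 2 ^ padicValNat 2 k := by
        rw [pow_add, pow_add]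
    _ ≤ 2 * (a + 1) * k := Nat.mul_le_mul h7 h6

theorem ord_three {k μ : ℕ} (hk : 1 ≤ k) (h : (2 : ℤ) ^ μ ∣ 3 ^ k - 1) : 2 ^ μ ≤ 4 * k := by
  rcases Nat.even_or_odd' k with ⟨j, hj | hj⟩
  · subst hj
    have h2 := ord_odd (a := 3) (k := j) (μ := μ) (by norm_num) (by norm_num) (by omega)
      (by exact_mod_cast h)
    omega
  · subst hj
    have hμ : μ ≤ 1 := by
      by_contra hc
      have h4 : (2 : ℤ) ^ 2 ∣ 3 ^ (2 * j + 1) - 1 := (pow_dvd_pow 2 (by omega)).trans h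
      have h5 : (3 : ℤ) ^ (2 * j + 1) % 4 = 3 := by
        have h6 : (3 : ℤ) ^ (2 * j + 1) = 9 ^ j * 3 := by rw [pow_succ, pow_mul]; norm_num
        have h7 : (9 : ℤ) ^ j ≡ 1 ^ j [ZMOD 4] := Int.ModEq.pow j (by decide)
        rw [h6]
        have h8 := h7.mul_right 3
        rw [one_pow] at h8
        exact h8
      norm_num at h4
      omega
    calc 2 ^ μ ≤ 2 ^ 1 := Nat.pow_le_pow_right (by norm_num) hμ
      _ ≤ 4 * (2 * j + 1) := by omega

theorem ord_four {l ν : ℕ} (hl : 1 ≤ l) (h : (3 : ℤ) ^ ν ∣ 4 ^ l - 1) : 3 ^ ν ≤ 3 * l := by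
  have h1 : 1 < 4 ^ l := Nat.one_lt_pow (by omega) (by norm_num)
  have hd : 3 ^ ν ∣ 4 ^ l - 1 := by
    have h2 : ((3 ^ ν : ℕ) : ℤ) ∣ ((4 ^ l - 1 : ℕ) : ℤ) := by
      rw [Nat.cast_sub h1.le]; push_cast; exact h
    exact_mod_cast h2
  haveI : Fact (Nat.Prime 3) := ⟨Nat.prime_three⟩
  have h3 := padicValNat.pow_sub_pow (x := 4) (y := 1) (p := 3) (by decide) (by norm_num) (by norm_num)
    (by norm_num) (n := l) (by omega)
  rw [one_pow] at h3
  have h4 : ν ≤ padicValNat 3 (4 ^ l - 1) :=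
    (padicValNat_dvd_iff_le (by omega)).mp hd
  have h5 : padicValNat 3 (4 - 1) = 1 := by
    norm_num
  have h6 : 3 ^ padicValNat 3 l ≤ l := Nat.le_of_dvd (by omega) pow_padicValNat_dvd
  calc 3 ^ ν ≤ 3 ^ (1 + padicValNat 3 l) := Nat.pow_le_pow_right (by norm_num) (by omega)
    _ = 3 * 3 ^ padicValNat 3 l := by rw [pow_add, pow_one]
    _ ≤ 3 * l := Nat.mul_le_mul_left 3 h6

theorem prop_contra {A B A' B' : ℝ} {m m' : ℕ} (hA : 0 < A) (hB : 0 < B) (hA' : 0 < A')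
    (hB' : 0 < B') (hm : 1 ≤ m) (hmm : m < m') (h1 : A' ^ m = A ^ m') (h2 : B' ^ m = B ^ m')
    (h3 : (A' + B') ^ m = (A + B) ^ m') : False := by
  have hS : 0 < A + B := by positivity
  have hS' : 0 < A' + B' := by positivity
  have key : ∀ C C' : ℝ, 0 < C → 0 < C' → C < A + B → C' ^ m = C ^ m' →
      C' / (A' + B') < C / (A + B) := by
    intro C C' hC hC' hCl hCC
    have h0 : 0 < C / (A + B) := by positivity
    have hlt : C / (A + B) < 1 := by rw [div_lt_one hS]; exact hCl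
    have h4 : (C' / (A' + B')) ^ m = (C / (A + B)) ^ m' := by
      rw [div_pow, div_pow, hCC, h3]
    have h5 : (C / (A + B)) ^ m' < (C / (A + B)) ^ m := pow_lt_pow_right_of_lt_one₀ h0 hlt hmm
    rw [← h4] at h5
    exact lt_of_pow_lt_pow_left₀ m h0.le h5
  have h4 := key A A' hA hA' (by linarith) h1
  have h5 := key B B' hB hB' (by linarith) h2
  have h6 : A / (A + B) + B / (A + B) = 1 := by rw [← add_div]; exact div_self hS.ne'
  have h7 : A' / (A' + B') + B' / (A' + B') = 1 := by rw [← add_div]; exact div_self hS'.ne'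
  linarith

end Pool.Agent.H91.CB
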