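import Pool.Agent.H91.CB.Exp
import Pool.Agent.H91.CB.Ord

/-!
JOB CB-12 (`2^x + 3^y = q^z`, `q` large, about 200-280 lines; uses the stubs `eb2`, `ord_three`, `ord_four`,
`prop_contra` and the finished `lfl_arch`, `L_cond`).

`t = log q` large.  By `eb2` (`b = 3`, `c = q`) `z, z' ≤ t^5`, `y, y' ≤ t^5`, `x, x' ≤ 2 t^5` (`x log 2 ≤ z t`).
`k = |y z' - y' z| ≤ t^10`, `l = |x z' - x' z| ≤ 2 t^10`.
From `(2^x + 3^y)^z' = q^(zz') = (2^x' + 3^y')^z`: modulo `2^(min x x')` `3^(y z') ≡ 3^(y' z)`, so if `k ≠ 0`,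
`2^(min x x') ∣ 3^k - 1` and `2^(min x x') ≤ 4k ≤ 4 t^10`; modulo `3^(min y y')` `2^(x z') ≡ 2^(x' z)`, so if
`l ≠ 0`, `3^(min y y') ∣ 2^l - 1 ∣ 4^l - 1` and `3^(min y y') ≤ 3l ≤ 6 t^10`.  All real estimates below use
`q = exp t`, much larger than powers of `t`.
(i) `k = l = 0`.  If `z = z'` the solutions agree.  Otherwise, say `z < z'`, `prop_contra` with `A = 2^x`,
`B = 3^y`, `A' = 2^x'`, `B' = 3^y'`, `m = z`, `m' = z'`.
(ii) `k = 0`, `l ≠ 0`.  `z ≠ z'` (otherwise `y = y'`, `x = x'`, `l = 0`), say `z < z'`; `y < y'`, so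
`3^y ≤ 6 t^10`.  `0 < z t - x log 2 = log (1 + 3^y/2^x) ≤ 12 t^10/q` (`2^x ≥ q/2`).
`(q^z'/3^y')^z = (q^z/3^y)^z' ≥ (q/(6 t^10))^z'`, so `q^z'/3^y' ≥ q/(6 t^10)` and
`0 < z' t - x' log 2 = -log (1 - 3^y'/q^z') ≤ 12 t^10/q`.  So
`(x' z - x z') log 2 = z' (z t - x log 2) - z (z' t - x' log 2)` has absolute value `≤ t^5 * 12 t^10/q < log 2`:
`l = 0`, contradiction.
(iii) `l = 0`, `k ≠ 0`: the same with `2` and `3` exchanged (`2^x ≤ 4 t^10`).
(iv) `k, l ≠ 0`.  Say `x ≤ x'`, so `2^x ≤ 4 t^10`.  If `y ≤ y'` then `3^y ≤ 6 t^10` and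
`q ≤ q^z = 2^x + 3^y ≤ 10 t^10`, contradiction.  So `3^y' ≤ 6 t^10`,
`0 < z t - y log 3 = log(1 + 2^x/3^y) ≤ 8 t^10/q`, `0 < z' t - x' log 2 = log (1 + 3^y'/2^x') ≤ 12 t^10/q`, and
`|z x' log 2 - z' y log 3| ≤ t^5 * 12 t^10/q`.  `lfl_arch` with `a = 2`, `u = z x'`, `b = 3`, `v = z' y`, `E = 1`, `F = 2`,
`B ≤ 2 t^10`, `L = ⌈100 log (t²)⌉₊ ≤ 202 log t` (`E F B ≤ 4 t^10 ≤ (t²)^9`): the left side is
`≥ exp(-10^4 (202 log t)²)`, a contradiction for `t` large.
(The case `x' < x` is symmetric.)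
-/

namespace Pool.Agent.H91.CB

open Pool.Agent.H91.CA

theorem Fix3_gap {u v ε : ℝ} (hu : 0 < u) (h : u + v = 1) (hv : 0 < v) (hε : v ≤ ε)
    (hε2 : ε ≤ 1 / 2) : 0 ≤ -Real.log u ∧ -Real.log u ≤ 2 * ε := by
  constructor
  · have := Real.log_nonpos hu.le (by linarith : u ≤ 1)
    linarith
  · have h1 : Real.log (u⁻¹) ≤ u⁻¹ - 1 := Real.log_le_sub_one_of_pos (inv_pos.2 hu)
    rw [Real.log_inv] at h1
    have hu2 : 1 / 2 ≤ u := by linarith
    have h3 : u⁻¹ - 1 ≤ 2 * v := by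
      rw [← one_div, div_sub_one hu.ne', div_le_iff₀ hu]
      nlinarith
    linarith

theorem Fix3_exp {q x y z : ℕ} {t : ℝ} (hq : Real.exp t = q) (h : 2 ^ x + 3 ^ y = q ^ z) :
    Real.exp (x * Real.log 2 - z * t) + Real.exp (y * Real.log 3 - z * t) = 1 := by
  have h1 : ((2 : ℝ) ^ x + 3 ^ y) = (q : ℝ) ^ z := by exact_mod_cast h
  have h0 : (0 : ℝ) < (q : ℝ) ^ z := by
    rw [← hq]
    positivity
  rw [Real.exp_sub, Real.exp_sub, Real.exp_nat_mul, Real.exp_nat_mul, Real.exp_nat_mul,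
    Real.exp_log (by norm_num), Real.exp_log (by norm_num), hq, ← add_div, h1, div_self h0.ne']

theorem Fix3_eps {b y z : ℕ} {t M : ℝ} (hb : 0 < b) (ht : 0 ≤ t) (hz : 1 ≤ z)
    (hM : (b : ℝ) ^ y ≤ M) : Real.exp (y * Real.log b - z * t) ≤ M * Real.exp (-t) := by
  have hb' : (0 : ℝ) < b := by exact_mod_cast hb
  have hz' : (1 : ℝ) ≤ z := by exact_mod_cast hz
  rw [sub_eq_add_neg, Real.exp_add, Real.exp_nat_mul, Real.exp_log hb']
  have h1 : Real.exp (-(z * t)) ≤ Real.exp (-t) := by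
    apply Real.exp_le_exp.2
    nlinarith
  have h2 : (0 : ℝ) ≤ (b : ℝ) ^ y := by positivity
  calc (b : ℝ) ^ y * Real.exp (-(z * t)) ≤ M * Real.exp (-(z * t)) :=
        mul_le_mul_of_nonneg_right hM (Real.exp_pos _).le
    _ ≤ M * Real.exp (-t) := mul_le_mul_of_nonneg_left h1 (h2.trans hM)

theorem Fix3_D {α β t ε : ℝ} {x y z : ℕ}
    (h : Real.exp (x * α - z * t) + Real.exp (y * β - z * t) = 1)
    (hε : Real.exp (y * β - z * t) ≤ ε) (hε2 : ε ≤ 1 / 2) :
    0 ≤ z * t - x * α ∧ z * t - x * α ≤ 2 * ε := by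
  have h1 := Fix3_gap (Real.exp_pos _) h (Real.exp_pos _) hε hε2
  rw [Real.log_exp] at h1
  constructor <;> linarith [h1.1, h1.2]

/-- proportional exponents of `β` force proportional exponents of `α` -/
theorem Fix3_prop {α β t ε P : ℝ} {x y z x' y' z' : ℕ} (hz : 1 ≤ z)
    (h : Real.exp (x * α - z * t) + Real.exp (y * β - z * t) = 1)
    (h' : Real.exp (x' * α - z' * t) + Real.exp (y' * β - z' * t) = 1)
    (hy : y * z' = y' * z) (hzz : z < z') (hε : Real.exp (y * β - z * t) ≤ ε)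
    (hε2 : ε ≤ 1 / 2) (hP : (z' : ℝ) ≤ P) (hα : P * (2 * ε) < α) : x * z' = x' * z := by
  have hz1 : (1 : ℝ) ≤ z := by exact_mod_cast hz
  have hzz1 : (z : ℝ) < z' := by exact_mod_cast hzz
  have hyR : (y : ℝ) * z' = y' * z := by exact_mod_cast hy
  have hD3 : 0 ≤ z * t - y * β := by
    by_contra hc
    have h1 : (0 : ℝ) ≤ y * β - z * t := by linarith
    have h2 : (1 : ℝ) ≤ Real.exp (y * β - z * t) := by
      rw [← Real.exp_zero]
      exact Real.exp_le_exp.2 h1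
    linarith
  have hD3' : z * t - y * β ≤ z' * t - y' * β := by
    have h1 : (z : ℝ) * (z * t - y * β) ≤ z * (z' * t - y' * β) := by
      have h2 : (z : ℝ) * (z' * t - y' * β) = z' * (z * t - y * β) := by
        linear_combination β * hyR
      rw [h2]
      exact mul_le_mul_of_nonneg_right hzz1.le hD3
    exact le_of_mul_le_mul_left h1 (by linarith)
  have hε' : Real.exp (y' * β - z' * t) ≤ ε := by
    refine le_trans (Real.exp_le_exp.2 ?_) hε
    linarith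
  obtain ⟨a1, a2⟩ := Fix3_D h hε hε2
  obtain ⟨b1, b2⟩ := Fix3_D h' hε' hε2
  have hε0 : 0 ≤ ε := le_trans (Real.exp_pos _).le hε
  have key : ((x' * z : ℕ) : ℝ) * α - ((x * z' : ℕ) : ℝ) * α =
      z' * (z * t - x * α) - z * (z' * t - x' * α) := by
    push_cast
    ring
  have u1 : z' * (z * t - x * α) ≤ P * (2 * ε) :=
    mul_le_mul hP a2 a1 (by linarith)
  have u2 : z * (z' * t - x' * α) ≤ P * (2 * ε) :=
    mul_le_mul (by linarith) b2 b1 (by linarith)
  have v1 : 0 ≤ z' * (z * t - x * α) := mul_nonneg (by linarith) a1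
  have v2 : 0 ≤ z * (z' * t - x' * α) := mul_nonneg (by linarith) b1
  have hα0 : 0 < α := lt_of_le_of_lt (le_trans v1 u1) hα
  rcases lt_trichotomy (x * z') (x' * z) with hlt | heq | hgt
  · exfalso
    have h1 : ((x * z' : ℕ) : ℝ) + 1 ≤ ((x' * z : ℕ) : ℝ) := by exact_mod_cast hlt
    nlinarith
  · exact heq
  · exfalso
    have h1 : ((x' * z : ℕ) : ℝ) + 1 ≤ ((x * z' : ℕ) : ℝ) := by exact_mod_cast hgt
    nlinarith

theorem Fix3_mod {n a : ℤ} {u v : ℕ} (hcop : IsCoprime a n) (h : a ^ u ≡ a ^ v [ZMOD n])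
    (hne : u ≠ v) : ∃ k, 1 ≤ k ∧ k ≤ max u v ∧ n ∣ a ^ k - 1 := by
  rcases Nat.lt_or_gt_of_ne hne with hlt | hgt
  · refine ⟨v - u, by omega, by omega, ?_⟩
    have h1 : n ∣ a ^ v - a ^ u := h.dvd
    have h2 : a ^ v - a ^ u = a ^ u * (a ^ (v - u) - 1) := by
      have e : v = u + (v - u) := by omega
      conv_lhs => rw [e, pow_add]
      ring
    rw [h2] at h1
    exact (hcop.pow_left).symm.dvd_of_dvd_mul_left h1
  · refine ⟨u - v, by omega, by omega, ?_⟩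
    have h1 : n ∣ a ^ u - a ^ v := h.symm.dvd
    have h2 : a ^ u - a ^ v = a ^ v * (a ^ (u - v) - 1) := by
      have e : u = v + (u - v) := by omega
      conv_lhs => rw [e, pow_add]
      ring
    rw [h2] at h1
    exact (hcop.pow_left).symm.dvd_of_dvd_mul_left h1

theorem Fix3_two {q x y z x' y' z' μ : ℕ} (h : 2 ^ x + 3 ^ y = q ^ z)
    (h' : 2 ^ x' + 3 ^ y' = q ^ z') (hμ : μ ≤ x) (hμ' : μ ≤ x') (hne : y * z' ≠ y' * z) :
    ∃ k, 1 ≤ k ∧ k ≤ max (y * z') (y' * z) ∧ (2 : ℤ) ^ μ ∣ 3 ^ k - 1 := by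
  have hi : (2 : ℤ) ^ x + 3 ^ y = (q : ℤ) ^ z := by exact_mod_cast h
  have hi' : (2 : ℤ) ^ x' + 3 ^ y' = (q : ℤ) ^ z' := by exact_mod_cast h'
  apply Fix3_mod
  · exact IsCoprime.pow_right (Int.isCoprime_iff_gcd_eq_one.2 (by norm_num))
  · have e1 : (3 : ℤ) ^ y ≡ 2 ^ x + 3 ^ y [ZMOD 2 ^ μ] := by
      rw [Int.modEq_iff_dvd, add_sub_cancel_right]
      exact pow_dvd_pow 2 hμ
    have e2 : (3 : ℤ) ^ y' ≡ 2 ^ x' + 3 ^ y' [ZMOD 2 ^ μ] := by
      rw [Int.modEq_iff_dvd, add_sub_cancel_right]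
      exact pow_dvd_pow 2 hμ'
    have e3 := e1.pow z'
    have e4 := e2.pow z
    rw [hi, ← pow_mul, ← pow_mul] at e3
    rw [hi', ← pow_mul, ← pow_mul, mul_comm z' z] at e4
    exact e3.trans e4.symm
  · exact hne

theorem Fix3_three {q x y z x' y' z' ν : ℕ} (h : 2 ^ x + 3 ^ y = q ^ z)
    (h' : 2 ^ x' + 3 ^ y' = q ^ z') (hν : ν ≤ y) (hν' : ν ≤ y') (hne : x * z' ≠ x' * z) :
    ∃ l, 1 ≤ l ∧ l ≤ max (x * z') (x' * z) ∧ (3 : ℤ) ^ ν ∣ 4 ^ l - 1 := by
  have hi : (2 : ℤ) ^ x + 3 ^ y = (q : ℤ) ^ z := by exact_mod_cast h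
  have hi' : (2 : ℤ) ^ x' + 3 ^ y' = (q : ℤ) ^ z' := by exact_mod_cast h'
  have key : ∃ l, 1 ≤ l ∧ l ≤ max (x * z') (x' * z) ∧ (3 : ℤ) ^ ν ∣ 2 ^ l - 1 := by
    apply Fix3_mod
    · exact IsCoprime.pow_right (Int.isCoprime_iff_gcd_eq_one.2 (by norm_num))
    · have e1 : (2 : ℤ) ^ x ≡ 2 ^ x + 3 ^ y [ZMOD 3 ^ ν] := by
        rw [Int.modEq_iff_dvd, add_sub_cancel_left]
        exact pow_dvd_pow 3 hν
      have e2 : (2 : ℤ) ^ x' ≡ 2 ^ x' + 3 ^ y' [ZMOD 3 ^ ν] := by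
        rw [Int.modEq_iff_dvd, add_sub_cancel_left]
        exact pow_dvd_pow 3 hν'
      have e3 := e1.pow z'
      have e4 := e2.pow z
      rw [hi, ← pow_mul, ← pow_mul] at e3
      rw [hi', ← pow_mul, ← pow_mul, mul_comm z' z] at e4
      exact e3.trans e4.symm
    · exact hne
  obtain ⟨l, h1, h2, h3⟩ := key
  refine ⟨l, h1, h2, h3.trans ?_⟩
  refine ⟨2 ^ l + 1, ?_⟩
  have e : (4 : ℤ) ^ l = 2 ^ l * 2 ^ l := by
    rw [← mul_pow]
    norm_num
  rw [e]
  ring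

theorem Fix3_asym : ∃ T : ℝ, ∀ t : ℝ, T ≤ t → 200 ≤ t ∧ 20 * t ^ 15 < Real.exp t ∧
    12 * t ^ 15 * Real.exp (10 ^ 4 * (202 * Real.log t) ^ 2) < Real.exp t := by
  rw [← Filter.eventually_atTop]
  have hlog := Real.tendsto_log_atTop
  filter_upwards [Filter.eventually_ge_atTop 200, Asy_exp 20 15 1 one_pos,
    hlog.eventually (Asy_exp (10 ^ 4 * 202 ^ 2 + 27) 2 1 one_pos),
    hlog.eventually_ge_atTop 1] with t h1 h2 h3 h4
  have ht0 : 0 < t := by linarith
  rw [one_mul] at h2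
  rw [one_mul, Real.exp_log ht0] at h3
  refine ⟨h1, h2, ?_⟩
  have e1 : t ^ 15 = Real.exp (15 * Real.log t) := by
    rw [show (15 : ℝ) * Real.log t = ((15 : ℕ) : ℝ) * Real.log t by norm_num, Real.exp_nat_mul,
      Real.exp_log ht0]
  have e2 : (12 : ℝ) ≤ Real.exp 11 := by
    have := Real.add_one_le_exp (11 : ℝ)
    linarith
  calc 12 * t ^ 15 * Real.exp (10 ^ 4 * (202 * Real.log t) ^ 2)
      ≤ Real.exp 11 * Real.exp (15 * Real.log t) *
          Real.exp (10 ^ 4 * (202 * Real.log t) ^ 2) := by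
        rw [e1]
        gcongr
    _ = Real.exp (11 + 15 * Real.log t + 10 ^ 4 * (202 * Real.log t) ^ 2) := by
        rw [← Real.exp_add, ← Real.exp_add]
    _ < Real.exp t := by
        apply Real.exp_lt_exp.2
        nlinarith

/-- the case where both pairs of exponents are not proportional -/
theorem Fix3_four {x y z x' y' z' : ℕ} {t : ℝ} (ht : 200 ≤ t)
    (ht2 : 12 * t ^ 15 * Real.exp (10 ^ 4 * (202 * Real.log t) ^ 2) < Real.exp t)
    (hx' : 1 ≤ x') (hy : 1 ≤ y) (hz : 1 ≤ z) (hz' : 1 ≤ z')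
    (h : Real.exp (x * Real.log 2 - z * t) + Real.exp (y * Real.log 3 - z * t) = 1)
    (h' : Real.exp (x' * Real.log 2 - z' * t) + Real.exp (y' * Real.log 3 - z' * t) = 1)
    (hε : Real.exp (x * Real.log 2 - z * t) ≤ 6 * t ^ 10 * Real.exp (-t))
    (hε' : Real.exp (y' * Real.log 3 - z' * t) ≤ 6 * t ^ 10 * Real.exp (-t))
    (hε2 : 6 * t ^ 10 * Real.exp (-t) ≤ 1 / 2)
    (bz : (z : ℝ) ≤ t ^ 5) (bz' : (z' : ℝ) ≤ t ^ 5) (by1 : (y : ℝ) ≤ t ^ 5)
    (bx' : (x' : ℝ) ≤ 2 * t ^ 5) : False := by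
  have ht0 : 0 < t := by linarith
  have ht1 : 1 ≤ t := by linarith
  obtain ⟨a1, a2⟩ := Fix3_D (by rw [add_comm]; exact h) hε hε2
  obtain ⟨b1, b2⟩ := Fix3_D h' hε' hε2
  have hz1 : (0 : ℝ) ≤ z := Nat.cast_nonneg z
  have hz1' : (0 : ℝ) ≤ z' := Nat.cast_nonneg z'
  have hE0 : 0 < Real.exp (-t) := Real.exp_pos _
  have u1 : z' * (z * t - y * Real.log 3) ≤ t ^ 5 * (2 * (6 * t ^ 10 * Real.exp (-t))) :=
    mul_le_mul bz' a2 a1 (by positivity)
  have u2 : z * (z' * t - x' * Real.log 2) ≤ t ^ 5 * (2 * (6 * t ^ 10 * Real.exp (-t))) :=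
    mul_le_mul bz b2 b1 (by positivity)
  have v1 : 0 ≤ z' * (z * t - y * Real.log 3) := mul_nonneg hz1' a1
  have v2 : 0 ≤ z * (z' * t - x' * Real.log 2) := mul_nonneg hz1 b1
  have hupper : |((z * x' : ℕ) : ℝ) * Real.log ((2 : ℕ) : ℝ) -
      ((z' * y : ℕ) : ℝ) * Real.log ((3 : ℕ) : ℝ)| ≤ 12 * t ^ 15 * Real.exp (-t) := by
    have e : ((z * x' : ℕ) : ℝ) * Real.log ((2 : ℕ) : ℝ) -
        ((z' * y : ℕ) : ℝ) * Real.log ((3 : ℕ) : ℝ) =
        z' * (z * t - y * Real.log 3) - z * (z' * t - x' * Real.log 2) := by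
      push_cast
      ring
    have e2 : t ^ 5 * (2 * (6 * t ^ 10 * Real.exp (-t))) = 12 * t ^ 15 * Real.exp (-t) := by
      ring
    rw [e, abs_le]
    rw [e2] at u1 u2
    constructor <;> linarith
  -- the lower bound
  have hlogt : 5 ≤ Real.log (t ^ 2) := by
    rw [Real.le_log_iff_exp_le (by positivity)]
    have h1 : Real.exp 5 ≤ 2.7182818286 ^ 5 := by
      have h2 : Real.exp 5 = Real.exp 1 ^ 5 := by
        rw [← Real.exp_nat_mul]
        norm_num
      rw [h2]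
      exact pow_le_pow_left₀ (Real.exp_pos _).le Real.exp_one_lt_d9.le 5
    have h3 : (2.7182818286 : ℝ) ^ 5 ≤ 200 ^ 2 := by norm_num
    have h4 : (200 : ℝ) ^ 2 ≤ t ^ 2 := pow_le_pow_left₀ (by norm_num) ht 2
    linarith
  have hu1 : 1 ≤ z * x' := Nat.mul_pos hz hx'
  have hv1 : 1 ≤ z' * y := Nat.mul_pos hz' hy
  have hB1 : 1 ≤ max (z * x') (z' * y) := le_trans hu1 (le_max_left _ _)
  have hB : ((max (z * x') (z' * y) : ℕ) : ℝ) ≤ 2 * t ^ 10 := by
    rw [Nat.cast_max]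
    apply max_le
    · push_cast
      calc (z : ℝ) * x' ≤ t ^ 5 * (2 * t ^ 5) :=
            mul_le_mul bz bx' (Nat.cast_nonneg _) (by positivity)
        _ = 2 * t ^ 10 := by ring
    · push_cast
      calc (z' : ℝ) * y ≤ t ^ 5 * t ^ 5 :=
            mul_le_mul bz' by1 (Nat.cast_nonneg _) (by positivity)
        _ ≤ 2 * t ^ 10 := by
            have : (0 : ℝ) ≤ t ^ 10 := by positivity
            nlinarith
  have hB9 : (((1 : ℕ) : ℝ)) * ((2 : ℕ) : ℝ) * ((max (z * x') (z' * y) : ℕ) : ℝ) ≤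
      (t ^ 2) ^ 9 := by
    have h1 : (4 : ℝ) ≤ t ^ 8 := by
      calc (4 : ℝ) ≤ 200 ^ 8 := by norm_num
        _ ≤ t ^ 8 := pow_le_pow_left₀ (by norm_num) ht 8
    have h2 : (t ^ 2) ^ 9 = t ^ 8 * t ^ 10 := by ring
    rw [h2]
    push_cast
    have h3 : (0 : ℝ) ≤ t ^ 10 := by positivity
    have h4 : 4 * t ^ 10 ≤ t ^ 8 * t ^ 10 := mul_le_mul_of_nonneg_right h1 h3
    rw [Nat.cast_max] at hB
    push_cast at hB
    linarith
  obtain ⟨hL, hL2⟩ := L_cond (x := t ^ 2) (E := 1) (F := 2) (B := max (z * x') (z' * y))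
    hlogt (by positivity) le_rfl (by norm_num) hB1 hB9
  have hlow := lfl_arch (a := 2) (b := 3) (u := z * x') (v := z' * y) (E := 1) (F := 2)
    (L := ⌈100 * Real.log (t ^ 2)⌉₊) (B := max (z * x') (z' * y)) (by norm_num) le_rfl
    (by norm_num) hu1 hv1 (le_max_left _ _) (le_max_right _ _)
    (by
      have := Real.log_two_lt_d9
      push_cast
      linarith)
    (by
      have h1 : Real.log 3 ≤ 3 - 1 := Real.log_le_sub_one_of_pos (by norm_num)
      push_cast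
      linarith) le_rfl (by norm_num) hL
  have hl2 : Real.log (t ^ 2) = 2 * Real.log t := by
    rw [Real.log_pow]
    push_cast
    ring
  have hL0 : (0 : ℝ) ≤ ((⌈100 * Real.log (t ^ 2)⌉₊ : ℕ) : ℝ) := Nat.cast_nonneg _
  have hL3 : ((⌈100 * Real.log (t ^ 2)⌉₊ : ℕ) : ℝ) ^ 2 ≤ (202 * Real.log t) ^ 2 := by
    apply pow_le_pow_left₀ hL0
    rw [hl2] at hL2 ⊢
    linarith
  have hlow2 : Real.exp (-(10 ^ 4 * (202 * Real.log t) ^ 2)) ≤
      Real.exp (-(5000 * ((⌈100 * Real.log (t ^ 2)⌉₊ : ℕ) : ℝ) ^ 2 * ((1 : ℕ) : ℝ) *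
        ((2 : ℕ) : ℝ))) := by
    apply Real.exp_le_exp.2
    push_cast
    linarith
  have h5 := le_trans hlow2 (le_trans hlow hupper)
  have h6 : Real.exp (-(10 ^ 4 * (202 * Real.log t) ^ 2)) *
      Real.exp (10 ^ 4 * (202 * Real.log t) ^ 2) = 1 := by
    rw [← Real.exp_add, neg_add_cancel, Real.exp_zero]
  have h7 : Real.exp (-t) * Real.exp t = 1 := by
    rw [← Real.exp_add, neg_add_cancel, Real.exp_zero]
  have h8 : 0 < Real.exp (10 ^ 4 * (202 * Real.log t) ^ 2) := Real.exp_pos _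
  have h9 := mul_le_mul_of_nonneg_right h5 h8.le
  rw [h6] at h9
  have h10 : 12 * t ^ 15 * Real.exp (-t) * Real.exp (10 ^ 4 * (202 * Real.log t) ^ 2) < 1 := by
    have h11 := mul_lt_mul_of_pos_left ht2 hE0
    rw [h7] at h11
    calc _ = Real.exp (-t) * (12 * t ^ 15 * Real.exp (10 ^ 4 * (202 * Real.log t) ^ 2)) := by
          ring
      _ < 1 := h11
  linarith

theorem fix3 : ∃ T0 : ℝ, ∀ q x y z x' y' z' : ℕ, q.Prime → 5 ≤ q → T0 ≤ Real.log q →
    1 ≤ x → 1 ≤ y → 1 ≤ z → 1 ≤ x' → 1 ≤ y' → 1 ≤ z' → 2 ^ x + 3 ^ y = q ^ z →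
    2 ^ x' + 3 ^ y' = q ^ z' → x = x' ∧ y = y' ∧ z = z' := by
  obtain ⟨T1, hT1⟩ := eb2
  obtain ⟨T2, hT2⟩ := Fix3_asym
  refine ⟨max T1 T2, ?_⟩
  intro q x y z x' y' z' hq hq5 ht hx hy hz hx' hy' hz' h h'
  obtain ⟨t, htd⟩ : ∃ t, t = Real.log q := ⟨_, rfl⟩
  rw [← htd] at ht
  obtain ⟨ht200, hbig, hbig2⟩ := hT2 t (le_trans (le_max_right _ _) ht)
  have htT1 : T1 ≤ t := le_trans (le_max_left _ _) ht
  have hq0 : (0 : ℝ) < q := by
    have : 0 < q := by omega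
    exact_mod_cast this
  have hexp : Real.exp t = q := by rw [htd, Real.exp_log hq0]
  have ht0 : 0 < t := by linarith
  have ht1 : 1 ≤ t := by linarith
  have hqodd : q % 2 = 1 := by
    rcases hq.eq_two_or_odd with h1 | h1
    · omega
    · exact h1
  have hcop : Nat.Coprime 3 q := (Nat.coprime_primes Nat.prime_three hq).2 (by omega)
  have hlog3 : Real.log ((3 : ℕ) : ℝ) ≤ t := by
    rw [htd]
    apply Real.log_le_log (by norm_num)
    have : 3 ≤ q := by omega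
    exact_mod_cast this
  -- bounds
  have hbd : ∀ {x y z : ℕ}, 1 ≤ y → 1 ≤ z → 2 ^ x + 3 ^ y = q ^ z →
      (x : ℝ) ≤ 2 * t ^ 5 ∧ (y : ℝ) ≤ t ^ 5 ∧ (z : ℝ) ≤ t ^ 5 := by
    intro x y z hy hz h
    have h1 := hT1 3 q x y z (by norm_num) hqodd hcop le_rfl (by omega) hy hz h t htT1 hlog3
      (by rw [htd])
    rw [← htd] at h1
    have h2 := Fix3_exp hexp h
    have h3 : Real.exp (x * Real.log 2 - z * t) ≤ 1 := by
      have := Real.exp_pos (y * Real.log 3 - z * t)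
      linarith
    have h4 : Real.exp (y * Real.log 3 - z * t) ≤ 1 := by
      have := Real.exp_pos (x * Real.log 2 - z * t)
      linarith
    rw [Real.exp_le_one_iff] at h3 h4
    have h5 := Real.log_two_gt_d9
    have h6 : (1 : ℝ) ≤ Real.log 3 := by
      rw [Real.le_log_iff_exp_le (by norm_num)]
      have := Real.exp_one_lt_d9
      linarith
    have hx0 : (0 : ℝ) ≤ x := Nat.cast_nonneg _
    have hy0 : (0 : ℝ) ≤ y := Nat.cast_nonneg _
    have hz0 : (0 : ℝ) ≤ z := Nat.cast_nonneg _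
    refine ⟨?_, ?_, ?_⟩
    · nlinarith
    · nlinarith
    · nlinarith
  obtain ⟨bx, by1, bz⟩ := hbd hy hz h
  obtain ⟨bx', by1', bz'⟩ := hbd hy' hz' h'
  have hs := Fix3_exp hexp h
  have hs' := Fix3_exp hexp h'
  have hE0 : 0 < Real.exp (-t) := Real.exp_pos _
  have hE1 : Real.exp (-t) * Real.exp t = 1 := by
    rw [← Real.exp_add, neg_add_cancel, Real.exp_zero]
  have hsmall : 20 * t ^ 15 * Real.exp (-t) < 1 := by
    have h1 := mul_lt_mul_of_pos_left hbig hE0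
    rw [hE1] at h1
    linarith
  have ht15 : t ^ 10 ≤ t ^ 15 := pow_le_pow_right₀ ht1 (by norm_num)
  have hpE : t ^ 10 * Real.exp (-t) ≤ t ^ 15 * Real.exp (-t) :=
    mul_le_mul_of_nonneg_right ht15 hE0.le
  have hε2 : 6 * t ^ 10 * Real.exp (-t) ≤ 1 / 2 := by linarith
  have hPE : t ^ 5 * (2 * (6 * t ^ 10 * Real.exp (-t))) < 0.6 := by
    have e : t ^ 5 * (2 * (6 * t ^ 10 * Real.exp (-t))) = 12 * (t ^ 15 * Real.exp (-t)) := by
      ring
    rw [e]
    linarith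
  have hPE2 : t ^ 5 * (2 * (6 * t ^ 10 * Real.exp (-t))) < Real.log 2 := by
    have := Real.log_two_gt_d9
    linarith
  have hPE3 : t ^ 5 * (2 * (6 * t ^ 10 * Real.exp (-t))) < Real.log 3 := by
    have h1 : Real.log 2 ≤ Real.log 3 := Real.log_le_log (by norm_num) (by norm_num)
    linarith
  -- powers of two
  have two : ∀ μ, μ ≤ x → μ ≤ x' → y * z' ≠ y' * z → (((2 : ℕ) : ℝ)) ^ μ ≤ 6 * t ^ 10 := by
    intro μ h1 h2 h3
    obtain ⟨k, hk1, hk2, hk3⟩ := Fix3_two h h' h1 h2 h3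
    have h4 := ord_three hk1 hk3
    have h5 : (k : ℝ) ≤ t ^ 10 := by
      have h6 : (k : ℝ) ≤ ((max (y * z') (y' * z) : ℕ) : ℝ) := by exact_mod_cast hk2
      refine h6.trans ?_
      rw [Nat.cast_max]
      apply max_le
      · push_cast
        calc (y : ℝ) * z' ≤ t ^ 5 * t ^ 5 :=
              mul_le_mul by1 bz' (Nat.cast_nonneg _) (by positivity)
          _ = t ^ 10 := by ring
      · push_cast
        calc (y' : ℝ) * z ≤ t ^ 5 * t ^ 5 :=
              mul_le_mul by1' bz (Nat.cast_nonneg _) (by positivity)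
          _ = t ^ 10 := by ring
    have h7 : (((2 : ℕ) : ℝ)) ^ μ ≤ 4 * (k : ℝ) := by exact_mod_cast h4
    have h8 : (0 : ℝ) ≤ t ^ 10 := by positivity
    linarith
  have three : ∀ ν, ν ≤ y → ν ≤ y' → x * z' ≠ x' * z → (((3 : ℕ) : ℝ)) ^ ν ≤ 6 * t ^ 10 := by
    intro ν h1 h2 h3
    obtain ⟨k, hk1, hk2, hk3⟩ := Fix3_three h h' h1 h2 h3
    have h4 := ord_four hk1 hk3
    have h5 : (k : ℝ) ≤ 2 * t ^ 10 := by
      have h6 : (k : ℝ) ≤ ((max (x * z') (x' * z) : ℕ) : ℝ) := by exact_mod_cast hk2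
      refine h6.trans ?_
      rw [Nat.cast_max]
      apply max_le
      · push_cast
        calc (x : ℝ) * z' ≤ (2 * t ^ 5) * t ^ 5 :=
              mul_le_mul bx bz' (Nat.cast_nonneg _) (by positivity)
          _ = 2 * t ^ 10 := by ring
      · push_cast
        calc (x' : ℝ) * z ≤ (2 * t ^ 5) * t ^ 5 :=
              mul_le_mul bx' bz (Nat.cast_nonneg _) (by positivity)
          _ = 2 * t ^ 10 := by ring
    have h7 : (((3 : ℕ) : ℝ)) ^ ν ≤ 3 * (k : ℝ) := by exact_mod_cast h4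
    linarith
  have e2 : ∀ {x z : ℕ}, 1 ≤ z → (((2 : ℕ) : ℝ)) ^ x ≤ 6 * t ^ 10 →
      Real.exp (x * Real.log 2 - z * t) ≤ 6 * t ^ 10 * Real.exp (-t) := by
    intro x z hz h1
    have h2 := Fix3_eps (b := 2) (y := x) (z := z) (by norm_num) ht0.le hz h1
    exact_mod_cast h2
  have e3 : ∀ {y z : ℕ}, 1 ≤ z → (((3 : ℕ) : ℝ)) ^ y ≤ 6 * t ^ 10 →
      Real.exp (y * Real.log 3 - z * t) ≤ 6 * t ^ 10 * Real.exp (-t) := by
    intro y z hz h1
    have h2 := Fix3_eps (b := 3) (y := y) (z := z) (by norm_num) ht0.le hz h1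
    exact_mod_cast h2
  -- equal third exponents
  have heqz : z = z' → y * z' = y' * z → x = x' ∧ y = y' ∧ z = z' := by
    intro h1 h2
    subst h1
    have h3 : y = y' := Nat.eq_of_mul_eq_mul_right hz h2
    subst h3
    have h4 : 2 ^ x = 2 ^ x' := by omega
    exact ⟨Nat.pow_right_injective le_rfl h4, rfl, rfl⟩
  have heqz2 : z = z' → x * z' = x' * z → x = x' ∧ y = y' ∧ z = z' := by
    intro h1 h2
    subst h1
    have h3 : x = x' := Nat.eq_of_mul_eq_mul_right hz h2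
    subst h3
    have h4 : 3 ^ y = 3 ^ y' := by omega
    exact ⟨rfl, Nat.pow_right_injective (by norm_num) h4, rfl⟩
  by_cases hk : y * z' = y' * z
  · by_cases hl : x * z' = x' * z
    · -- proportional solutions
      by_cases hzz : z = z'
      · exact heqz hzz hk
      · exfalso
        have hR : ((2 : ℝ) ^ x + 3 ^ y) = (q : ℝ) ^ z := by exact_mod_cast h
        have hR' : ((2 : ℝ) ^ x' + 3 ^ y') = (q : ℝ) ^ z' := by exact_mod_cast h'
        rcases Nat.lt_or_gt_of_ne hzz with h1 | h1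
        · refine prop_contra (A := 2 ^ x) (B := 3 ^ y) (A' := 2 ^ x') (B' := 3 ^ y')
            (by positivity) (by positivity) (by positivity) (by positivity) hz h1 ?_ ?_ ?_
          · rw [← pow_mul, ← pow_mul, hl]
          · rw [← pow_mul, ← pow_mul, hk]
          · rw [hR, hR', ← pow_mul, ← pow_mul, mul_comm]
        · refine prop_contra (A := 2 ^ x') (B := 3 ^ y') (A' := 2 ^ x) (B' := 3 ^ y)
            (by positivity) (by positivity) (by positivity) (by positivity) hz' h1 ?_ ?_ ?_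
          · rw [← pow_mul, ← pow_mul, hl]
          · rw [← pow_mul, ← pow_mul, hk]
          · rw [hR, hR', ← pow_mul, ← pow_mul, mul_comm]
    · -- `y, z` proportional
      by_cases hzz : z = z'
      · exact heqz hzz hk
      · exfalso
        rcases Nat.lt_or_gt_of_ne hzz with h1 | h1
        · have hyy : y ≤ y' := by
            by_contra hc
            have h2 : y' * z < y * z' := by
              calc y' * z ≤ y * z := Nat.mul_le_mul_right _ (by omega)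
                _ < y * z' := Nat.mul_lt_mul_of_pos_left h1 hy
            omega
          exact hl (Fix3_prop hz hs hs' hk h1 (e3 hz (three y le_rfl hyy hl)) hε2 bz' hPE2)
        · have hyy : y' ≤ y := by
            by_contra hc
            have h2 : y * z' < y' * z := by
              calc y * z' ≤ y' * z' := Nat.mul_le_mul_right _ (by omega)
                _ < y' * z := Nat.mul_lt_mul_of_pos_left h1 hy'
            omega
          exact hl (Fix3_prop hz' hs' hs hk.symm h1 (e3 hz' (three y' hyy le_rfl hl)) hε2 bz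
            hPE2).symm
  · by_cases hl : x * z' = x' * z
    · by_cases hzz : z = z'
      · exact heqz2 hzz hl
      · exfalso
        have hc1 : Real.exp (y * Real.log 3 - z * t) + Real.exp (x * Real.log 2 - z * t) = 1 := by
          rw [add_comm]
          exact hs
        have hc2 : Real.exp (y' * Real.log 3 - z' * t) +
            Real.exp (x' * Real.log 2 - z' * t) = 1 := by
          rw [add_comm]
          exact hs'
        rcases Nat.lt_or_gt_of_ne hzz with h1 | h1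
        · have hxx : x ≤ x' := by
            by_contra hc
            have h2 : x' * z < x * z' := by
              calc x' * z ≤ x * z := Nat.mul_le_mul_right _ (by omega)
                _ < x * z' := Nat.mul_lt_mul_of_pos_left h1 hx
            omega
          exact hk (Fix3_prop hz hc1 hc2 hl h1 (e2 hz (two x le_rfl hxx hk)) hε2 bz' hPE3)
        · have hxx : x' ≤ x := by
            by_contra hc
            have h2 : x * z' < x' * z := by
              calc x * z' ≤ x' * z' := Nat.mul_le_mul_right _ (by omega)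
                _ < x' * z := Nat.mul_lt_mul_of_pos_left h1 hx'
            omega
          exact hk (Fix3_prop hz' hc2 hc1 hl.symm h1 (e2 hz' (two x' hxx le_rfl hk)) hε2 bz
            hPE3).symm
    · exfalso
      have hqbig : ∀ {x y z : ℕ}, 1 ≤ z → 2 ^ x + 3 ^ y = q ^ z →
          (((2 : ℕ) : ℝ)) ^ x ≤ 6 * t ^ 10 → (((3 : ℕ) : ℝ)) ^ y ≤ 6 * t ^ 10 → False := by
        intro x y z hz h h1 h2
        have h3 : ((((2 : ℕ) : ℝ)) ^ x + (((3 : ℕ) : ℝ)) ^ y) = (q : ℝ) ^ z := by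
          exact_mod_cast h
        have hq1 : (1 : ℝ) ≤ q := by
          have : 1 ≤ q := by omega
          exact_mod_cast this
        have h4 : (q : ℝ) ≤ (q : ℝ) ^ z := le_self_pow₀ hq1 (by omega)
        have h5 : 20 * t ^ 10 ≤ 20 * t ^ 15 := by linarith
        have h6 : 0 < t ^ 10 := by positivity
        rw [← hexp] at h4
        rw [hexp] at h4
        rw [hexp] at hbig
        linarith
      rcases le_total x x' with hxx | hxx
      · have h2x := two x le_rfl hxx hk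
        rcases le_total y y' with hyy | hyy
        · exact hqbig hz h h2x (three y le_rfl hyy hl)
        · exact Fix3_four ht200 hbig2 hx' hy hz hz' hs hs' (e2 hz h2x)
            (e3 hz' (three y' hyy le_rfl hl)) hε2 bz bz' by1 bx'
      · have h2x := two x' hxx le_rfl hk
        rcases le_total y' y with hyy | hyy
        · exact hqbig hz' h' h2x (three y' hyy le_rfl hl)
        · exact Fix3_four ht200 hbig2 hx hy' hz' hz hs' hs (e2 hz' h2x)
            (e3 hz (three y le_rfl hyy hl)) hε2 bz' bz by1' bx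

end Pool.Agent.H91.CB
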