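import Pool.Agent.H91.CB.Exp
import Pool.Agent.H91.CB.Ord

/-!
JOB CB-14 (`a^x + b^y = 2^z`, `a < b`, `b` large, about 250-330 lines; uses the stubs `ebc`, `ord_odd`).

`fixc2_prop` (`x y' = x' y`): write `x = g x0`, `y = g y0`, `x' = g' x0`, `y' = g' y0` with `x0`, `y0` coprime;
`A = a^x0`, `B = b^y0`, `A^g + B^g = 2^z`.  `g` is odd (otherwise `A^g + B^g ≡ 2 (mod 8)`, `2^z = 2`, but
`2^z ≥ a + b ≥ 8`).  If `g ≥ 3` then `A + B` divides `A^g + B^g` with odd quotient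
`∑ (-1)^k A^(g-1-k) B^k > 1`, not a power of 2.  So `g = 1`, and `g' = 1` in the same way.

`fixc2_step` (`x y' ≠ x' y`, `z ≤ z'`).  `t = log b` large; by `ebc` `z, z' ≤ 2 t^5`, `x, y, x', y' ≤ t^5`.
`l = |x y' - x' y| ≤ t^10`.  `a^x ≡ -b^y (mod 2^z)`, `a^x' ≡ -b^y' (mod 2^z)` give
`a^(xy') ≡ ± a^(x'y)`, so `2^z ∣ a^(2l) - 1`, `2^z ≤ 2 (a+1) l ≤ 2 (a+1) t^10` (`ord_odd`).
(1) `x = y = 1`: if `x ≥ 2` then `a² < 2^z ≤ 2(a+1) t^10`, `a < 3 t^10`, `b < 2^z ≤ 8 t^20`, contradiction; if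
`y ≥ 2` then `b² < 2 (a+1) t^10 ≤ 2 b t^10`, contradiction.  So `a + b = 2^z`, `k := |y' - x'| = l ≥ 1`, `k ≤ t^5`.
(2) `b ≡ -a (mod 2^z)`, so `a^x' ≡ -(-1)^y' a^y'` and `a^k ≡ ε (mod 2^z)` with `ε = -(-1)^y'`.
If `k` is odd, `a^k - ε = a^k - ε^k = (a - ε) (odd)`, so `2^z ∣ a - ε`, but `0 < a - ε ≤ a + 1 < a + b = 2^z`.
So `k` is even.  If `ε = -1`, `a^k + 1 ≡ 2 (mod 8)`, contradiction (`z ≥ 3`).  So `ε = 1`: `y'` is odd, `x'` is odd.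
(3) `k = 2k'`.  Let `ω = v2(a² - 1) - 1 ≥ 2`, `e = ±1` with `a ≡ e (mod 2^ω)`.  `2^z ∣ a^(2k') - 1`, so
`2^z ≤ 2^(ω+1) 2^(v2 k') ≤ 2^ω k`, `2^ω ≥ 2^z/k ≥ b/t^5`.  `2^ω ≤ a + 1 < 2^z`.
`a = e + 2^ω s`, `s ≥ 1`; `b = 2^z - a = -e + 2^ω s''`, `s'' = 2^(z-ω) - s ≥ 1`; `s + s'' = 2^(z-ω) ≤ k ≤ t^5`.
(4) `x'`, `y'` odd: modulo `2^(2ω)` `a^x' ≡ e + x' s 2^ω`, `b^y' ≡ -e + y' s'' 2^ω`, so
`2^z' ≡ 2^ω M`, `M = x' s + y' s''`, `0 < M ≤ t^10 < 2^ω`.  So `z' < 2ω` and `2^z' ∣ 2^ω M`,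
`2^z' ≤ 2^ω t^10 ≤ (a+1) t^10`.
(5) `(x',y') ≠ (1,1)` (as `k ≥ 1`), both odd, so `2^z' > a^3`; hence `a^3 < (a+1) t^10`, `a < 2 t^5`, but
`a + 1 ≥ 2^ω ≥ b/t^5`: contradiction.

`fixc2` follows: by symmetry in the two solutions `z ≤ z'`.
-/

namespace Pool.Agent.H91.CB

theorem fixc2_quot {x y : ℤ} {g z : ℕ} (hxy : 2 ∣ x - y) (hx : ¬ 2 ∣ x) (hg : ¬ 2 ∣ g)
    (h : (2 : ℤ) ^ z ∣ x ^ g - y ^ g) : (2 : ℤ) ^ z ∣ x - y := by
  have hg' : ¬ (2 : ℤ) ∣ (g : ℤ) := by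
    intro h1
    apply hg
    exact_mod_cast h1
  have h1 : ¬ (2 : ℤ) ∣ ∑ i ∈ Finset.range g, x ^ i * y ^ (g - 1 - i) :=
    not_dvd_geom_sum₂ Int.prime_two hxy hx hg'
  have h2 := geom_sum₂_mul x y g
  rw [← h2] at h
  exact (IsCoprime.pow_left ((Int.prime_two.coprime_iff_not_dvd).2 h1)).dvd_of_dvd_mul_left h

theorem fixc2_sq {n : ℕ} (hn : n % 2 = 1) (m : ℕ) : n ^ (2 * m) % 4 = 1 := by
  have h : n ^ 2 % 4 = 1 := by
    have : n % 4 = 1 ∨ n % 4 = 3 := by omega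
    rcases this with h | h <;> rw [Nat.pow_mod, h]
  rw [pow_mul, Nat.pow_mod, h]
  simp

theorem fixc2_pow_lt {A g : ℕ} (hA : 3 ≤ A) (hg : 2 ≤ g) : A < A ^ g := by
  calc A = A ^ 1 := (pow_one A).symm
    _ < A ^ g := Nat.pow_lt_pow_right (by omega) (by omega)

theorem fixc2_one {A B g z : ℕ} (hA : A % 2 = 1) (hB : B % 2 = 1) (hA3 : 3 ≤ A) (hB3 : 3 ≤ B)
    (hg : 1 ≤ g) (h : A ^ g + B ^ g = 2 ^ z) : g = 1 := by
  by_contra hne
  have hg2 : 2 ≤ g := by omega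
  have hAg := fixc2_pow_lt hA3 hg2
  have hBg := fixc2_pow_lt hB3 hg2
  rcases Nat.even_or_odd' g with ⟨m, hm | hm⟩
  · subst hm
    have h1 := fixc2_sq hA m
    have h2 := fixc2_sq hB m
    have hz : 2 ≤ z := by
      by_contra hz
      have : z = 0 ∨ z = 1 := by omega
      rcases this with rfl | rfl <;> norm_num at h <;> omega
    obtain ⟨w, rfl⟩ := Nat.exists_eq_add_of_le hz
    rw [pow_add] at h
    omega
  · have hx : ¬ (2 : ℤ) ∣ (A : ℤ) := by omega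
    have hd : (2 : ℤ) ^ z ∣ (A : ℤ) - (-(B : ℤ)) := by
      apply fixc2_quot (g := g) (by omega) hx (by omega)
      have ho : Odd g := ⟨m, hm⟩
      rw [ho.neg_pow, sub_neg_eq_add]
      exact ⟨1, by rw [mul_one]; exact_mod_cast h⟩
    have h3 : (2 : ℤ) ^ z ≤ (A : ℤ) - (-(B : ℤ)) := Int.le_of_dvd (by omega) hd
    have h4 : (2 : ℕ) ^ z ≤ A + B := by
      have : ((2 ^ z : ℕ) : ℤ) ≤ ((A + B : ℕ) : ℤ) := by
        push_cast
        linarith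
      exact_mod_cast this
    omega

theorem fixc2_lte {a k z : ℕ} (ha : a % 2 = 1) (ha3 : 3 ≤ a) (hk : 1 ≤ k) (hke : k % 2 = 0)
    (h : (2 : ℤ) ^ z ∣ (a : ℤ) ^ k - 1) : ∃ (ω : ℕ) (e s : ℤ), (e = 1 ∨ e = -1) ∧
      (a : ℤ) = e + 2 ^ ω * s ∧ 1 ≤ s ∧ 2 ^ z ≤ 2 ^ ω * k := by
  have hN : 2 ^ z ∣ a ^ k - 1 ^ k := by
    have h1 : 1 ^ k ≤ a ^ k := Nat.pow_le_pow_left (by omega) k
    have : ((2 ^ z : ℕ) : ℤ) ∣ ((a ^ k - 1 ^ k : ℕ) : ℤ) := by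
      rw [Nat.cast_sub h1]
      push_cast
      rw [one_pow]
      exact h
    exact_mod_cast this
  have hpos : a ^ k - 1 ^ k ≠ 0 := by
    have : 1 ^ k < a ^ k := Nat.pow_lt_pow_left (by omega) (by omega)
    omega
  have hz : z ≤ padicValNat 2 (a ^ k - 1 ^ k) :=
    (padicValNat_dvd_iff_le hpos).1 hN
  have hl := padicValNat.pow_two_sub_pow (x := a) (y := 1) (by omega) (by omega) (by omega)
    (n := k) (by omega) (Nat.even_iff.2 hke)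
  have hkk : 2 ^ padicValNat 2 k ≤ k := Nat.le_of_dvd (by omega) pow_padicValNat_dvd
  have h4 : a % 4 = 1 ∨ a % 4 = 3 := by omega
  have hv1 : ∀ n : ℕ, n % 4 = 2 → padicValNat 2 n = 1 := by
    intro n hn
    obtain ⟨m, rfl⟩ : ∃ m, n = 2 * m := ⟨n / 2, by omega⟩
    rw [padicValNat.mul (by norm_num) (by omega), padicValNat_self]
    have : padicValNat 2 m = 0 := padicValNat.eq_zero_of_not_dvd (by omega)
    omega
  rcases h4 with h4 | h4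
  · rw [hv1 (a + 1) (by omega)] at hl
    refine ⟨padicValNat 2 (a - 1), 1, ((a - 1) / 2 ^ padicValNat 2 (a - 1) : ℕ), Or.inl rfl,
      ?_, ?_, ?_⟩
    · have h5 : 2 ^ padicValNat 2 (a - 1) * ((a - 1) / 2 ^ padicValNat 2 (a - 1)) = a - 1 :=
        Nat.mul_div_cancel' pow_padicValNat_dvd
      have h6 : a = 1 + 2 ^ padicValNat 2 (a - 1) * ((a - 1) / 2 ^ padicValNat 2 (a - 1)) := by
        omega
      conv_lhs => rw [h6]
      push_cast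
      rfl
    · have : 0 < (a - 1) / 2 ^ padicValNat 2 (a - 1) :=
        Nat.div_pos (Nat.le_of_dvd (by omega) pow_padicValNat_dvd) (by positivity)
      exact_mod_cast this
    · calc 2 ^ z ≤ 2 ^ (padicValNat 2 (a - 1) + padicValNat 2 k) :=
            Nat.pow_le_pow_right (by norm_num) (by omega)
        _ = 2 ^ padicValNat 2 (a - 1) * 2 ^ padicValNat 2 k := pow_add _ _ _
        _ ≤ _ := Nat.mul_le_mul_left _ hkk
  · rw [hv1 (a - 1) (by omega)] at hl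
    refine ⟨padicValNat 2 (a + 1), -1, ((a + 1) / 2 ^ padicValNat 2 (a + 1) : ℕ), Or.inr rfl,
      ?_, ?_, ?_⟩
    · have h5 : 2 ^ padicValNat 2 (a + 1) * ((a + 1) / 2 ^ padicValNat 2 (a + 1)) = a + 1 :=
        Nat.mul_div_cancel' pow_padicValNat_dvd
      have h6 : ((2 ^ padicValNat 2 (a + 1) * ((a + 1) / 2 ^ padicValNat 2 (a + 1)) : ℕ) : ℤ) =
          ((a + 1 : ℕ) : ℤ) := by rw [h5]
      push_cast at h6 ⊢
      linarith
    · have : 0 < (a + 1) / 2 ^ padicValNat 2 (a + 1) :=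
        Nat.div_pos (Nat.le_of_dvd (by omega) pow_padicValNat_dvd) (by positivity)
      exact_mod_cast this
    · calc 2 ^ z ≤ 2 ^ (padicValNat 2 (a + 1) + padicValNat 2 k) :=
            Nat.pow_le_pow_right (by norm_num) (by omega)
        _ = 2 ^ padicValNat 2 (a + 1) * 2 ^ padicValNat 2 k := pow_add _ _ _
        _ ≤ _ := Nat.mul_le_mul_left _ hkk

theorem fixc2_exp (e u : ℤ) (he : e = 1 ∨ e = -1) (n : ℕ) (hn : n % 2 = 1) :
    ∃ K : ℤ, (e + u) ^ n = e + n * u + K * u ^ 2 := by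
  obtain ⟨K, hK⟩ := Polynomial.powAddExpansion e u n
  refine ⟨K, ?_⟩
  obtain ⟨m, rfl⟩ : ∃ m, n = 2 * m + 1 := ⟨n / 2, by omega⟩
  have h1 : e ^ (2 * m) = 1 := by
    rcases he with rfl | rfl
    · simp
    · rw [pow_mul]; norm_num
  have h2 : e ^ (2 * m + 1) = e := by rw [pow_succ, h1, one_mul]
  rw [hK, h2]
  have h3 : 2 * m + 1 - 1 = 2 * m := by omega
  rw [h3, h1, mul_one]

theorem fixc2_cancel {a ε : ℤ} (ha : ¬ (2 : ℤ) ∣ a) {i j z : ℕ} (hij : i ≤ j)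
    (h : (2 : ℤ) ^ z ∣ a ^ j - ε * a ^ i) : (2 : ℤ) ^ z ∣ a ^ (j - i) - ε := by
  have e : a ^ j - ε * a ^ i = a ^ i * (a ^ (j - i) - ε) := by
    have : a ^ j = a ^ i * a ^ (j - i) := by rw [← pow_add]; congr 1; omega
    rw [this]; ring
  rw [e] at h
  have hc : IsCoprime ((2 : ℤ) ^ z) (a ^ i) :=
    IsCoprime.pow ((Int.prime_two.coprime_iff_not_dvd).2 ha)
  exact hc.dvd_of_dvd_mul_left h

theorem fixc2_dvd {a b : ℤ} (ha : ¬ (2 : ℤ) ∣ a) {x y x' y' z : ℕ}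
    (h : (2 : ℤ) ^ z ∣ a ^ x + b ^ y) (h' : (2 : ℤ) ^ z ∣ a ^ x' + b ^ y')
    (hle : x' * y ≤ x * y') : (2 : ℤ) ^ z ∣ a ^ (2 * (x * y' - x' * y)) - 1 := by
  have h1 : a ^ x ≡ - b ^ y [ZMOD 2 ^ z] := by
    apply Int.ModEq.symm
    rw [Int.modEq_iff_dvd]
    simpa using h
  have h2 : a ^ x' ≡ - b ^ y' [ZMOD 2 ^ z] := by
    apply Int.ModEq.symm
    rw [Int.modEq_iff_dvd]
    simpa using h'
  have h3 := h1.pow (2 * y')
  have h4 := h2.pow (2 * y)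
  rw [Even.neg_pow (even_two_mul _)] at h3 h4
  have h5 : a ^ (2 * (x * y')) ≡ a ^ (2 * (x' * y)) [ZMOD 2 ^ z] := by
    have e1 : a ^ (2 * (x * y')) = (a ^ x) ^ (2 * y') := by rw [← pow_mul]; congr 1; ring
    have e2 : a ^ (2 * (x' * y)) = (a ^ x') ^ (2 * y) := by rw [← pow_mul]; congr 1; ring
    have e3 : (b ^ y) ^ (2 * y') = (b ^ y') ^ (2 * y) := by
      rw [← pow_mul, ← pow_mul]; congr 1; ring
    rw [e1, e2]
    exact h3.trans (e3 ▸ h4.symm)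
  have h6 := h5.symm.dvd
  have h7 := fixc2_cancel (ε := 1) ha (i := 2 * (x' * y)) (j := 2 * (x * y')) (z := z)
    (by omega) (by rw [one_mul]; exact h6)
  have e : 2 * (x * y') - 2 * (x' * y) = 2 * (x * y' - x' * y) := by omega
  rw [e] at h7
  exact h7

theorem fixc2_l1 {a b Q : ℕ} (ha3 : 3 ≤ a) (h2 : a ^ 2 < 2 * (a + 1) * Q)
    (h3 : b < 2 * (a + 1) * Q) (hEQ : 8 * Q ^ 2 ≤ b) : False := by
  have h4 : 3 * a < 8 * Q := by
    by_contra hcon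
    push Not at hcon
    nlinarith
  nlinarith

theorem fixc2_l2 {a b Q : ℕ} (hab : a < b) (h2 : b ^ 2 < 2 * (a + 1) * Q)
    (hEQ : 8 * Q ^ 2 ≤ b) (hQ1 : 1 ≤ Q) : False := by
  have h1 : 2 * (a + 1) * Q ≤ 2 * b * Q := Nat.mul_le_mul_right _ (by omega)
  have h3 : b ^ 2 < 2 * b * Q := lt_of_lt_of_le h2 h1
  have h4 : b < 2 * Q := by
    by_contra hcon
    push Not at hcon
    nlinarith
  nlinarith

theorem fixc2_l3 {W k Q E b : ℤ} (hW : W * k ≤ Q * E) (hb : b < W * k) (hEQ : 8 * Q ^ 2 ≤ b)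
    (hE : 1 ≤ E) (hQE : Q = E ^ 2) : False := by
  have h1 : E ≤ Q := by rw [hQE]; nlinarith
  have h2 : Q * E ≤ Q * Q := mul_le_mul_of_nonneg_left h1 (by linarith)
  nlinarith

theorem fixc2_l5 {a Q : ℤ} (ha3 : 3 ≤ a) (h : a ^ 3 < (a + 1) * Q) (hQ : 1 ≤ Q) :
    3 * a ^ 2 < 4 * Q := by
  by_contra hcon
  push Not at hcon
  have h1 : 3 * ((a + 1) * Q) ≤ a * (4 * Q) := by nlinarith
  have h2 : a * (4 * Q) ≤ a * (3 * a ^ 2) := mul_le_mul_of_nonneg_left hcon (by linarith)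
  nlinarith

theorem fixc2_l7 {a b Q E : ℤ} (ha3 : 3 ≤ a) (hb0 : 0 ≤ b) (hE : 1 ≤ E) (hQE : Q = E ^ 2)
    (h2 : 3 * a ^ 2 < 4 * Q) (h3 : b < (a + 1) * E) (hEQ : 8 * Q ^ 2 ≤ b) (hQ1 : 1 ≤ Q) :
    False := by
  have h4 : 3 * b < 4 * a * E := by nlinarith
  have h5 : (3 * b) ^ 2 < (4 * a * E) ^ 2 := pow_lt_pow_left₀ h4 (by positivity) (by norm_num)
  have h6 : 9 * b ^ 2 < 16 * (a ^ 2 * Q) := by
    rw [hQE]
    nlinarith
  have h7 : 3 * (a ^ 2 * Q) ≤ 4 * Q * Q := by nlinarith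
  have h8 : 8 * Q ≤ b := by nlinarith
  have h9 : (8 * Q) ^ 2 ≤ b ^ 2 := pow_le_pow_left₀ (by linarith) h8 2
  nlinarith

theorem fixc2_core {a b x y z x' y' z' E : ℕ} (ha : a % 2 = 1) (ha3 : 3 ≤ a)
    (hab : a < b) (hx : 1 ≤ x) (hy : 1 ≤ y) (hx' : 1 ≤ x') (hy' : 1 ≤ y')
    (hxE : x ≤ E) (hyE : y ≤ E) (hxE' : x' ≤ E) (hyE' : y' ≤ E) (hE : 8 * E ^ 4 ≤ b)
    (hz : z ≤ z') (h : a ^ x + b ^ y = 2 ^ z) (h' : a ^ x' + b ^ y' = 2 ^ z')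
    (hne : x * y' ≠ x' * y) : False := by
  have ha2 : ¬ (2 : ℤ) ∣ (a : ℤ) := by omega
  have hE1 : 1 ≤ E := le_trans hx hxE
  have hEQ : 8 * (E ^ 2) ^ 2 ≤ b := by
    calc 8 * (E ^ 2) ^ 2 = 8 * E ^ 4 := by ring
      _ ≤ b := hE
  have hQ1 : 1 ≤ E ^ 2 := Nat.one_le_pow _ _ hE1
  have hd : (2 : ℤ) ^ z ∣ (a : ℤ) ^ x + (b : ℤ) ^ y := ⟨1, by rw [mul_one]; exact_mod_cast h⟩
  have hd' : (2 : ℤ) ^ z ∣ (a : ℤ) ^ x' + (b : ℤ) ^ y' := by
    refine dvd_trans (pow_dvd_pow 2 hz) ⟨1, ?_⟩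
    rw [mul_one]; exact_mod_cast h'
  -- step 1
  obtain ⟨l, hl1, hlE, hl⟩ : ∃ l : ℕ, 1 ≤ l ∧ l ≤ E ^ 2 ∧ (2 : ℤ) ^ z ∣ (a : ℤ) ^ (2 * l) - 1 := by
    have b1 : x * y' ≤ E ^ 2 := by
      rw [sq]; exact Nat.mul_le_mul hxE hyE'
    have b2 : x' * y ≤ E ^ 2 := by
      rw [sq]; exact Nat.mul_le_mul hxE' hyE
    rcases le_total (x' * y) (x * y') with hle | hle
    · exact ⟨x * y' - x' * y, by omega, by omega, fixc2_dvd ha2 hd hd' hle⟩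
    · exact ⟨x' * y - x * y', by omega, by omega, fixc2_dvd ha2 hd' hd hle⟩
  have h2z : 2 ^ z ≤ 2 * (a + 1) * E ^ 2 :=
    le_trans (ord_odd ha ha3 hl1 hl) (Nat.mul_le_mul_left _ hlE)
  generalize hQ : E ^ 2 = Q at *
  have hax : a ≤ a ^ x := Nat.le_self_pow (by omega) a
  have hby : b ≤ b ^ y := Nat.le_self_pow (by omega) b
  have hbz : b < 2 ^ z := by omega
  -- step 2
  have hx1 : x = 1 := by
    by_contra hxne
    have h1 : a ^ 2 ≤ a ^ x := Nat.pow_le_pow_right (by omega) (by omega)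
    have h2 : a ^ 2 < 2 * (a + 1) * Q := by omega
    have h3 : b < 2 * (a + 1) * Q := by omega
    exact fixc2_l1 ha3 h2 h3 hEQ
  have hy1 : y = 1 := by
    by_contra hyne
    have h1 : b ^ 2 ≤ b ^ y := Nat.pow_le_pow_right (by omega) (by omega)
    have h2 : b ^ 2 < 2 * (a + 1) * Q := by omega
    exact fixc2_l2 hab h2 hEQ hQ1
  subst hx1 hy1
  rw [pow_one, pow_one] at h
  have hne' : y' ≠ x' := by simpa using hne
  have hz3 : 3 ≤ z := by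
    by_contra hz3
    have : 2 ^ z ≤ 2 ^ 2 := Nat.pow_le_pow_right (by norm_num) (by omega)
    omega
  -- step 3
  have hstep3 : ∀ ε : ℤ, ε * ε = 1 → (-(a : ℤ)) ^ y' = - ε * (a : ℤ) ^ y' →
      ∃ k : ℕ, 1 ≤ k ∧ k ≤ E ∧ (x' + k) % 2 = y' % 2 ∧ (2 : ℤ) ^ z ∣ (a : ℤ) ^ k - ε := by
    intro ε hε hneg
    have hb : (b : ℤ) = 2 ^ z - a := by
      have : ((a + b : ℕ) : ℤ) = ((2 ^ z : ℕ) : ℤ) := by rw [h]
      push_cast at this
      linarith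
    have h1 : (b : ℤ) ^ y' ≡ (-(a : ℤ)) ^ y' [ZMOD 2 ^ z] := by
      apply Int.ModEq.pow
      apply Int.ModEq.symm
      rw [Int.modEq_iff_dvd, hb]
      exact ⟨1, by ring⟩
    have h2 : (2 : ℤ) ^ z ∣ (a : ℤ) ^ x' - ε * (a : ℤ) ^ y' := by
      have h3 := h1.symm.dvd
      have h4 := dvd_sub hd' h3
      rw [hneg] at h4
      have h5 : (a : ℤ) ^ x' - ε * (a : ℤ) ^ y' = (a : ℤ) ^ x' + (b : ℤ) ^ y' -
          ((b : ℤ) ^ y' - -ε * (a : ℤ) ^ y') := by ring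
      rw [h5]
      exact h4
    rcases le_total y' x' with hle | hle
    · exact ⟨x' - y', by omega, by omega, by omega, fixc2_cancel ha2 hle h2⟩
    · refine ⟨y' - x', by omega, by omega, by omega, fixc2_cancel ha2 hle ?_⟩
      have h5 : (a : ℤ) ^ y' - ε * (a : ℤ) ^ x' = -ε * ((a : ℤ) ^ x' - ε * (a : ℤ) ^ y') +
          (1 - ε * ε) * (a : ℤ) ^ y' := by ring
      rw [h5, hε, sub_self, zero_mul, add_zero]
      exact Dvd.dvd.mul_left h2 _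
  have hodd : ∀ (ε : ℤ) (k : ℕ), (ε = 1 ∨ ε = -1) → (2 : ℤ) ^ z ∣ (a : ℤ) ^ k - ε →
      k % 2 = 1 → False := by
    intro ε k hε hk hk2
    have e1 : ε ^ k = ε := by
      rcases hε with rfl | rfl
      · simp
      · exact Odd.neg_one_pow (Nat.odd_iff.2 hk2)
    have h1 : (2 : ℤ) ^ z ∣ (a : ℤ) - ε := by
      apply fixc2_quot (g := k) (by rcases hε with rfl | rfl <;> omega) ha2 (by omega)
      rw [e1]
      exact hk
    have h2 : (2 : ℤ) ^ z ≤ (a : ℤ) - ε :=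
      Int.le_of_dvd (by rcases hε with rfl | rfl <;> omega) h1
    have h3 : ((a + b : ℕ) : ℤ) = ((2 ^ z : ℕ) : ℤ) := by rw [h]
    push_cast at h3
    rcases hε with rfl | rfl <;> omega
  have hy'odd : y' % 2 = 1 := by
    by_contra hcon
    have hev : Even y' := Nat.even_iff.2 (by omega)
    obtain ⟨k, hk1, hkE, hkp, hk⟩ := hstep3 (-1) (by norm_num) (by rw [hev.neg_pow]; ring)
    rcases Nat.even_or_odd' k with ⟨m, hm | hm⟩
    · have h1 := fixc2_sq ha m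
      rw [← hm] at h1
      have h2 : (2 : ℤ) ^ 2 ∣ (a : ℤ) ^ k - (-1) := dvd_trans (pow_dvd_pow 2 (by omega)) hk
      have h3 : (((a ^ k : ℕ) : ℤ)) % 4 = 1 := by exact_mod_cast h1
      push_cast at h3
      omega
    · exact hodd (-1) k (Or.inr rfl) hk (by omega)
  obtain ⟨k, hk1, hkE, hkp, hk⟩ := hstep3 1 (by norm_num) (by
    rw [(Nat.odd_iff.2 hy'odd).neg_pow]; ring)
  have hke : k % 2 = 0 := by
    by_contra hcon
    exact hodd 1 k (Or.inl rfl) hk (by omega)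
  have hx'odd : x' % 2 = 1 := by omega
  -- step 4
  obtain ⟨ω, e, s, he, has, hs, hω⟩ := fixc2_lte ha ha3 hk1 hke hk
  have hpω : (0 : ℤ) < 2 ^ ω := by positivity
  have hωa : (2 : ℤ) ^ ω ≤ a + 1 := by
    have : (2 : ℤ) ^ ω * 1 ≤ 2 ^ ω * s := mul_le_mul_of_nonneg_left hs hpω.le
    rcases he with rfl | rfl <;> linarith
  have habz : (a : ℤ) + b = 2 ^ z := by
    have : ((a + b : ℕ) : ℤ) = ((2 ^ z : ℕ) : ℤ) := by rw [h]
    push_cast at this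
    exact this
  have hωz : ω < z := by
    have h1 : (2 : ℤ) ^ ω < 2 ^ z := by
      rw [← habz]
      omega
    exact (pow_lt_pow_iff_right₀ (by norm_num)).1 h1
  have hsplit : (2 : ℤ) ^ z = 2 ^ ω * 2 ^ (z - ω) := by
    rw [← pow_add]; congr 1; omega
  obtain ⟨s'', hs''⟩ : ∃ s'' : ℤ, s'' = 2 ^ (z - ω) - s := ⟨_, rfl⟩
  have hbs : (b : ℤ) = -e + 2 ^ ω * s'' := by
    rw [hs'', mul_sub, ← hsplit]
    linarith
  have hs''1 : 1 ≤ s'' := by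
    by_contra hcon
    push Not at hcon
    have h1 : (2 : ℤ) ^ ω * s'' ≤ 0 := mul_nonpos_of_nonneg_of_nonpos hpω.le (by omega)
    have hb4 : 4 ≤ (b : ℤ) := by omega
    rcases he with rfl | rfl <;> linarith
  have hω' : (2 : ℤ) ^ z ≤ 2 ^ ω * k := by exact_mod_cast hω
  have hss : s + s'' ≤ k := by
    have h1 : (2 : ℤ) ^ (z - ω) ≤ k := by
      rw [hsplit] at hω'
      exact le_of_mul_le_mul_left hω' hpω
    linarith
  have hkE' : (k : ℤ) ≤ E := by exact_mod_cast hkE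
  have hQE : (Q : ℤ) = (E : ℤ) ^ 2 := by rw [← hQ]; push_cast; ring
  have hE1' : (1 : ℤ) ≤ E := by exact_mod_cast hE1
  have hEQ' : 8 * (Q : ℤ) ^ 2 ≤ b := by exact_mod_cast hEQ
  have hbz' : (b : ℤ) < 2 ^ z := by linarith
  have hQω : (Q : ℤ) < 2 ^ ω := by
    by_contra hcon
    push Not at hcon
    have h1 : (2 : ℤ) ^ ω * k ≤ Q * E := mul_le_mul hcon hkE' (by positivity) (by positivity)
    exact fixc2_l3 h1 (lt_of_lt_of_le hbz' hω') hEQ' hE1' hQE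
  obtain ⟨M, hM⟩ : ∃ M : ℤ, M = x' * s + y' * s'' := ⟨_, rfl⟩
  have hxE'' : (x' : ℤ) ≤ E := by exact_mod_cast hxE'
  have hyE'' : (y' : ℤ) ≤ E := by exact_mod_cast hyE'
  have hx'1 : (1 : ℤ) ≤ x' := by exact_mod_cast hx'
  have hy'1 : (1 : ℤ) ≤ y' := by exact_mod_cast hy'
  have hMpos : 0 < M := by
    rw [hM]
    have : 0 < (x' : ℤ) * s := mul_pos (by linarith) (by linarith)
    have : 0 < (y' : ℤ) * s'' := mul_pos (by linarith) (by linarith)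
    linarith
  have hMQ : M ≤ Q := by
    have h1 : (x' : ℤ) * s ≤ E * s := mul_le_mul_of_nonneg_right hxE'' (by linarith)
    have h2 : (y' : ℤ) * s'' ≤ E * s'' := mul_le_mul_of_nonneg_right hyE'' (by linarith)
    have h3 : (E : ℤ) * (s + s'') ≤ E * E := mul_le_mul_of_nonneg_left (by linarith) (by linarith)
    rw [hM, hQE, sq]
    linarith
  -- step 5
  obtain ⟨K1, hK1⟩ := fixc2_exp e (2 ^ ω * s) he x' hx'odd
  obtain ⟨K2, hK2⟩ := fixc2_exp (-e) (2 ^ ω * s'') (by rcases he with rfl | rfl <;> norm_num) y'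
    hy'odd
  have hsum : (2 : ℤ) ^ z' = 2 ^ ω * M + (2 ^ ω) ^ 2 * (K1 * s ^ 2 + K2 * s'' ^ 2) := by
    have h1 : ((a ^ x' + b ^ y' : ℕ) : ℤ) = ((2 ^ z' : ℕ) : ℤ) := by rw [h']
    push_cast at h1
    rw [← h1, has, hbs, hK1, hK2, hM]
    ring
  have hz'ω : z' < 2 * ω := by
    by_contra hcon
    push Not at hcon
    have h1 : ((2 : ℤ) ^ ω) ^ 2 ∣ 2 ^ z' := by
      rw [← pow_mul]
      exact pow_dvd_pow 2 (by omega)
    have h2 : ((2 : ℤ) ^ ω) ^ 2 ∣ 2 ^ ω * M := by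
      rw [hsum] at h1
      exact (dvd_add_left (Dvd.intro _ rfl)).1 h1
    rw [sq] at h2
    have h3 : (2 : ℤ) ^ ω ∣ M := (mul_dvd_mul_iff_left hpω.ne').1 h2
    have h4 := Int.le_of_dvd hMpos h3
    linarith
  have hz'le : (2 : ℤ) ^ z' ≤ 2 ^ ω * M := by
    apply Int.le_of_dvd (mul_pos hpω hMpos)
    have h1 : (2 : ℤ) ^ z' ∣ (2 ^ ω) ^ 2 * (K1 * s ^ 2 + K2 * s'' ^ 2) := by
      apply Dvd.dvd.mul_right
      rw [← pow_mul]
      exact pow_dvd_pow 2 (by omega)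
    have h2 : (2 : ℤ) ^ z' ∣ 2 ^ ω * M + (2 ^ ω) ^ 2 * (K1 * s ^ 2 + K2 * s'' ^ 2) := by
      rw [← hsum]
    exact (dvd_add_left h1).1 h2
  -- step 6
  have ha3' : (a : ℤ) ^ 3 < 2 ^ z' := by
    have h1 : ((a ^ x' + b ^ y' : ℕ) : ℤ) = ((2 ^ z' : ℕ) : ℤ) := by rw [h']
    have h2 : a ^ 3 < a ^ x' + b ^ y' := by
      have hx0 : 0 < a ^ x' := pow_pos (by omega) _
      have hy0 : 0 < b ^ y' := pow_pos (by omega) _
      by_cases h3 : 3 ≤ x'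
      · have : a ^ 3 ≤ a ^ x' := Nat.pow_le_pow_right (by omega) h3
        omega
      · have h4 : 3 ≤ y' := by omega
        have h5 : a ^ 3 ≤ b ^ 3 := Nat.pow_le_pow_left hab.le 3
        have h6 : b ^ 3 ≤ b ^ y' := Nat.pow_le_pow_right (by omega) h4
        omega
    have h3 : ((a ^ 3 : ℕ) : ℤ) < ((a ^ x' + b ^ y' : ℕ) : ℤ) := by exact_mod_cast h2
    rw [h1] at h3
    push_cast at h3
    exact h3
  have ha3z : (3 : ℤ) ≤ a := by exact_mod_cast ha3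
  have hQ1' : (1 : ℤ) ≤ Q := by exact_mod_cast hQ1
  have hfin1 : (a : ℤ) ^ 3 < (a + 1) * Q := by
    have : (2 : ℤ) ^ ω * M ≤ (a + 1) * Q := mul_le_mul hωa hMQ hMpos.le (by positivity)
    linarith
  have hfin2 : 3 * (a : ℤ) ^ 2 < 4 * Q := fixc2_l5 ha3z hfin1 hQ1'
  have hfin3 : (b : ℤ) < (a + 1) * E := by
    have : (2 : ℤ) ^ ω * k ≤ (a + 1) * E := mul_le_mul hωa hkE' (by positivity) (by positivity)
    linarith
  exact fixc2_l7 ha3z (by positivity) hE1' hQE hfin2 hfin3 hEQ' hQ1'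

theorem fixc2_prop {a b x y z x' y' z' : ℕ} (ha : a % 2 = 1) (hb : b % 2 = 1) (ha3 : 3 ≤ a)
    (hb3 : 3 ≤ b) (hx : 1 ≤ x) (hy : 1 ≤ y) (hx' : 1 ≤ x') (hy' : 1 ≤ y')
    (h : a ^ x + b ^ y = 2 ^ z) (h' : a ^ x' + b ^ y' = 2 ^ z') (he : x * y' = x' * y) :
    x = x' ∧ y = y' ∧ z = z' := by
  have key : ∀ {x y z : ℕ}, 1 ≤ x → 1 ≤ y → a ^ x + b ^ y = 2 ^ z → Nat.Coprime x y := by
    intro x y z hx hy h
    obtain ⟨x0, hx0⟩ := Nat.gcd_dvd_left x y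
    obtain ⟨y0, hy0⟩ := Nat.gcd_dvd_right x y
    have hg : 1 ≤ Nat.gcd x y := Nat.gcd_pos_of_pos_left _ hx
    have hx00 : x0 ≠ 0 := by
      rintro rfl
      omega
    have hy00 : y0 ≠ 0 := by
      rintro rfl
      omega
    apply fixc2_one (A := a ^ x0) (B := b ^ y0) (z := z)
    · exact Nat.odd_iff.1 (Odd.pow (Nat.odd_iff.2 ha))
    · exact Nat.odd_iff.1 (Odd.pow (Nat.odd_iff.2 hb))
    · exact le_trans ha3 (Nat.le_self_pow hx00 a)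
    · exact le_trans hb3 (Nat.le_self_pow hy00 b)
    · exact hg
    · rw [← pow_mul, ← pow_mul, mul_comm x0, mul_comm y0, ← hx0, ← hy0]
      exact h
  have c1 := key hx hy h
  have c2 := key hx' hy' h'
  have d1 : x ∣ x' := c1.dvd_of_dvd_mul_right (Dvd.intro _ he)
  have d2 : x' ∣ x := c2.dvd_of_dvd_mul_right (Dvd.intro _ he.symm)
  have e1 : x = x' := Nat.dvd_antisymm d1 d2
  subst e1
  have e2 : y' = y := Nat.eq_of_mul_eq_mul_left (by omega) he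
  subst e2
  refine ⟨rfl, rfl, ?_⟩
  rw [h] at h'
  exact Nat.pow_right_injective (le_refl 2) h'

theorem fixc2_exp_large : ∃ T1 : ℝ, ∀ t : ℝ, T1 ≤ t → 8 * t ^ 20 ≤ Real.exp t := by
  have h := Real.tendsto_pow_mul_exp_neg_atTop_nhds_zero 20
  have h1 := h.eventually (gt_mem_nhds (show (0 : ℝ) < 1 / 8 by norm_num))
  obtain ⟨T1, hT1⟩ := Filter.eventually_atTop.1 h1
  refine ⟨T1, fun t ht => ?_⟩
  have h2 := hT1 t ht
  rw [Real.exp_neg] at h2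
  have h3 : 0 < Real.exp t := Real.exp_pos t
  rw [← div_eq_mul_inv, div_lt_div_iff₀ h3 (by norm_num)] at h2
  linarith

theorem fixc2 : ∃ T0 : ℝ, ∀ a b x y z x' y' z' : ℕ, a.Prime → b.Prime → a < b → a ≠ 2 →
    T0 ≤ Real.log b → 1 ≤ x → 1 ≤ y → 1 ≤ z → 1 ≤ x' → 1 ≤ y' → 1 ≤ z' →
    a ^ x + b ^ y = 2 ^ z → a ^ x' + b ^ y' = 2 ^ z' → x = x' ∧ y = y' ∧ z = z' := by
  obtain ⟨T0, hT0⟩ := ebc
  obtain ⟨T1, hT1⟩ := fixc2_exp_large
  refine ⟨max T0 (max T1 1), ?_⟩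
  intro a b x y z x' y' z' ha hb hab ha2 hT hx hy hz hx' hy' hz' h h'
  have ht0 : T0 ≤ Real.log b := le_trans (le_max_left _ _) hT
  have ht1 : T1 ≤ Real.log b := le_trans (le_trans (le_max_left _ _) (le_max_right _ _)) hT
  have ha3 : 3 ≤ a := by
    have := ha.two_le
    omega
  have hao : a % 2 = 1 := Nat.odd_iff.1 (ha.odd_of_ne_two ha2)
  have hbo : b % 2 = 1 := Nat.odd_iff.1 (hb.odd_of_ne_two (by omega))
  by_cases he : x * y' = x' * y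
  · exact fixc2_prop hao hbo ha3 (by omega) hx hy hx' hy' h h' he
  exfalso
  have hco : a.Coprime b := (Nat.coprime_primes ha hb).2 (by omega)
  have ha0 : (0 : ℝ) < a := by exact_mod_cast (by omega : 0 < a)
  have hb0 : (0 : ℝ) < b := by exact_mod_cast (by omega : 0 < b)
  have hlab : Real.log a ≤ Real.log b := Real.log_le_log ha0 (by exact_mod_cast hab.le)
  have hla1 : 1 ≤ Real.log a := by
    rw [Real.le_log_iff_exp_le ha0]
    have h1 := Real.exp_one_lt_d9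
    have h2 : (3 : ℝ) ≤ a := by exact_mod_cast ha3
    linarith
  have hlb1 : 1 ≤ Real.log b := le_trans hla1 hlab
  -- bounds for the exponents
  have hbd : ∀ {x y z : ℕ}, 1 ≤ x → 1 ≤ y → a ^ x + b ^ y = 2 ^ z →
      x ≤ ⌊Real.log b ^ 5⌋₊ ∧ y ≤ ⌊Real.log b ^ 5⌋₊ := by
    intro x y z hx hy h
    have hz5 := hT0 a b x y z hao hbo hco ha3 (by omega) hx hy h (Real.log b) ht0 hlab le_rfl
    have h1 : (x : ℝ) * Real.log a ≤ z * Real.log 2 := by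
      rw [← Real.log_pow, ← Real.log_pow]
      apply Real.log_le_log (by positivity)
      have : a ^ x ≤ 2 ^ z := by omega
      exact_mod_cast this
    have h2 : (y : ℝ) * Real.log b ≤ z * Real.log 2 := by
      rw [← Real.log_pow, ← Real.log_pow]
      apply Real.log_le_log (by positivity)
      have : b ^ y ≤ 2 ^ z := by omega
      exact_mod_cast this
    have h3 : (x : ℝ) ≤ x * Real.log a := le_mul_of_one_le_right (by positivity) hla1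
    have h4 : (y : ℝ) ≤ y * Real.log b := le_mul_of_one_le_right (by positivity) hlb1
    exact ⟨Nat.le_floor (by linarith), Nat.le_floor (by linarith)⟩
  obtain ⟨b1, b2⟩ := hbd hx hy h
  obtain ⟨b3, b4⟩ := hbd hx' hy' h'
  have hE : 8 * ⌊Real.log b ^ 5⌋₊ ^ 4 ≤ b := by
    have h1 : (⌊Real.log b ^ 5⌋₊ : ℝ) ≤ Real.log b ^ 5 := Nat.floor_le (by positivity)
    have h2 : (⌊Real.log b ^ 5⌋₊ : ℝ) ^ 4 ≤ (Real.log b ^ 5) ^ 4 :=
      pow_le_pow_left₀ (by positivity) h1 4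
    have h3 := hT1 (Real.log b) ht1
    rw [Real.exp_log hb0] at h3
    have h4 : (8 : ℝ) * (⌊Real.log b ^ 5⌋₊ : ℝ) ^ 4 ≤ b := by
      calc (8 : ℝ) * (⌊Real.log b ^ 5⌋₊ : ℝ) ^ 4 ≤ 8 * (Real.log b ^ 5) ^ 4 := by linarith
        _ = 8 * Real.log b ^ 20 := by ring
        _ ≤ b := h3
    exact_mod_cast h4
  rcases le_total z z' with hzz | hzz
  · exact fixc2_core hao ha3 hab hx hy hx' hy' b1 b2 b3 b4 hE hzz h h' he
  · exact fixc2_core hao ha3 hab hx' hy' hx hy b3 b4 b1 b2 hE hzz h' h (fun h1 => he h1.symm)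

end Pool.Agent.H91.CB
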