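import Pool.Agent.H91.CB.Exp
import Pool.Agent.H91.CB.Ord

/-!
JOB CB-13 (`2^x + p^y = 3^z`, `p` large, about 150-200 lines; uses the stubs `eb2`, `ord_three`, `ord_four`,
`prop_contra`).

`t = log p` large.  By `eb2` (`b = p`, `c = 3`) `z log 3 ≤ t^5`, so `z ≤ t^5`, `x ≤ 2 t^5`, `y ≤ t^5` (same for
the second solution).  `l = |x y' - x' y| ≤ 2 t^10`, `k = |z y' - z' y| ≤ t^10`.
(1) `(3^z - 2^x)^y' = p^(y y') = (3^z' - 2^x')^y`; modulo `3^(min z z')` and squared: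
`4^(x y') ≡ 4^(x' y)`; if `l ≠ 0` then `3^(min z z') ∣ 4^l - 1`, `3^(min z z') ≤ 3l ≤ 6 t^10 < p`, but `3^z > p`,
`3^z' > p`: contradiction.  So `x y' = x' y`.
(2) Modulo `2^(min x x')`: `3^(z y') ≡ 3^(z' y)`; if `k ≠ 0` then `2^(min x x') ≤ 4k ≤ 4 t^10`.
(3) If `y = y'`: `x = x'`, hence `3^z = 3^z'`, done.  Let `y < y'` (the other case is symmetric), so `x < x'`.
`k = 0`: `prop_contra` with `A = 2^x`, `B = p^y`, `A' = 2^x'`, `B' = p^y'`, `m = y`, `m' = y'`.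
`k ≠ 0`: `2^x ≤ 4 t^10`.  `0 < z log 3 - y t = log(1 + 2^x/p^y) ≤ 4 t^10/p`;
`(2^x'/p^y')^y = (2^x/p^y)^y'` and `2^x/p^y < 1`, so `2^x'/p^y' ≤ 2^x/p^y ≤ 4t^10/p` and
`0 < z' log 3 - y' t ≤ 4 t^10/p`.  So `|(z y' - z' y) log 3| ≤ t^5 * 4 t^10/p < log 3`, `k = 0`, contradiction.
-/

namespace Pool.Agent.H91.CB

theorem fq3_a {a b m : ℕ} (hab : a < b) (h : (4 : ℤ) ^ a ≡ 4 ^ b [ZMOD 3 ^ m]) :
    3 ^ m ≤ 3 * b := by
  have h1 : (3 : ℤ) ^ m ∣ 4 ^ b - 4 ^ a := h.dvd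
  have h2 : (4 : ℤ) ^ b - 4 ^ a = 4 ^ a * (4 ^ (b - a) - 1) := by
    rw [mul_sub, mul_one, ← pow_add]
    congr 2
    omega
  rw [h2] at h1
  have h3 : IsCoprime ((3 : ℤ) ^ m) (4 ^ a) := by
    apply IsCoprime.pow
    rw [Int.isCoprime_iff_gcd_eq_one]
    decide
  have h4 := h3.dvd_of_dvd_mul_left h1
  have h5 := ord_four (by omega : 1 ≤ b - a) h4
  omega

theorem fq3_b {a b m : ℕ} (hab : a < b) (h : (3 : ℤ) ^ a ≡ 3 ^ b [ZMOD 2 ^ m]) :
    2 ^ m ≤ 4 * b := by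
  have h1 : (2 : ℤ) ^ m ∣ 3 ^ b - 3 ^ a := h.dvd
  have h2 : (3 : ℤ) ^ b - 3 ^ a = 3 ^ a * (3 ^ (b - a) - 1) := by
    rw [mul_sub, mul_one, ← pow_add]
    congr 2
    omega
  rw [h2] at h1
  have h3 : IsCoprime ((2 : ℤ) ^ m) (3 ^ a) := by
    apply IsCoprime.pow
    rw [Int.isCoprime_iff_gcd_eq_one]
    decide
  have h4 := h3.dvd_of_dvd_mul_left h1
  have h5 := ord_three (by omega : 1 ≤ b - a) h4
  omega

theorem fq3_m3 {p x y z x' y' z' : ℕ} (e1 : 2 ^ x + p ^ y = 3 ^ z) (e2 : 2 ^ x' + p ^ y' = 3 ^ z') :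
    (4 : ℤ) ^ (x * y') ≡ 4 ^ (x' * y) [ZMOD 3 ^ (min z z')] := by
  have e1' : (2 : ℤ) ^ x + (p : ℤ) ^ y = 3 ^ z := by exact_mod_cast e1
  have e2' : (2 : ℤ) ^ x' + (p : ℤ) ^ y' = 3 ^ z' := by exact_mod_cast e2
  have h1 : (p : ℤ) ^ y ≡ -(2 ^ x) [ZMOD 3 ^ (min z z')] := by
    apply Int.ModEq.symm
    rw [Int.modEq_iff_dvd]
    have : (p : ℤ) ^ y - -(2 ^ x) = 3 ^ z := by rw [← e1']; ring
    rw [this]
    exact pow_dvd_pow 3 (min_le_left _ _)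
  have h2 : (p : ℤ) ^ y' ≡ -(2 ^ x') [ZMOD 3 ^ (min z z')] := by
    apply Int.ModEq.symm
    rw [Int.modEq_iff_dvd]
    have : (p : ℤ) ^ y' - -(2 ^ x') = 3 ^ z' := by rw [← e2']; ring
    rw [this]
    exact pow_dvd_pow 3 (min_le_right _ _)
  have h3 := (h1.pow y').pow 2
  have h4 := (h2.pow y).pow 2
  have h5 : (((p : ℤ) ^ y) ^ y') ^ 2 = (((p : ℤ) ^ y') ^ y) ^ 2 := by
    rw [pow_right_comm ((p : ℤ)) y y']
  have h6 : ∀ a b : ℕ, ((-(2 : ℤ) ^ a) ^ b) ^ 2 = 4 ^ (a * b) := by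
    intro a b
    rw [← pow_mul, mul_comm b 2, pow_mul, neg_sq, ← pow_mul, ← pow_mul]
    have h7 : a * (2 * b) = 2 * (a * b) := by ring
    rw [h7, pow_mul]
    norm_num
  rw [h6] at h3 h4
  rw [h5] at h3
  exact h3.symm.trans h4

theorem fq3_m2 {p x y z x' y' z' : ℕ} (e1 : 2 ^ x + p ^ y = 3 ^ z) (e2 : 2 ^ x' + p ^ y' = 3 ^ z') :
    (3 : ℤ) ^ (z * y') ≡ 3 ^ (z' * y) [ZMOD 2 ^ (min x x')] := by
  have e1' : (2 : ℤ) ^ x + (p : ℤ) ^ y = 3 ^ z := by exact_mod_cast e1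
  have e2' : (2 : ℤ) ^ x' + (p : ℤ) ^ y' = 3 ^ z' := by exact_mod_cast e2
  have h1 : (p : ℤ) ^ y ≡ 3 ^ z [ZMOD 2 ^ (min x x')] := by
    rw [Int.modEq_iff_dvd]
    have : (3 : ℤ) ^ z - (p : ℤ) ^ y = 2 ^ x := by rw [← e1']; ring
    rw [this]
    exact pow_dvd_pow 2 (min_le_left _ _)
  have h2 : (p : ℤ) ^ y' ≡ 3 ^ z' [ZMOD 2 ^ (min x x')] := by
    rw [Int.modEq_iff_dvd]
    have : (3 : ℤ) ^ z' - (p : ℤ) ^ y' = 2 ^ x' := by rw [← e2']; ring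
    rw [this]
    exact pow_dvd_pow 2 (min_le_right _ _)
  have h3 := h1.pow y'
  have h4 := h2.pow y
  have h5 : ((p : ℤ) ^ y) ^ y' = ((p : ℤ) ^ y') ^ y := by
    rw [← pow_mul, ← pow_mul, mul_comm y y']
  rw [← pow_mul (3 : ℤ) z y', h5] at h3
  rw [← pow_mul (3 : ℤ) z' y] at h4
  exact h3.symm.trans h4

theorem fq3_mul {a b : ℕ} {A B : ℝ} (ha : (a : ℝ) ≤ A) (hb : (b : ℝ) ≤ B) :
    ((a * b : ℕ) : ℝ) ≤ A * B := by
  push_cast
  exact mul_le_mul ha hb (Nat.cast_nonneg _) ((Nat.cast_nonneg _).trans ha)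

theorem fq3_core {p x y z x' y' z' : ℕ} {t : ℝ} (hp : 5 ≤ p) (ht : t = Real.log p) (h6 : 6 ≤ t)
    (h16 : t ^ 16 ≤ (p : ℝ)) (hy : 1 ≤ y)
    (e1 : 2 ^ x + p ^ y = 3 ^ z) (e2 : 2 ^ x' + p ^ y' = 3 ^ z')
    (by' : (y' : ℝ) ≤ t ^ 5) (hxy : x * y' = x' * y)
    (hk : z * y' ≠ z' * y → (2 : ℝ) ^ (min x x') ≤ 4 * t ^ 10) (hyy : y < y') : False := by
  have hp0 : (0 : ℝ) < p := by
    have : (5 : ℝ) ≤ p := by exact_mod_cast hp
    linarith
  have hp1 : (1 : ℝ) ≤ p := by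
    have : (5 : ℝ) ≤ p := by exact_mod_cast hp
    linarith
  have e1' : (2 : ℝ) ^ x + (p : ℝ) ^ y = 3 ^ z := by exact_mod_cast e1
  have e2' : (2 : ℝ) ^ x' + (p : ℝ) ^ y' = 3 ^ z' := by exact_mod_cast e2
  have hc1 : ((2 : ℝ) ^ x') ^ y = (2 ^ x) ^ y' := by
    rw [← pow_mul, ← pow_mul, hxy]
  have hc2 : ((p : ℝ) ^ y') ^ y = (p ^ y) ^ y' := by
    rw [← pow_mul, ← pow_mul, mul_comm]
  by_cases hzy : z * y' = z' * y
  · refine prop_contra (A := 2 ^ x) (B := (p : ℝ) ^ y) (A' := 2 ^ x') (B' := (p : ℝ) ^ y')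
      (m := y) (m' := y') (by positivity) (by positivity) (by positivity) (by positivity) hy hyy
      hc1 hc2 ?_
    rw [e1', e2', ← pow_mul, ← pow_mul, hzy]
  · have hk' := hk hzy
    have hxx : x ≤ x' := by
      by_contra hcon
      push Not at hcon
      have h1 : x' * y < x * y' := by nlinarith
      omega
    rw [min_eq_left hxx] at hk'
    obtain ⟨ε, hε⟩ : ∃ ε : ℝ, ε = 2 ^ x / (p : ℝ) ^ y := ⟨_, rfl⟩
    obtain ⟨ε', hε'⟩ : ∃ ε' : ℝ, ε' = 2 ^ x' / (p : ℝ) ^ y' := ⟨_, rfl⟩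
    have hε0 : 0 < ε := by
      rw [hε]
      positivity
    have hε0' : 0 < ε' := by
      rw [hε']
      positivity
    have hpy : (p : ℝ) ≤ (p : ℝ) ^ y := by
      calc (p : ℝ) = (p : ℝ) ^ 1 := (pow_one _).symm
        _ ≤ _ := pow_le_pow_right₀ hp1 hy
    have ht10 : (0 : ℝ) ≤ 4 * t ^ 10 := by positivity
    have hε1 : ε ≤ 4 * t ^ 10 / p := by
      rw [hε]
      calc (2 : ℝ) ^ x / (p : ℝ) ^ y ≤ 4 * t ^ 10 / (p : ℝ) ^ y := by gcongr
        _ ≤ 4 * t ^ 10 / p := by gcongr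
    have ht1 : (1 : ℝ) ≤ t := by linarith
    have hlt : 4 * t ^ 15 < (p : ℝ) := by
      have h1 : 4 * t ^ 15 < t ^ 16 := by
        have h2 : (0 : ℝ) < t ^ 15 := by positivity
        have h3 : t ^ 16 = t * t ^ 15 := by ring
        rw [h3]
        nlinarith
      linarith
    have hε2 : ε ≤ 1 := by
      refine hε1.trans ?_
      rw [div_le_one hp0]
      have h1 : t ^ 10 ≤ t ^ 15 := pow_le_pow_right₀ ht1 (by norm_num)
      linarith
    have hεε : ε' ≤ ε := by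
      have h1 : ε' ^ y = ε ^ y' := by
        rw [hε, hε', div_pow, div_pow, hc1, hc2]
      have h2 : ε ^ y' ≤ ε ^ y := pow_le_pow_of_le_one hε0.le hε2 hyy.le
      rw [← h1] at h2
      exact le_of_pow_le_pow_left₀ (by omega) hε0.le h2
    have key : ∀ (a b c : ℕ), (2 : ℝ) ^ a + (p : ℝ) ^ b = 3 ^ c →
        0 < c * Real.log 3 - b * t ∧ c * Real.log 3 - b * t ≤ 2 ^ a / (p : ℝ) ^ b := by
      intro a b c h
      have hb0 : (0 : ℝ) < (p : ℝ) ^ b := by positivity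
      have ha0 : (0 : ℝ) < (2 : ℝ) ^ a := by positivity
      have h1 : c * Real.log 3 - b * t = Real.log (1 + 2 ^ a / (p : ℝ) ^ b) := by
        have h2 : 1 + 2 ^ a / (p : ℝ) ^ b = 3 ^ c / (p : ℝ) ^ b := by
          rw [← h]
          field_simp
          ring
        rw [h2, Real.log_div (by positivity) hb0.ne', Real.log_pow, Real.log_pow, ht]
      have h3 : 0 < 2 ^ a / (p : ℝ) ^ b := by positivity
      rw [h1]
      refine ⟨Real.log_pos (by linarith), ?_⟩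
      have h4 := Real.log_le_sub_one_of_pos (show 0 < 1 + 2 ^ a / (p : ℝ) ^ b by linarith)
      linarith
    obtain ⟨k1, k2⟩ := key x y z e1'
    obtain ⟨k3, k4⟩ := key x' y' z' e2'
    rw [← hε] at k2
    rw [← hε'] at k4
    have hlog3 : (1 : ℝ) < Real.log 3 := by
      rw [Real.lt_log_iff_exp_lt (by norm_num)]
      linarith [Real.exp_one_lt_d9]
    obtain ⟨D, hD⟩ : ∃ D : ℤ, D = (z : ℤ) * y' - z' * y := ⟨_, rfl⟩
    have hD0 : D ≠ 0 := by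
      intro h
      apply hzy
      have h1 : (z : ℤ) * y' = z' * y := by linarith
      exact_mod_cast h1
    have hD1 : (1 : ℝ) ≤ |(D : ℝ)| := by
      have h1 : (1 : ℤ) ≤ |D| := Int.one_le_abs hD0
      exact_mod_cast h1
    have hDe : (D : ℝ) * Real.log 3 = y' * (z * Real.log 3 - y * t) -
        y * (z' * Real.log 3 - y' * t) := by
      rw [hD]
      push_cast
      ring
    have hyy' : (y : ℝ) ≤ y' := by exact_mod_cast hyy.le
    have hy'0 : (0 : ℝ) ≤ y' := Nat.cast_nonneg _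
    have hy0 : (0 : ℝ) ≤ y := Nat.cast_nonneg _
    have hyε : (y' : ℝ) * ε < 1 := by
      calc (y' : ℝ) * ε ≤ t ^ 5 * (4 * t ^ 10 / p) := by gcongr
        _ = 4 * t ^ 15 / p := by ring
        _ < 1 := by
            rw [div_lt_one hp0]
            exact hlt
    have hA : (y' : ℝ) * (z * Real.log 3 - y * t) ≤ y' * ε := by gcongr
    have hA0 : (0 : ℝ) ≤ (y' : ℝ) * (z * Real.log 3 - y * t) := by positivity
    have hB : (y : ℝ) * (z' * Real.log 3 - y' * t) ≤ y' * ε := by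
      calc (y : ℝ) * (z' * Real.log 3 - y' * t) ≤ y * ε' := by gcongr
        _ ≤ y' * ε := by gcongr
    have hB0 : (0 : ℝ) ≤ (y : ℝ) * (z' * Real.log 3 - y' * t) := by positivity
    have h9 : |(D : ℝ) * Real.log 3| < 1 := by
      rw [hDe, abs_lt]
      constructor <;> linarith
    rw [abs_mul, abs_of_pos (by linarith : (0 : ℝ) < Real.log 3)] at h9
    nlinarith

theorem fixq3 : ∃ T0 : ℝ, ∀ p x y z x' y' z' : ℕ, p.Prime → 5 ≤ p → T0 ≤ Real.log p →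
    1 ≤ x → 1 ≤ y → 1 ≤ z → 1 ≤ x' → 1 ≤ y' → 1 ≤ z' → 2 ^ x + p ^ y = 3 ^ z →
    2 ^ x' + p ^ y' = 3 ^ z' → x = x' ∧ y = y' ∧ z = z' := by
  obtain ⟨T1, hT1⟩ := eb2
  have h0 := (Real.tendsto_pow_mul_exp_neg_atTop_nhds_zero 16).eventually_le_const
    (show (0 : ℝ) < 1 by norm_num)
  rw [Filter.eventually_atTop] at h0
  obtain ⟨T2, hT2⟩ := h0
  refine ⟨max (max T1 T2) 6, fun p x y z x' y' z' hpp hp hT hx hy hz hx' hy' hz' e1 e2 => ?_⟩
  obtain ⟨t, ht⟩ : ∃ t, t = Real.log p := ⟨_, rfl⟩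
  rw [← ht] at hT
  have ht1 : T1 ≤ t := (le_max_left _ _).trans ((le_max_left _ _).trans hT)
  have ht2 : T2 ≤ t := (le_max_right _ _).trans ((le_max_left _ _).trans hT)
  have ht6 : 6 ≤ t := (le_max_right _ _).trans hT
  have hp0 : (0 : ℝ) < p := by
    have : (5 : ℝ) ≤ p := by exact_mod_cast hp
    linarith
  have h16 : t ^ 16 ≤ (p : ℝ) := by
    have h1 := hT2 t ht2
    rw [Real.exp_neg] at h1
    have h2 : Real.exp t = p := by
      rw [ht, Real.exp_log hp0]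
    rw [h2, ← div_eq_mul_inv, div_le_one hp0] at h1
    exact h1
  have hlog3 : (1 : ℝ) < Real.log 3 := by
    rw [Real.lt_log_iff_exp_lt (by norm_num)]
    linarith [Real.exp_one_lt_d9]
  have hlog3' : Real.log 3 ≤ t := by
    have h1 : Real.log 3 ≤ 3 - 1 := Real.log_le_sub_one_of_pos (by norm_num)
    linarith
  have hlog2 : (1 / 2 : ℝ) < Real.log 2 := by
    linarith [Real.log_two_gt_d9]
  have hodd : p % 2 = 1 := by
    rcases hpp.eq_two_or_odd with h | h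
    · omega
    · exact h
  have hcop : p.Coprime 3 := by
    rw [Nat.coprime_primes hpp Nat.prime_three]
    omega
  have hbd : ∀ a b c : ℕ, 1 ≤ b → 1 ≤ c → 2 ^ a + p ^ b = 3 ^ c →
      (a : ℝ) ≤ 2 * t ^ 5 ∧ (b : ℝ) ≤ t ^ 5 ∧ (c : ℝ) ≤ t ^ 5 := by
    intro a b c hb hc h
    have h1 := hT1 p 3 a b c hodd (by norm_num) hcop (by omega) (by norm_num) hb hc h t ht1
      ht.ge (by exact_mod_cast hlog3')
    have h1' : (c : ℝ) * Real.log 3 ≤ t ^ 5 := by exact_mod_cast h1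
    have h' : (2 : ℝ) ^ a + (p : ℝ) ^ b = 3 ^ c := by exact_mod_cast h
    have ha0 : (0 : ℝ) < (2 : ℝ) ^ a := by positivity
    have hb0 : (0 : ℝ) < (p : ℝ) ^ b := by positivity
    have h2 : (a : ℝ) * Real.log 2 ≤ c * Real.log 3 := by
      rw [← Real.log_pow, ← Real.log_pow]
      exact Real.log_le_log ha0 (by linarith)
    have h3 : (b : ℝ) * t ≤ c * Real.log 3 := by
      rw [ht, ← Real.log_pow, ← Real.log_pow]
      exact Real.log_le_log hb0 (by linarith)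
    have ha : (0 : ℝ) ≤ a := Nat.cast_nonneg _
    have hb' : (0 : ℝ) ≤ b := Nat.cast_nonneg _
    have hc' : (0 : ℝ) ≤ c := Nat.cast_nonneg _
    refine ⟨by nlinarith, by nlinarith, by nlinarith⟩
  obtain ⟨bx, by1, bz⟩ := hbd x y z hy hz e1
  obtain ⟨bx', by1', bz'⟩ := hbd x' y' z' hy' hz' e2
  have hpz : ∀ a b c : ℕ, 1 ≤ b → 2 ^ a + p ^ b = 3 ^ c → p < 3 ^ c := by
    intro a b c hb h
    have h1 : p ^ 1 ≤ p ^ b := Nat.pow_le_pow_right (by omega) hb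
    have h2 : 0 < 2 ^ a := by positivity
    rw [pow_one] at h1
    omega
  have hpm : (p : ℝ) < 3 ^ (min z z') := by
    rcases min_choice z z' with h | h
    · rw [h]
      exact_mod_cast hpz x y z hy e1
    · rw [h]
      exact_mod_cast hpz x' y' z' hy' e2
  have h610 : 6 * t ^ 10 < (p : ℝ) := by
    have ht1' : (1 : ℝ) ≤ t := by linarith
    have h1 : 6 * t ^ 10 ≤ t ^ 11 := by
      have h2 : (0 : ℝ) < t ^ 10 := by positivity
      have h3 : t ^ 11 = t * t ^ 10 := by ring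
      rw [h3]
      nlinarith
    have h2 : t ^ 11 < t ^ 16 := pow_lt_pow_right₀ (by linarith) (by norm_num)
    linarith
  have hl1 : ((x * y' : ℕ) : ℝ) ≤ 2 * t ^ 10 := (fq3_mul bx by1').trans (le_of_eq (by ring))
  have hl2 : ((x' * y : ℕ) : ℝ) ≤ 2 * t ^ 10 := (fq3_mul bx' by1).trans (le_of_eq (by ring))
  have hk1 : ((z * y' : ℕ) : ℝ) ≤ t ^ 10 := (fq3_mul bz by1').trans (le_of_eq (by ring))
  have hk2 : ((z' * y : ℕ) : ℝ) ≤ t ^ 10 := (fq3_mul bz' by1).trans (le_of_eq (by ring))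
  have hm3 := fq3_m3 e1 e2
  have hm2 := fq3_m2 e1 e2
  have hxy : x * y' = x' * y := by
    by_contra hne
    rcases lt_or_gt_of_ne hne with h | h
    · have h1 := fq3_a h hm3
      have h2 : (3 : ℝ) ^ (min z z') ≤ 3 * ((x' * y : ℕ) : ℝ) := by exact_mod_cast h1
      linarith
    · have h1 := fq3_a h hm3.symm
      have h2 : (3 : ℝ) ^ (min z z') ≤ 3 * ((x * y' : ℕ) : ℝ) := by exact_mod_cast h1
      linarith
  have hk : z * y' ≠ z' * y → (2 : ℝ) ^ (min x x') ≤ 4 * t ^ 10 := by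
    intro hne
    rcases lt_or_gt_of_ne hne with h | h
    · have h1 := fq3_b h hm2
      have h2 : (2 : ℝ) ^ (min x x') ≤ 4 * ((z' * y : ℕ) : ℝ) := by exact_mod_cast h1
      linarith
    · have h1 := fq3_b h hm2.symm
      have h2 : (2 : ℝ) ^ (min x x') ≤ 4 * ((z * y' : ℕ) : ℝ) := by exact_mod_cast h1
      linarith
  rcases lt_trichotomy y y' with h | h | h
  · exact (fq3_core hp ht ht6 h16 hy e1 e2 by1' hxy hk h).elim
  · subst h
    have h1 : x = x' := Nat.eq_of_mul_eq_mul_right (by omega) hxy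
    subst h1
    refine ⟨rfl, rfl, ?_⟩
    rw [e1] at e2
    exact Nat.pow_right_injective (by norm_num) e2
  · refine (fq3_core hp ht ht6 h16 hy' e2 e1 by1 hxy.symm (fun hne => ?_) h).elim
    rw [min_comm]
    exact hk (fun h => hne h.symm)

end Pool.Agent.H91.CB
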