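import Mathlib

/-!
JOB CB-06 (choice of the order `m` and a size lemma, about 80-120 lines; independent).

`sel`.  `log B > 0`, `log p > log B`, so `h` gives `(log B)² ≥ 7 log B log K`, `log B ≥ 7 log K`, in particular
`B ≥ K^7`.  Let `m` be the least number with `2 K^m p < B^(m+1)` (it exists since `B > K`).  `m ≥ 1` because
`2 p < B` is false.  Minimality: `B^m ≤ 2 K^(m-1) p ≤ 2 K^m p`.  Logarithms of the first inequality:
`m log B ≤ log 2 + (m-1) log K + log p`, so `m (log B - log K) ≤ log p` (`K ≥ 2`), and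
`log K ≤ (log B)/7` gives `m ≤ (7/6) log p/log B`.
Then `log 4 + 3 m log K ≤ log 4 + (7/2) log p log K / log B ≤ log 4 + (log B)/2 < log B`
(`log B ≥ 7 log 8 > 2 log 4`), i.e. `4 K^(3m) < B`.

`two_pow_ge`: `2^c = q^z - p^d`, `p^d ≤ p^(n-1) ≤ q^z/p ≤ q^z/2`, so `2 * 2^c ≥ q^z ≥ p^n ≥ p²`.
-/

namespace Pool.Agent.H91.CB

theorem sel_ex {B p K : ℕ} (hK : 1 ≤ K) (hB : 8 * K ≤ B) :
    ∃ m, 2 * K ^ m * p < B ^ (m + 1) := by
  refine ⟨p, ?_⟩
  have h1 : (8 * K) ^ p ≤ B ^ p := Nat.pow_le_pow_left hB p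
  have h2 : p < 2 ^ p := Nat.lt_two_pow_self
  have h3 : 2 ^ p ≤ 8 ^ p := Nat.pow_le_pow_left (by norm_num) p
  have h4 : 0 < K ^ p := by positivity
  calc 2 * K ^ p * p = 2 * p * K ^ p := by ring
    _ < 8 * 8 ^ p * K ^ p := by
        apply Nat.mul_lt_mul_of_pos_right _ h4
        omega
    _ = 8 * (8 * K) ^ p := by
        rw [mul_pow]
        ring
    _ ≤ B * B ^ p := Nat.mul_le_mul (by omega) h1
    _ = B ^ (p + 1) := by
        rw [pow_succ]
        ring

theorem sel {B p K : ℕ} (hK : 8 ≤ K) (hB2 : 2 ≤ B) (hB : B < p)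
    (h : 7 * Real.log p * Real.log K ≤ (Real.log B) ^ 2) :
    ∃ m, 1 ≤ m ∧ 2 * K ^ m * p < B ^ (m + 1) ∧ 4 * K ^ (3 * m) < B ∧ B ^ m ≤ 2 * K ^ m * p := by
  have hKr : (8 : ℝ) ≤ K := by exact_mod_cast hK
  have hBr : (2 : ℝ) ≤ B := by exact_mod_cast hB2
  have hBpr : (B : ℝ) < p := by exact_mod_cast hB
  have hK0 : (0 : ℝ) < K := by linarith
  have hB0 : (0 : ℝ) < B := by linarith
  have hp0 : (0 : ℝ) < p := by linarith
  have hl2 : 0 < Real.log 2 := Real.log_pos (by norm_num)
  have hb : 0 < Real.log B := Real.log_pos (by linarith)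
  have hbP : Real.log B < Real.log p := Real.log_lt_log hB0 hBpr
  have hk : 3 * Real.log 2 ≤ Real.log K := by
    have h1 : Real.log 8 = 3 * Real.log 2 := by
      rw [show (8 : ℝ) = 2 ^ 3 by norm_num, Real.log_pow]
      norm_num
    rw [← h1]
    exact Real.log_le_log (by norm_num) hKr
  have hk0 : 0 < Real.log K := by linarith
  have h7 : 7 * Real.log K ≤ Real.log B := by
    have h1 : 7 * Real.log B * Real.log K ≤ Real.log B ^ 2 := by
      refine le_trans ?_ h
      apply mul_le_mul_of_nonneg_right _ hk0.le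
      linarith
    by_contra hcon
    rw [not_le] at hcon
    have h2 : Real.log B * Real.log B < Real.log B * (7 * Real.log K) :=
      mul_lt_mul_of_pos_left hcon hb
    nlinarith
  have h8B : 8 * K ≤ B := by
    have h1 : Real.log (8 * K) ≤ Real.log B := by
      rw [Real.log_mul (by norm_num) hK0.ne']
      have h2 : Real.log 8 = 3 * Real.log 2 := by
        rw [show (8 : ℝ) = 2 ^ 3 by norm_num, Real.log_pow]
        norm_num
      rw [h2]
      linarith
    have h2 : (8 * K : ℝ) ≤ B := (Real.log_le_log_iff (by positivity) hB0).1 h1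
    exact_mod_cast h2
  have hex := sel_ex (p := p) (by omega : 1 ≤ K) h8B
  classical
  have hm := Nat.find_spec hex
  have hmin : ∀ k < Nat.find hex, ¬ 2 * K ^ k * p < B ^ (k + 1) := fun k hk => Nat.find_min hex hk
  generalize Nat.find hex = m at hm hmin
  have hm1 : 1 ≤ m := by
    by_contra hcon
    have h1 : m = 0 := by omega
    subst h1
    simp only [pow_zero, mul_one, zero_add, pow_one] at hm
    omega
  have hle : B ^ m ≤ 2 * K ^ (m - 1) * p := by
    have h1 := hmin (m - 1) (by omega)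
    rw [not_lt, show m - 1 + 1 = m by omega] at h1
    exact h1
  refine ⟨m, hm1, hm, ?_, ?_⟩
  · have hler : (B : ℝ) ^ m ≤ 2 * (K : ℝ) ^ (m - 1) * p := by exact_mod_cast hle
    have h1 : (m : ℝ) * Real.log B ≤ Real.log 2 + ((m : ℝ) - 1) * Real.log K + Real.log p := by
      have h2 := Real.log_le_log (by positivity) hler
      rw [Real.log_pow, Real.log_mul (by positivity) hp0.ne',
        Real.log_mul (by norm_num) (by positivity), Real.log_pow, Nat.cast_sub hm1,
        Nat.cast_one] at h2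
      exact h2
    have hmr : (1 : ℝ) ≤ m := by exact_mod_cast hm1
    have h3 : (m : ℝ) * (Real.log B - Real.log K) ≤ Real.log p := by nlinarith
    have h4 : (m : ℝ) * (6 / 7 * Real.log B) ≤ Real.log p := by
      refine le_trans ?_ h3
      apply mul_le_mul_of_nonneg_left _ (by linarith)
      linarith
    have h5 : 3 * (m : ℝ) * Real.log K ≤ Real.log B / 2 := by
      by_contra hcon
      rw [not_le] at hcon
      have h6 : Real.log B * (Real.log B / 2) < Real.log B * (3 * (m : ℝ) * Real.log K) :=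
        mul_lt_mul_of_pos_left hcon hb
      have h7' : (m : ℝ) * (6 / 7 * Real.log B) * Real.log K ≤ Real.log p * Real.log K :=
        mul_le_mul_of_nonneg_right h4 hk0.le
      nlinarith
    have h6 : Real.log (4 * (K : ℝ) ^ (3 * m)) < Real.log B := by
      rw [Real.log_mul (by norm_num) (by positivity), Real.log_pow]
      have h8 : Real.log 4 = 2 * Real.log 2 := by
        rw [show (4 : ℝ) = 2 ^ 2 by norm_num, Real.log_pow]
        norm_num
      rw [h8]
      push_cast
      linarith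
    have h9 : (4 * (K : ℝ) ^ (3 * m)) < B := (Real.log_lt_log_iff (by positivity) hB0).1 h6
    exact_mod_cast h9
  · refine hle.trans ?_
    apply Nat.mul_le_mul_right
    apply Nat.mul_le_mul_left
    exact Nat.pow_le_pow_right (by omega) (by omega)

theorem two_pow_ge {p q i j z d r c n : ℕ} (hp : 2 ≤ p) (hj : 1 ≤ j) (hz : 1 ≤ z)
    (hn : n = 2 * j * z) (hr : d + r = n) (hr1 : 1 ≤ r) (hq : q = 4 ^ i + p ^ (2 * j))
    (h : 2 ^ c + p ^ d = q ^ z) : p ^ 2 ≤ 2 * 2 ^ c := by
  have h1 : p ^ n ≤ q ^ z := by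
    rw [hn, pow_mul]
    apply Nat.pow_le_pow_left
    rw [hq]
    exact Nat.le_add_left _ _
  have h2 : 2 * p ^ d ≤ p ^ n := by
    calc 2 * p ^ d ≤ p * p ^ d := Nat.mul_le_mul_right _ hp
      _ = p ^ (d + 1) := by
          rw [pow_succ]
          ring
      _ ≤ p ^ n := Nat.pow_le_pow_right (by omega) (by omega)
  have h3 : p ^ 2 ≤ p ^ n := by
    apply Nat.pow_le_pow_right (by omega)
    rw [hn]
    nlinarith
  omega

end Pool.Agent.H91.CB
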