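import Mathlib

/-!
JOB CB-01 (sign of the Taylor coefficients, about 70-110 lines; independent).  Idea of helper16.

Work in `ℤ⟦X⟧`.  `u = 1 - Y` (constant coefficient `0`), `g = Y⁻¹` (`PowerSeries.invOfUnit`, constant coefficient
`1`), so `g = 1 + u g` and `g_k = ∑_{1 ≤ l ≤ k} u_l g_{k-l}` for `k ≥ 1`.  `Y' = -u'`, so the hypothesis says
`X^m ∣ -u' (r Y^a - e κ X) + ζ κ Y`; multiply by `g^a` (`a ≥ 1`):
`r u' ≡ ζ κ g^(a-1) + e κ X g^a u'  (mod X^m)`.
Claim: `u_k ≥ 0` for all `k ≤ m` (then `Y_k = -u_k ≤ 0` for `1 ≤ k ≤ m`).  Strong induction: let `k < m` and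
`u_0, ..., u_k ≥ 0`.  Then `g_0, ..., g_k ≥ 0`, so all coefficients up to `k` of `g^(a-1)`, `g^a` are `≥ 0`
(products), the coefficients up to `k-1` of `u'` are `(l+1) u_(l+1) ≥ 0`, and comparing the coefficients of
`X^k`: `r (k+1) u_(k+1) = ζ κ [g^(a-1)]_k + e κ [g^a u']_(k-1) ≥ 0` (second term absent for `k = 0`); `r ≥ 1`.
-/

namespace Pool.Agent.H91.CB

open Polynomial

/-- coefficients of the inverse -/
theorem pos_aux_g (Y : ℤ[X]) (hY0 : Y.coeff 0 = 1) (g : PowerSeries ℤ)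
    (hg : (Y : PowerSeries ℤ) * g = 1) {k : ℕ} (hk : ∀ j, 1 ≤ j → j ≤ k → Y.coeff j ≤ 0) :
    ∀ j, j ≤ k → 0 ≤ PowerSeries.coeff j g := by
  intro j
  induction j using Nat.strong_induction_on with
  | _ j ih =>
    intro hj
    have h1 := congrArg (PowerSeries.coeff j) hg
    rw [PowerSeries.coeff_mul, PowerSeries.coeff_one] at h1
    have h2 : (0, j) ∈ Finset.HasAntidiagonal.antidiagonal j := by simp
    rw [← Finset.add_sum_erase _ _ h2] at h1
    simp only [Polynomial.coeff_coe, hY0, one_mul] at h1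
    have h3 : ∑ x ∈ (Finset.HasAntidiagonal.antidiagonal j).erase (0, j),
        Y.coeff x.1 * PowerSeries.coeff x.2 g ≤ 0 := by
      refine Finset.sum_nonpos fun x hx => ?_
      rw [Finset.mem_erase, Finset.HasAntidiagonal.mem_antidiagonal] at hx
      have hx1 : 1 ≤ x.1 := by
        by_contra hc
        have h0 : x.1 = 0 := by omega
        have h00 : x.2 = j := by omega
        exact hx.1 (Prod.ext h0 h00)
      exact mul_nonpos_of_nonpos_of_nonneg (hk x.1 hx1 (by omega)) (ih x.2 (by omega) (by omega))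
    have h4 : (0 : ℤ) ≤ if j = 0 then 1 else 0 := by split_ifs <;> norm_num
    linarith

/-- coefficients of powers -/
theorem pos_aux_pow (g : PowerSeries ℤ) {k : ℕ} (hk : ∀ j, j ≤ k → 0 ≤ PowerSeries.coeff j g)
    (b : ℕ) : ∀ j, j ≤ k → 0 ≤ PowerSeries.coeff j (g ^ b) := by
  induction b with
  | zero =>
    intro j _
    rw [pow_zero, PowerSeries.coeff_one]
    split_ifs <;> norm_num
  | succ b ih =>
    intro j hj
    rw [pow_succ, PowerSeries.coeff_mul]
    refine Finset.sum_nonneg fun x hx => ?_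
    rw [Finset.HasAntidiagonal.mem_antidiagonal] at hx
    exact mul_nonneg (ih x.1 (by omega)) (hk x.2 (by omega))

theorem pos_lemma {a r e ζ κ m : ℕ} (hr : 1 ≤ r) (ha : 1 ≤ a) (Y : ℤ[X]) (hY0 : Y.coeff 0 = 1)
    (h : X ^ m ∣ derivative Y * (C (r : ℤ) * Y ^ a - C ((e * κ : ℕ) : ℤ) * X) +
      C ((ζ * κ : ℕ) : ℤ) * Y) {k : ℕ} (hk : 1 ≤ k) (hkm : k ≤ m) : Y.coeff k ≤ 0 := by
  obtain ⟨g, hg⟩ : ∃ g : PowerSeries ℤ, (Y : PowerSeries ℤ) * g = 1 :=
    ⟨PowerSeries.invOfUnit (Y : PowerSeries ℤ) 1, PowerSeries.mul_invOfUnit _ _ (by simp [hY0])⟩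
  set D : PowerSeries ℤ := ((derivative Y : ℤ[X]) : PowerSeries ℤ) with hD
  have hdvd : (PowerSeries.X : PowerSeries ℤ) ^ m ∣
      D * (PowerSeries.C (r : ℤ) * (Y : PowerSeries ℤ) ^ a -
        PowerSeries.C ((e * κ : ℕ) : ℤ) * PowerSeries.X) +
      PowerSeries.C ((ζ * κ : ℕ) : ℤ) * (Y : PowerSeries ℤ) := by
    have h' := map_dvd (Polynomial.coeToPowerSeries.ringHom (R := ℤ)) h
    simpa only [map_add, map_mul, map_sub, map_pow, Polynomial.coeToPowerSeries.ringHom_apply,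
      Polynomial.coe_X, Polynomial.coe_C, ← hD] using h'
  have hga : (Y : PowerSeries ℤ) ^ a * g ^ a = 1 := by rw [← mul_pow, hg, one_pow]
  have hga1 : (Y : PowerSeries ℤ) * g ^ a = g ^ (a - 1) := by
    obtain ⟨b, rfl⟩ : ∃ b, a = b + 1 := ⟨a - 1, by omega⟩
    rw [Nat.add_sub_cancel, pow_succ, ← mul_assoc, mul_comm (Y : PowerSeries ℤ) (g ^ b), mul_assoc,
      hg, mul_one]
  have hdvd2 : (PowerSeries.X : PowerSeries ℤ) ^ m ∣
      PowerSeries.C (r : ℤ) * D - PowerSeries.C ((e * κ : ℕ) : ℤ) * (PowerSeries.X * (D * g ^ a)) +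
      PowerSeries.C ((ζ * κ : ℕ) : ℤ) * g ^ (a - 1) := by
    have h2 := Dvd.dvd.mul_right hdvd (g ^ a)
    have h3 : (D * (PowerSeries.C (r : ℤ) * (Y : PowerSeries ℤ) ^ a -
        PowerSeries.C ((e * κ : ℕ) : ℤ) * PowerSeries.X) +
        PowerSeries.C ((ζ * κ : ℕ) : ℤ) * (Y : PowerSeries ℤ)) * g ^ a =
        PowerSeries.C (r : ℤ) * D * ((Y : PowerSeries ℤ) ^ a * g ^ a) -
        PowerSeries.C ((e * κ : ℕ) : ℤ) * (PowerSeries.X * (D * g ^ a)) +
        PowerSeries.C ((ζ * κ : ℕ) : ℤ) * ((Y : PowerSeries ℤ) * g ^ a) := by ring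
    rw [h3, hga, hga1, mul_one] at h2
    exact h2
  rw [PowerSeries.X_pow_dvd_iff] at hdvd2
  have key : ∀ k, 1 ≤ k → k ≤ m → Y.coeff k ≤ 0 := by
    intro k
    induction k using Nat.strong_induction_on with
    | _ k ih =>
      intro hk hkm
      obtain ⟨l, rfl⟩ : ∃ l, k = l + 1 := ⟨k - 1, by omega⟩
      have hlow : ∀ j, 1 ≤ j → j ≤ l → Y.coeff j ≤ 0 := fun j h1 h2 =>
        ih j (by omega) h1 (by omega)
      have hgc := pos_aux_g Y hY0 g hg hlow
      have h1 := hdvd2 l (by omega)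
      rw [map_add, map_sub, PowerSeries.coeff_C_mul, PowerSeries.coeff_C_mul,
        PowerSeries.coeff_C_mul, hD, Polynomial.coeff_coe, Polynomial.coeff_derivative] at h1
      have h2 : 0 ≤ PowerSeries.coeff l (g ^ (a - 1)) := pos_aux_pow g hgc _ l le_rfl
      have h3 : PowerSeries.coeff l (PowerSeries.X * (((derivative Y : ℤ[X]) : PowerSeries ℤ) *
          g ^ a)) ≤ 0 := by
        rcases l with _ | l
        · rw [PowerSeries.coeff_zero_X_mul]
        · rw [PowerSeries.coeff_succ_X_mul, PowerSeries.coeff_mul]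
          refine Finset.sum_nonpos fun x hx => ?_
          rw [Finset.HasAntidiagonal.mem_antidiagonal] at hx
          rw [Polynomial.coeff_coe, Polynomial.coeff_derivative]
          refine mul_nonpos_of_nonpos_of_nonneg ?_ (pos_aux_pow g hgc a x.2 (by omega))
          refine mul_nonpos_of_nonpos_of_nonneg (hlow (x.1 + 1) (by omega) (by omega)) ?_
          positivity
      have h4 : (0 : ℤ) ≤ ((e * κ : ℕ) : ℤ) := Int.natCast_nonneg _
      have h5 : (0 : ℤ) ≤ ((ζ * κ : ℕ) : ℤ) := Int.natCast_nonneg _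
      have h6 := mul_nonneg h5 h2
      have h7 := mul_nonpos_of_nonneg_of_nonpos h4 h3
      have h8 : (0 : ℤ) < (r : ℤ) * ((l : ℤ) + 1) := by positivity
      have h9 : ((r : ℤ) * ((l : ℤ) + 1)) * Y.coeff (l + 1) ≤ 0 := by linarith
      by_contra hc
      have := mul_pos h8 (not_le.1 hc)
      linarith
  exact key k hk hkm

end Pool.Agent.H91.CB
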