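import Mathlib

/-!
JOB CB-03 (2-adic uniqueness for the trinomial equation, about 80-120 lines; adapt the finished file
`Pool/Agent/H91/CA/TayB.lean`).

If `M = 0` there is nothing to prove.  Let `ρ` be an integer with `s ρ ≡ 1 (mod 2^M)` (`s` is odd);
`X0 = 2^c ρ²`, `Y0 = 1 + s * y(X0)`.  `y(0) = 0`, `X0` even (`c ≥ 1`), so `Y0` is odd.
Evaluating `hX` at `X0`: `X0^(m+1)` divides `Y0^d - Y0^N + s² X0`, and `2^M ∣ 2^(c(m+1)) ∣ X0^(m+1)`;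
`s² X0 ≡ 2^c (mod 2^M)`, so `Y0^d - Y0^N + 2^c ≡ 0 (mod 2^M)`, and `p^d - p^N + 2^c ≡ 0` by `h`.  So
`2^M ∣ (p - Y0) (s1 - s2)` with `s1 = ∑_{a<d} p^a Y0^(d-1-a)` odd (`d` odd terms, `d` odd),
`s2 = ∑_{a<N} p^a Y0^(N-1-a)` even (`N` even).  Hence `2^M ∣ p - Y0`, and modulo `2^M`
`s^(2m) p ≡ s^(2m) Y0 = s^(2m) + s ∑_{k ≤ m} y_k 2^(ck) ρ^(2k) s^(2m)`, `ρ^(2k) s^(2m) ≡ s^(2(m-k))`.
-/

namespace Pool.Agent.H91.CB

open Polynomial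

theorem tayH_sum_cast {x y : ℤ} (hx : ((x : ℤ) : ZMod 2) = 1) (hy : ((y : ℤ) : ZMod 2) = 1)
    (n : ℕ) : ((∑ a ∈ Finset.range n, x ^ a * y ^ (n - 1 - a) : ℤ) : ZMod 2) = n := by
  push_cast
  rw [hx, hy]
  simp

theorem tay_mod2 {p c N s d m M : ℕ} (hc : 1 ≤ c) (hd : d % 2 = 1) (hN : N % 2 = 0)
    (hs : s % 2 = 1) (hp : p % 2 = 1)
    (h : (2 : ℤ) ^ M ∣ (p : ℤ) ^ d - (p : ℤ) ^ N + 2 ^ c) (hMm : M ≤ c * (m + 1))
    (y : ℤ[X]) (hdeg : y.natDegree ≤ m) (hy0 : y.coeff 0 = 0)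
    (hX : X ^ (m + 1) ∣ (1 + C (s : ℤ) * y) ^ d - (1 + C (s : ℤ) * y) ^ N +
      C ((s : ℤ) ^ 2) * X) :
    (2 : ℤ) ^ M ∣ (s : ℤ) ^ (2 * m) * p - ((s : ℤ) ^ (2 * m) +
      s * ∑ k ∈ Finset.range (m + 1), y.coeff k * 2 ^ (c * k) * (s : ℤ) ^ (2 * (m - k))) := by
  have hodd : Odd (s : ℤ) := by
    exact_mod_cast Nat.odd_iff.2 hs
  have hcop : IsCoprime (s : ℤ) ((2 : ℤ) ^ M) :=
    IsCoprime.pow_right (Int.isCoprime_iff_gcd_eq_one.2 (by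
      rw [← Int.isCoprime_iff_gcd_eq_one]
      obtain ⟨k, hk⟩ := hodd
      exact ⟨1, -k, by rw [hk]; ring⟩))
  obtain ⟨ρ, v, hρ⟩ := hcop
  set X0 : ℤ := 2 ^ c * ρ ^ 2 with hX0
  set Y0 : ℤ := 1 + s * y.eval X0 with hY0
  have hcast : ∀ a : ℤ, ((a : ℤ) : ZMod (2 ^ M)) = 0 ↔ (2 : ℤ) ^ M ∣ a := by
    intro a
    rw [ZMod.intCast_zmod_eq_zero_iff_dvd]
    push_cast
    rfl
  have h2M : (2 : ZMod (2 ^ M)) ^ M = 0 := by
    have := (hcast ((2 : ℤ) ^ M)).2 dvd_rfl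
    push_cast at this
    exact this
  have hrρ : (s : ZMod (2 ^ M)) * (ρ : ZMod (2 ^ M)) = 1 := by
    have h1 := congrArg (fun a : ℤ => (a : ZMod (2 ^ M))) hρ
    push_cast at h1
    rw [h2M, mul_zero, add_zero] at h1
    rw [mul_comm]
    exact h1
  -- parity of Y0
  have hXy : X ∣ y := Polynomial.X_dvd_iff.2 hy0
  obtain ⟨y', hy'⟩ := hXy
  have h20 : (2 : ZMod 2) = 0 := by decide
  have hX0even : ((X0 : ℤ) : ZMod 2) = 0 := by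
    rw [hX0]
    push_cast
    rw [h20, zero_pow (by omega), zero_mul]
  have hY0odd : ((Y0 : ℤ) : ZMod 2) = 1 := by
    rw [hY0, hy', Polynomial.eval_mul, Polynomial.eval_X]
    push_cast
    rw [hX0even]
    ring
  have hpodd : (((p : ℤ) : ℤ) : ZMod 2) = 1 := by
    obtain ⟨k, hk⟩ := Nat.odd_iff.2 hp
    rw [hk]
    push_cast
    rw [h20]
    ring
  -- evaluation of the divisibility
  have hev : X0 ^ (m + 1) ∣ Y0 ^ d - Y0 ^ N + (s : ℤ) ^ 2 * X0 := by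
    have h1 := Polynomial.eval_dvd (x := X0) hX
    simpa [hY0] using h1
  have hX0pow : (2 : ℤ) ^ M ∣ X0 ^ (m + 1) := by
    have h1 : X0 ^ (m + 1) = 2 ^ (c * (m + 1)) * ρ ^ (2 * (m + 1)) := by
      rw [hX0, mul_pow, ← pow_mul, ← pow_mul]
    rw [h1]
    exact dvd_mul_of_dvd_left (pow_dvd_pow _ hMm) _
  have hX0R : (s : ZMod (2 ^ M)) ^ 2 * (X0 : ZMod (2 ^ M)) = 2 ^ c := by
    rw [hX0]
    push_cast
    calc (s : ZMod (2 ^ M)) ^ 2 * (2 ^ c * (ρ : ZMod (2 ^ M)) ^ 2)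
        = 2 ^ c * ((s : ZMod (2 ^ M)) * ρ) ^ 2 := by ring
      _ = 2 ^ c := by rw [hrρ, one_pow, mul_one]
  have hE1 : (Y0 : ZMod (2 ^ M)) ^ d - (Y0 : ZMod (2 ^ M)) ^ N + 2 ^ c = 0 := by
    have h1 := (hcast _).2 (hX0pow.trans hev)
    push_cast at h1
    rw [hX0R] at h1
    exact h1
  have hE2 : (p : ZMod (2 ^ M)) ^ d - (p : ZMod (2 ^ M)) ^ N + 2 ^ c = 0 := by
    have h1 := (hcast _).2 h
    push_cast at h1
    exact h1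
  -- the quotient
  have hs1 := geom_sum₂_mul (p : ℤ) Y0 N
  have hs3 := geom_sum₂_mul (p : ℤ) Y0 d
  set s1 := ∑ a ∈ Finset.range N, (p : ℤ) ^ a * Y0 ^ (N - 1 - a) with hs1d
  set s3 := ∑ a ∈ Finset.range d, (p : ℤ) ^ a * Y0 ^ (d - 1 - a) with hs3d
  have hs1c : ((s1 : ℤ) : ZMod 2) = 0 := by
    rw [hs1d, tayH_sum_cast hpodd hY0odd]
    obtain ⟨k, hk⟩ := Nat.dvd_of_mod_eq_zero hN
    rw [hk]
    push_cast
    rw [h20, zero_mul]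
  have hs3c : ((s3 : ℤ) : ZMod 2) = 1 := by
    rw [hs3d, tayH_sum_cast hpodd hY0odd]
    obtain ⟨k, hk⟩ := Nat.odd_iff.2 hd
    rw [hk]
    push_cast
    rw [h20]
    ring
  have hprod : (2 : ℤ) ^ M ∣ (p - Y0) * (s3 - s1) := by
    rw [← hcast]
    have h1 : ((p : ℤ) - Y0) * (s3 - s1)
        = ((p : ℤ) ^ d - (p : ℤ) ^ N + 2 ^ c) - (Y0 ^ d - Y0 ^ N + 2 ^ c) := by
      linear_combination hs3 - hs1
    rw [h1]
    push_cast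
    rw [hE1, hE2, sub_self]
  have hcop2 : IsCoprime ((2 : ℤ) ^ M) (s3 - s1) := by
    refine IsCoprime.pow_left ?_
    rw [Int.prime_two.coprime_iff_not_dvd]
    intro hdvd
    have h1 : ((s3 - s1 : ℤ) : ZMod 2) = 0 :=
      (ZMod.intCast_zmod_eq_zero_iff_dvd _ 2).2 (by exact_mod_cast hdvd)
    push_cast at h1
    rw [hs1c, hs3c] at h1
    revert h1
    decide
  have hpY : (2 : ℤ) ^ M ∣ p - Y0 := hcop2.dvd_of_dvd_mul_right hprod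
  have hpYR : (p : ZMod (2 ^ M)) = (Y0 : ZMod (2 ^ M)) := by
    have h1 := (hcast _).2 hpY
    push_cast at h1
    exact sub_eq_zero.1 h1
  rw [← hcast]
  push_cast
  rw [hpYR, hY0, Polynomial.eval_eq_sum_range' (Nat.lt_succ_of_le hdeg)]
  push_cast
  rw [mul_add, mul_one, add_sub_add_left_eq_sub, sub_eq_zero, Finset.mul_sum, Finset.mul_sum,
    Finset.mul_sum]
  refine Finset.sum_congr rfl fun k hk => ?_
  have hkm : k ≤ m := Nat.lt_succ_iff.1 (Finset.mem_range.1 hk)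
  rw [hX0]
  push_cast
  have h1 : (s : ZMod (2 ^ M)) ^ (2 * m) =
      (s : ZMod (2 ^ M)) ^ (2 * k) * (s : ZMod (2 ^ M)) ^ (2 * (m - k)) := by
    rw [← pow_add]
    congr 1
    omega
  have h2 : ((2 : ZMod (2 ^ M)) ^ c * (ρ : ZMod (2 ^ M)) ^ 2) ^ k =
      2 ^ (c * k) * (ρ : ZMod (2 ^ M)) ^ (2 * k) := by
    rw [mul_pow, ← pow_mul, ← pow_mul]
  have h3 : (s : ZMod (2 ^ M)) ^ (2 * k) * (ρ : ZMod (2 ^ M)) ^ (2 * k) = 1 := by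
    rw [← mul_pow, hrρ, one_pow]
  rw [h1, h2]
  calc (s : ZMod (2 ^ M)) ^ (2 * k) * (s : ZMod (2 ^ M)) ^ (2 * (m - k)) *
      ((s : ZMod (2 ^ M)) * ((y.coeff k : ZMod (2 ^ M)) *
      (2 ^ (c * k) * (ρ : ZMod (2 ^ M)) ^ (2 * k))))
      = ((s : ZMod (2 ^ M)) ^ (2 * k) * (ρ : ZMod (2 ^ M)) ^ (2 * k)) *
        ((s : ZMod (2 ^ M)) * ((y.coeff k : ZMod (2 ^ M)) * 2 ^ (c * k)
        * (s : ZMod (2 ^ M)) ^ (2 * (m - k)))) := by ring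
    _ = _ := by rw [h3, one_mul]

end Pool.Agent.H91.CB
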