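import Pool.Agent.H91.CB.TayG
import Pool.Agent.H91.CB.TayH
import Pool.Agent.H91.CB.Pos

/-!
JOB CB-05 (contradiction by positivity, second case, about 100-150 lines; uses the stubs `tay_series2`,
`tay_mod2`, `pos_lemma`).

`V = 2^c`, `M = min (2i) (c (m+1))`, `κ = s²`.  `q^z = (4^i + p^(2j))^z ≡ p^N (mod 4^i)` (`N = 2jz`), so
`4^i ∣ p^d - p^N + 2^c` and `2^M` divides it.  `N` is even, `d = N + s` odd, so `s` is odd.
Take `y` from `tay_series2` for this `m`, `Y = 1 + C s * y`, `G = Y^d - Y^N + κ X`, `X^(m+1) ∣ G`.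
(1) `Y G' - d Y' G = s Y^N Y' + κ Y - d κ X Y' = Y' (s Y^N - d κ X) + κ Y`, divisible by `X^m`.  `pos_lemma` with
`a = N`, `r = s`, `e = d`, `ζ = 1`: `y_k ≤ 0` for `1 ≤ k ≤ m`.
(2) `D := s^(2m) p - (s^(2m) + s ∑_{k≤m} y_k V^k s^(2(m-k))) ≥ s^(2m) (p-1) > 0`, `2^M ∣ D` by `tay_mod2`.
(3) `D ≤ d^(2m) p + d (∑ |y_k| τ^k) (V/τ)^m ≤ K^m p + K^m V^m`, `τ = 1/(64 d^4)` (`s² ≤ V/τ`).
(4) `K^m p + K^m V^m < min (4^i) (V^(m+1)) = 2^M`: contradiction.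
-/

namespace Pool.Agent.H91.CB

open Polynomial Pool.Agent.H91.CA

theorem TayJ_der {N s d m : ℕ} (hN : 1 ≤ N) (hd : d = N + s) (Y : ℤ[X])
    (h : X ^ (m + 1) ∣ Y ^ d - Y ^ N + C ((s : ℤ) ^ 2) * X) :
    X ^ m ∣ derivative Y * (C (s : ℤ) * Y ^ N - C ((d * s ^ 2 : ℕ) : ℤ) * X) +
      C ((1 * s ^ 2 : ℕ) : ℤ) * Y := by
  obtain ⟨N', rfl⟩ : ∃ N', N = N' + 1 := ⟨N - 1, by omega⟩
  subst hd
  obtain ⟨Q, hQ⟩ := h
  have e1 : derivative (Y ^ (N' + 1 + s) - Y ^ (N' + 1) + C ((s : ℤ) ^ 2) * X) =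
      C ((N' + s : ℕ) + 1 : ℤ) * Y ^ (N' + s) * derivative Y -
        C ((N' : ℤ) + 1) * Y ^ N' * derivative Y + C ((s : ℤ) ^ 2) := by
    rw [show N' + 1 + s = (N' + s) + 1 by ring, derivative_add, derivative_sub,
      derivative_pow_succ, derivative_pow_succ, derivative_C_mul, derivative_X, mul_one]
  have e2 : derivative (X ^ (m + 1) * Q) = C ((m : ℤ) + 1) * X ^ m * Q +
      X ^ (m + 1) * derivative Q := by
    rw [derivative_mul, derivative_pow_succ, derivative_X, mul_one]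
  rw [hQ, e2] at e1
  refine ⟨Y * (C ((m : ℤ) + 1) * Q + X * derivative Q) -
    C ((N' + s : ℕ) + 1 : ℤ) * derivative Y * (X * Q), ?_⟩
  push_cast at e1 ⊢
  simp only [map_add, map_mul, map_pow, map_one, one_mul, C_1] at e1 hQ ⊢
  linear_combination (-Y) * e1 - (C (N' : ℤ) + C (s : ℤ) + 1) * derivative Y * hQ

theorem TayJ_size {s d c m K p : ℕ} (hd1 : 1 ≤ d) (hsd : s ≤ d) (hK : 64 * d ^ 4 ≤ K) (y : ℤ[X])
    (hdeg : y.natDegree ≤ m) (hy : nrm (1 / (64 * (d : ℝ) ^ 4)) y ≤ 1 / (4 * (d : ℝ) ^ 2)) :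
    (s : ℤ) ^ (2 * m) * p - ((s : ℤ) ^ (2 * m) +
      s * ∑ k ∈ Finset.range (m + 1), y.coeff k * 2 ^ (c * k) * (s : ℤ) ^ (2 * (m - k))) ≤
    (K : ℤ) ^ m * p + (K : ℤ) ^ m * 2 ^ (c * m) := by
  set S : ℤ := ∑ k ∈ Finset.range (m + 1), y.coeff k * 2 ^ (c * k) * (s : ℤ) ^ (2 * (m - k))
    with hS
  have hdR : (1 : ℝ) ≤ d := by exact_mod_cast hd1
  have hsR : (s : ℝ) ≤ d := by exact_mod_cast hsd
  have hs0 : (0 : ℝ) ≤ s := Nat.cast_nonneg s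
  obtain ⟨W, hW⟩ : ∃ W : ℝ, W = 2 ^ c := ⟨_, rfl⟩
  have hW1 : (1 : ℝ) ≤ W := by
    rw [hW]
    exact one_le_pow₀ (by norm_num)
  obtain ⟨T, hT⟩ : ∃ T : ℝ, T = 64 * (d : ℝ) ^ 4 := ⟨_, rfl⟩
  have hT0 : (0 : ℝ) < T := by
    rw [hT]
    positivity
  have hTK : T ≤ K := by
    rw [hT]
    exact_mod_cast hK
  have hd2 : (1 : ℝ) ≤ (d : ℝ) ^ 2 := one_le_pow₀ hdR
  have hn2T : (d : ℝ) ^ 2 ≤ T := by
    rw [hT]
    nlinarith [sq_nonneg ((d : ℝ) ^ 2)]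
  have hr2T : (s : ℝ) ^ 2 ≤ T * W := by
    calc (s : ℝ) ^ 2 ≤ (d : ℝ) ^ 2 := pow_le_pow_left₀ hs0 hsR 2
      _ ≤ T := hn2T
      _ ≤ T * W := le_mul_of_one_le_right hT0.le hW1
  have hr2m : (s : ℝ) ^ (2 * m) ≤ T ^ m := by
    rw [pow_mul]
    exact pow_le_pow_left₀ (sq_nonneg _) ((pow_le_pow_left₀ hs0 hsR 2).trans hn2T) m
  have hTKm : T ^ m ≤ (K : ℝ) ^ m := pow_le_pow_left₀ hT0.le hTK m
  have hSabs : |(S : ℝ)| ≤ (T * W) ^ m * nrm (1 / T) y := by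
    rw [hS]
    push_cast
    rw [nrm_eq_range y (Nat.lt_succ_of_le hdeg), Finset.mul_sum]
    refine (Finset.abs_sum_le_sum_abs _ _).trans (Finset.sum_le_sum fun k hk => ?_)
    have hk' : k ≤ m := Nat.lt_succ_iff.mp (Finset.mem_range.mp hk)
    rw [abs_mul, abs_mul, abs_of_nonneg (by positivity : (0 : ℝ) ≤ 2 ^ (c * k)),
      abs_of_nonneg (by positivity : (0 : ℝ) ≤ (s : ℝ) ^ (2 * (m - k)))]
    have e1 : (2 : ℝ) ^ (c * k) = W ^ k := by rw [hW, ← pow_mul]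
    rw [e1]
    have e2 : (s : ℝ) ^ (2 * (m - k)) ≤ (T * W) ^ (m - k) := by
      rw [pow_mul]
      exact pow_le_pow_left₀ (sq_nonneg _) hr2T _
    have e3 : (T * W) ^ m = (T * W) ^ k * (T * W) ^ (m - k) := by
      rw [← pow_add, Nat.add_sub_cancel' hk']
    have e4 : W ^ k = (T * W) ^ k * (1 / T) ^ k := by
      rw [← mul_pow]
      congr 1
      field_simp
    calc |(y.coeff k : ℝ)| * W ^ k * (s : ℝ) ^ (2 * (m - k))
        ≤ |(y.coeff k : ℝ)| * W ^ k * (T * W) ^ (m - k) :=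
          mul_le_mul_of_nonneg_left e2 (by positivity)
      _ = (T * W) ^ m * (|(y.coeff k : ℝ)| * (1 / T) ^ k) := by
          rw [e3]
          nth_rewrite 1 [e4]
          ring
  have hy' : nrm (1 / T) y ≤ 1 / (4 * (d : ℝ) ^ 2) := by
    rw [hT]
    exact hy
  have hrS : (s : ℝ) * |(S : ℝ)| ≤ (T * W) ^ m := by
    have h0 : 0 ≤ (T * W) ^ m := by positivity
    have h10 : (s : ℝ) * (1 / (4 * (d : ℝ) ^ 2)) ≤ 1 := by
      rw [mul_one_div, div_le_one (by positivity)]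
      nlinarith
    calc (s : ℝ) * |(S : ℝ)| ≤ s * ((T * W) ^ m * nrm (1 / T) y) :=
          mul_le_mul_of_nonneg_left hSabs hs0
      _ ≤ s * ((T * W) ^ m * (1 / (4 * (d : ℝ) ^ 2))) :=
          mul_le_mul_of_nonneg_left (mul_le_mul_of_nonneg_left hy' h0) hs0
      _ = (T * W) ^ m * (s * (1 / (4 * (d : ℝ) ^ 2))) := by ring
      _ ≤ (T * W) ^ m * 1 := mul_le_mul_of_nonneg_left h10 h0
      _ = (T * W) ^ m := mul_one _
  have hfinal : ((s : ℝ) ^ (2 * m) * p - ((s : ℝ) ^ (2 * m) + s * (S : ℝ))) ≤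
      (K : ℝ) ^ m * p + (K : ℝ) ^ m * 2 ^ (c * m) := by
    have e5 : (2 : ℝ) ^ (c * m) = W ^ m := by rw [hW, ← pow_mul]
    rw [e5]
    have hp0 : (0 : ℝ) ≤ p := Nat.cast_nonneg p
    have a1 : (s : ℝ) ^ (2 * m) * p ≤ (K : ℝ) ^ m * p :=
      mul_le_mul_of_nonneg_right (hr2m.trans hTKm) hp0
    have a4 : 0 ≤ (s : ℝ) ^ (2 * m) := by positivity
    have a5 : -((s : ℝ) * (S : ℝ)) ≤ (K : ℝ) ^ m * W ^ m := by
      calc -((s : ℝ) * (S : ℝ)) ≤ |(s : ℝ) * (S : ℝ)| := neg_le_abs _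
        _ = (s : ℝ) * |(S : ℝ)| := by rw [abs_mul, abs_of_nonneg hs0]
        _ ≤ (T * W) ^ m := hrS
        _ = T ^ m * W ^ m := mul_pow _ _ _
        _ ≤ (K : ℝ) ^ m * W ^ m := mul_le_mul_of_nonneg_right hTKm (by positivity)
    linarith
  exact_mod_cast hfinal

theorem tay_pos2 {p q i j z d s c m K N : ℕ} (hc : 1 ≤ c) (hj : 1 ≤ j) (hz : 1 ≤ z)
    (hN : N = 2 * j * z) (hs : 1 ≤ s) (hd : d = N + s) (hd2 : d % 2 = 1) (hp : p % 2 = 1)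
    (hp1 : 1 < p) (hq : q = 4 ^ i + p ^ (2 * j)) (h : 2 ^ c + p ^ d = q ^ z)
    (hK : 64 * d ^ 4 ≤ K) (h1 : 2 * K ^ m * p < 2 ^ (c * (m + 1))) (h2 : 2 * K ^ m < 2 ^ c)
    (h3 : 2 * K ^ m * p < 4 ^ i) (h4 : 2 * K ^ m * 2 ^ (c * m) < 4 ^ i) : False := by
  have hN1 : 1 ≤ N := by
    rw [hN]
    exact Nat.mul_pos (Nat.mul_pos (by norm_num) hj) hz
  have hN2 : N % 2 = 0 := by
    rw [hN, mul_assoc]
    exact Nat.mul_mod_right _ _
  have hs2 : s % 2 = 1 := by omega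
  obtain ⟨y, hdeg, hy0, hX, hy⟩ := tay_series2 hN1 hs hd m
  obtain ⟨M, hM⟩ : ∃ M, M = min (2 * i) (c * (m + 1)) := ⟨_, rfl⟩
  have hM1 : M ≤ 2 * i := by
    rw [hM]
    exact min_le_left _ _
  have hM2 : M ≤ c * (m + 1) := by
    rw [hM]
    exact min_le_right _ _
  have hdvd : (2 : ℤ) ^ M ∣ (p : ℤ) ^ d - (p : ℤ) ^ N + 2 ^ c := by
    have e1 : (p : ℤ) ^ d - (p : ℤ) ^ N + 2 ^ c =
        ((4 : ℤ) ^ i + (p : ℤ) ^ (2 * j)) ^ z - ((p : ℤ) ^ (2 * j)) ^ z := by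
      have e2 : (2 : ℤ) ^ c + (p : ℤ) ^ d = ((4 : ℤ) ^ i + (p : ℤ) ^ (2 * j)) ^ z := by
        rw [hq] at h
        exact_mod_cast h
      have e3 : (p : ℤ) ^ N = ((p : ℤ) ^ (2 * j)) ^ z := by
        rw [hN, pow_mul]
      rw [← e2, e3]
      ring
    rw [e1]
    have e4 : (4 : ℤ) ^ i ∣ ((4 : ℤ) ^ i + (p : ℤ) ^ (2 * j)) ^ z - ((p : ℤ) ^ (2 * j)) ^ z := by
      have := sub_dvd_pow_sub_pow ((4 : ℤ) ^ i + (p : ℤ) ^ (2 * j)) ((p : ℤ) ^ (2 * j)) z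
      rwa [add_sub_cancel_right] at this
    refine dvd_trans ?_ e4
    rw [show (4 : ℤ) = 2 ^ 2 by norm_num, ← pow_mul]
    exact pow_dvd_pow 2 hM1
  have hD := tay_mod2 hc hd2 hN2 hs2 hp hdvd hM2 y hdeg hy0 hX
  have hY0 : (1 + C (s : ℤ) * y).coeff 0 = 1 := by
    rw [coeff_add, coeff_one_zero, coeff_C_mul, hy0, mul_zero, add_zero]
  have hco : ∀ k, 1 ≤ k → k ≤ m → y.coeff k ≤ 0 := by
    intro k hk hkm
    have h5 := pos_lemma (a := N) (r := s) (e := d) (ζ := 1) (κ := s ^ 2) (m := m) hs hN1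
      (1 + C (s : ℤ) * y) hY0 (TayJ_der hN1 hd _ hX) hk hkm
    rw [coeff_add, coeff_one, if_neg (by omega), zero_add, coeff_C_mul] at h5
    by_contra h6
    push Not at h6
    have h7 : (0 : ℤ) < s := by exact_mod_cast hs
    have h8 := mul_pos h7 h6
    omega
  have hsum : ∑ k ∈ Finset.range (m + 1), y.coeff k * 2 ^ (c * k) * (s : ℤ) ^ (2 * (m - k)) ≤ 0 := by
    refine Finset.sum_nonpos fun k hk => ?_
    have hk' : k ≤ m := Nat.lt_succ_iff.mp (Finset.mem_range.mp hk)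
    have h9 : y.coeff k ≤ 0 := by
      rcases Nat.eq_zero_or_pos k with h0 | h0
      · rw [h0, hy0]
      · exact hco k h0 hk'
    exact mul_nonpos_of_nonpos_of_nonneg
      (mul_nonpos_of_nonpos_of_nonneg h9 (by positivity)) (by positivity)
  have hs0 : (0 : ℤ) < s := by exact_mod_cast hs
  have hsp : (0 : ℤ) < (s : ℤ) ^ (2 * m) := pow_pos hs0 _
  have hpp : (1 : ℤ) < p := by exact_mod_cast hp1
  have hle := Int.le_of_dvd (by nlinarith [mul_nonpos_of_nonneg_of_nonpos hs0.le hsum]) hD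
  have hsz := TayJ_size (s := s) (d := d) (c := c) (m := m) (K := K) (p := p) (by omega)
    (by omega) hK y hdeg hy
  have hle2 : (2 : ℤ) ^ M ≤ (K : ℤ) ^ m * p + (K : ℤ) ^ m * 2 ^ (c * m) := hle.trans hsz
  have hle3 : 2 ^ M ≤ K ^ m * p + K ^ m * 2 ^ (c * m) := by exact_mod_cast hle2
  rcases le_total (2 * i) (c * (m + 1)) with h10 | h10
  · rw [hM, min_eq_left h10, pow_mul, show (2 : ℕ) ^ 2 = 4 by norm_num] at hle3
    have e1 : 2 * K ^ m * p = 2 * (K ^ m * p) := by ring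
    have e2 : 2 * K ^ m * 2 ^ (c * m) = 2 * (K ^ m * 2 ^ (c * m)) := by ring
    omega
  · rw [hM, min_eq_right h10] at hle3
    have e1 : 2 * K ^ m * p = 2 * (K ^ m * p) := by ring
    have e3 : 2 * K ^ m * 2 ^ (c * m) < 2 ^ c * 2 ^ (c * m) :=
      Nat.mul_lt_mul_of_pos_right h2 (by positivity)
    have e4 : 2 ^ c * 2 ^ (c * m) = 2 ^ (c * (m + 1)) := by
      rw [← pow_add]
      congr 1
      ring
    rw [e4] at e3
    have e2 : 2 * K ^ m * 2 ^ (c * m) = 2 * (K ^ m * 2 ^ (c * m)) := by ring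
    omega

end Pool.Agent.H91.CB
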