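import Pool.Agent.H91.CA.TayA
import Pool.Agent.H91.CA.TayB
import Pool.Agent.H91.CB.Pos
import Pool.Agent.H91.CB.TayJ

/-!
JOB CB-04 (contradiction by positivity, first case, about 120-180 lines; uses `tay_series`, `tay_mod`,
`nrm_eq_range` (finished) and the stub `pos_lemma`).

`W = 4^i`, `M = min c (2 i (m+1))`, `κ = r²`.  Take `y` from `tay_series` for this `m`, `Y = 1 + C r * y`,
`A = Y^(2j) + κ X`, `F = A^z - Y^d`, `X^(m+1) ∣ F`.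
(1) `A F' - z A' F = Y^(d-1) V`, `V = z A' Y - d A Y' = z κ Y + Y' (r Y^(2j) - d κ X)` (use `2jz - d = r`);
`X^m` divides the left side, `Y(0) = 1`, so `X^m ∣ V`.  `pos_lemma` with `a = 2j`, `e = d`, `ζ = z`:
`r y_k = Y.coeff k ≤ 0`, so `y_k ≤ 0` for `1 ≤ k ≤ m`; `y_0 = 0`.
(2) `D := r^(2m) p - (r^(2m) + r ∑_{k≤m} y_k W^k r^(2(m-k)))` is `≥ r^(2m) (p - 1) > 0`, and `2^M ∣ D` by
`tay_mod`.  (`r` is odd because `2jz` is even and `d` is odd.)  So `2^M ≤ D`.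
(3) `D ≤ r^(2m) p + r ∑ |y_k| W^k r^(2(m-k)) ≤ n^(2m) p + n (∑ |y_k| τ^k) (W/τ)^m` with `τ = 1/(64n^4)`
(`r² ≤ W/τ`), `≤ K^m p + (n/(4n²)) K^m W^m ≤ K^m p + K^m W^m`.
(4) `2 K^m p < 2^c`, `2 K^m W^m < 2^c`, `2 K^m p < W^(m+1)`, `2 K^m W^m < W^(m+1)`, so
`K^m p + K^m W^m < min (2^c) (W^(m+1)) = 2^M`: contradiction.
-/

namespace Pool.Agent.H91.CB

open Polynomial Pool.Agent.H91.CA

theorem TayI_cop (Y : ℤ[X]) (hY0 : Y.coeff 0 = 1) : IsCoprime (X : ℤ[X]) Y := by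
  have h1 : (X : ℤ[X]) ∣ Y - 1 := by
    rw [X_dvd_iff, coeff_sub, hY0, coeff_one_zero, sub_self]
  obtain ⟨Q, hQ⟩ := h1
  exact ⟨-Q, 1, by linear_combination hQ⟩

theorem TayI_der {j z d r m : ℕ} (hj : 1 ≤ j) (hz : 1 ≤ z) (hd : 1 ≤ d) (hr : d + r = 2 * j * z)
    (Y : ℤ[X]) (hY0 : Y.coeff 0 = 1)
    (h : X ^ (m + 1) ∣ (Y ^ (2 * j) + C ((r : ℤ) ^ 2) * X) ^ z - Y ^ d) :
    X ^ m ∣ derivative Y * (C (r : ℤ) * Y ^ (2 * j) - C ((d * r ^ 2 : ℕ) : ℤ) * X) +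
      C ((z * r ^ 2 : ℕ) : ℤ) * Y := by
  obtain ⟨j', hj'⟩ : ∃ j', 2 * j = j' + 1 := ⟨2 * j - 1, by omega⟩
  obtain ⟨z', rfl⟩ : ∃ z', z = z' + 1 := ⟨z - 1, by omega⟩
  obtain ⟨d', rfl⟩ : ∃ d', d = d' + 1 := ⟨d - 1, by omega⟩
  rw [hj'] at hr h ⊢
  have hcop : IsCoprime ((X : ℤ[X]) ^ m) (Y ^ d') := (TayI_cop Y hY0).pow
  refine hcop.dvd_of_dvd_mul_left ?_
  obtain ⟨Q, hQ⟩ := h
  have e1 : derivative ((Y ^ (j' + 1) + C ((r : ℤ) ^ 2) * X) ^ (z' + 1) - Y ^ (d' + 1)) =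
      C ((z' : ℤ) + 1) * (Y ^ (j' + 1) + C ((r : ℤ) ^ 2) * X) ^ z' *
        (C ((j' : ℤ) + 1) * Y ^ j' * derivative Y + C ((r : ℤ) ^ 2)) -
        C ((d' : ℤ) + 1) * Y ^ d' * derivative Y := by
    rw [derivative_sub, derivative_pow_succ, derivative_pow_succ, derivative_add,
      derivative_pow_succ, derivative_C_mul, derivative_X, mul_one]
  have e2 : derivative (X ^ (m + 1) * Q) = C ((m : ℤ) + 1) * X ^ m * Q +
      X ^ (m + 1) * derivative Q := by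
    rw [derivative_mul, derivative_pow_succ, derivative_X, mul_one]
  rw [hQ, e2] at e1
  have hr' : (C (r : ℤ) : ℤ[X]) = (C (j' : ℤ) + 1) * (C (z' : ℤ) + 1) - (C (d' : ℤ) + 1) := by
    have h1 : (r : ℤ) = ((j' : ℤ) + 1) * ((z' : ℤ) + 1) - ((d' : ℤ) + 1) := by
      have : ((d' + 1 + r : ℕ) : ℤ) = (((j' + 1) * (z' + 1) : ℕ) : ℤ) := by rw [hr]
      push_cast at this
      linear_combination this
    rw [h1]
    simp only [map_add, map_mul, map_sub, C_1, map_one]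
  obtain ⟨A, hA⟩ : ∃ A : ℤ[X], A = Y ^ (j' + 1) + C ((r : ℤ) ^ 2) * X := ⟨_, rfl⟩
  rw [← hA] at e1 hQ
  refine ⟨A * (C ((m : ℤ) + 1) * Q + X * derivative Q) -
    (C (z' : ℤ) + 1) * (C ((j' : ℤ) + 1) * Y ^ j' * derivative Y + C ((r : ℤ) ^ 2)) * (X * Q), ?_⟩
  push_cast at e1 ⊢
  simp only [map_add, map_mul, map_pow, map_one, C_1] at e1 hQ hA ⊢
  have e3 : A ^ (z' + 1) = A ^ z' * A := pow_succ _ _
  have e4 : Y ^ (d' + 1) = Y ^ d' * Y := pow_succ _ _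
  have e5 : Y ^ (j' + 1) = Y ^ j' * Y := pow_succ _ _
  have e6 : (X : ℤ[X]) ^ (m + 1) = X ^ m * X := pow_succ _ _
  rw [e3, e4, e6] at hQ
  rw [e6] at e1
  rw [e5] at hA ⊢
  have key : Y ^ d' * (derivative Y * ((C (r : ℤ)) * (Y ^ j' * Y) -
      (C (d' : ℤ) + 1) * C (r : ℤ) ^ 2 * X) + (C (z' : ℤ) + 1) * C (r : ℤ) ^ 2 * Y) =
      X ^ m * (A * ((C (m : ℤ) + 1) * Q + X * derivative Q) -
        (C (z' : ℤ) + 1) * ((C (j' : ℤ) + 1) * Y ^ j' * derivative Y + C (r : ℤ) ^ 2) * (X * Q)) := by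
    have k1 : X ^ m * (A * ((C (m : ℤ) + 1) * Q + X * derivative Q)) =
        A * ((C (z' : ℤ) + 1) * A ^ z' * ((C (j' : ℤ) + 1) * Y ^ j' * derivative Y + C (r : ℤ) ^ 2) -
          (C (d' : ℤ) + 1) * Y ^ d' * derivative Y) := by
      rw [← e1]
      ring
    have k2 : X ^ m * (X * Q) = A ^ z' * A - Y ^ d' * Y := by
      rw [hQ]
      ring
    calc Y ^ d' * (derivative Y * ((C (r : ℤ)) * (Y ^ j' * Y) -
          (C (d' : ℤ) + 1) * C (r : ℤ) ^ 2 * X) + (C (z' : ℤ) + 1) * C (r : ℤ) ^ 2 * Y)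
        = A * ((C (z' : ℤ) + 1) * A ^ z' * ((C (j' : ℤ) + 1) * Y ^ j' * derivative Y + C (r : ℤ) ^ 2) -
          (C (d' : ℤ) + 1) * Y ^ d' * derivative Y) -
          (C (z' : ℤ) + 1) * ((C (j' : ℤ) + 1) * Y ^ j' * derivative Y + C (r : ℤ) ^ 2) *
            (A ^ z' * A - Y ^ d' * Y) := by
          have k3 : Y ^ d' * (derivative Y * ((C (r : ℤ)) * (Y ^ j' * Y) -
              (C (d' : ℤ) + 1) * C (r : ℤ) ^ 2 * X) + (C (z' : ℤ) + 1) * C (r : ℤ) ^ 2 * Y) =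
              Y ^ d' * (derivative Y * (((C (j' : ℤ) + 1) * (C (z' : ℤ) + 1) - (C (d' : ℤ) + 1)) *
              (Y ^ j' * Y) - (C (d' : ℤ) + 1) * C (r : ℤ) ^ 2 * X) +
              (C (z' : ℤ) + 1) * C (r : ℤ) ^ 2 * Y) := by
            rw [← hr']
          rw [k3, hA]
          ring
      _ = _ := by
          rw [← k1, ← k2]
          ring
  exact key

theorem tay_pos1 {p q i j z d r c n m K : ℕ} (hi : 1 ≤ i) (hj : 1 ≤ j) (hz : 1 ≤ z)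
    (hn : n = 2 * j * z) (hr : d + r = n) (hr1 : 1 ≤ r) (hd : d % 2 = 1) (hp : p % 2 = 1)
    (hp1 : 1 < p) (hq : q = 4 ^ i + p ^ (2 * j)) (h : 2 ^ c + p ^ d = q ^ z)
    (hK : 64 * n ^ 4 ≤ K) (h1 : 2 * K ^ m * p < 4 ^ (i * (m + 1))) (h2 : 2 * K ^ m < 4 ^ i)
    (h3 : 2 * K ^ m * p < 2 ^ c) (h4 : 2 * K ^ m * 4 ^ (i * m) < 2 ^ c) : False := by
  have hn1 : 1 ≤ n := by
    rw [hn]
    exact Nat.mul_pos (Nat.mul_pos (by norm_num) hj) hz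
  have hn2 : n % 2 = 0 := by
    rw [hn, mul_assoc]
    exact Nat.mul_mod_right _ _
  have hr2 : r % 2 = 1 := by omega
  obtain ⟨y, hdeg, hy0, hX, hy⟩ := tay_series hj hz hn hr hr1 m
  obtain ⟨M, hM⟩ : ∃ M, M = min c (2 * i * (m + 1)) := ⟨_, rfl⟩
  have hM1 : M ≤ c := by
    rw [hM]
    exact min_le_left _ _
  have hM2 : M ≤ 2 * i * (m + 1) := by
    rw [hM]
    exact min_le_right _ _
  have h' : 2 ^ c + p ^ d = (4 ^ i + p ^ (2 * j)) ^ z := by rw [h, hq]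
  have hD := tay_mod hi hj hd hr2 hp h' hM1 hM2 y hdeg hy0 hX
  have hY0 : (1 + C (r : ℤ) * y).coeff 0 = 1 := by
    rw [coeff_add, coeff_one_zero, coeff_C_mul, hy0, mul_zero, add_zero]
  have hco : ∀ k, 1 ≤ k → k ≤ m → y.coeff k ≤ 0 := by
    intro k hk hkm
    have h5 := pos_lemma (a := 2 * j) (r := r) (e := d) (ζ := z) (κ := r ^ 2) (m := m) hr1
      (by omega) (1 + C (r : ℤ) * y) hY0
      (TayI_der hj hz (by omega) (by rw [hr, hn]) _ hY0 hX) hk hkm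
    rw [coeff_add, coeff_one, if_neg (by omega), zero_add, coeff_C_mul] at h5
    by_contra h6
    push Not at h6
    have h7 : (0 : ℤ) < r := by exact_mod_cast hr1
    have h8 := mul_pos h7 h6
    omega
  have hsum : ∑ k ∈ Finset.range (m + 1), y.coeff k * 4 ^ (i * k) * (r : ℤ) ^ (2 * (m - k)) ≤ 0 := by
    refine Finset.sum_nonpos fun k hk => ?_
    have hk' : k ≤ m := Nat.lt_succ_iff.mp (Finset.mem_range.mp hk)
    have h9 : y.coeff k ≤ 0 := by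
      rcases Nat.eq_zero_or_pos k with h0 | h0
      · rw [h0, hy0]
      · exact hco k h0 hk'
    exact mul_nonpos_of_nonpos_of_nonneg
      (mul_nonpos_of_nonpos_of_nonneg h9 (by positivity)) (by positivity)
  have hs0 : (0 : ℤ) < r := by exact_mod_cast hr1
  have hsp : (0 : ℤ) < (r : ℤ) ^ (2 * m) := pow_pos hs0 _
  have hpp : (1 : ℤ) < p := by exact_mod_cast hp1
  have hle := Int.le_of_dvd (by nlinarith [mul_nonpos_of_nonneg_of_nonpos hs0.le hsum]) hD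
  have hsz := TayJ_size (s := r) (d := n) (c := 2 * i) (m := m) (K := K) (p := p) hn1
    (by omega) hK y hdeg hy
  have e24 : ∀ k : ℕ, (2 : ℤ) ^ (2 * i * k) = 4 ^ (i * k) := by
    intro k
    rw [mul_assoc, pow_mul]
    norm_num
  simp only [e24] at hsz
  have hle2 : (2 : ℤ) ^ M ≤ (K : ℤ) ^ m * p + (K : ℤ) ^ m * 4 ^ (i * m) := hle.trans hsz
  have hle3 : 2 ^ M ≤ K ^ m * p + K ^ m * 4 ^ (i * m) := by exact_mod_cast hle2
  have e1 : 2 * K ^ m * p = 2 * (K ^ m * p) := by ring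
  have e2 : 2 * K ^ m * 4 ^ (i * m) = 2 * (K ^ m * 4 ^ (i * m)) := by ring
  rcases le_total c (2 * i * (m + 1)) with h10 | h10
  · rw [hM, min_eq_left h10] at hle3
    omega
  · rw [hM, min_eq_right h10] at hle3
    have e3 : 2 * K ^ m * 4 ^ (i * m) < 4 ^ i * 4 ^ (i * m) :=
      Nat.mul_lt_mul_of_pos_right h2 (by positivity)
    have e4 : 4 ^ i * 4 ^ (i * m) = 4 ^ (i * (m + 1)) := by
      rw [← pow_add]
      congr 1
      ring
    have e5 : 2 ^ (2 * i * (m + 1)) = 4 ^ (i * (m + 1)) := by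
      rw [mul_assoc, pow_mul]
      norm_num
    rw [e4] at e3
    rw [e5] at hle3
    omega

end Pool.Agent.H91.CB
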