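import Mathlib

/-!
JOB CB-07 (elementary 2-adic arguments, general parity, about 150-200 lines; compare the finished file
`Pool/Agent/H91/CA/Tri.lean`; independent).

`tri_gen`.  `t0 = v2(p-1) ≥ 3`.  `v2((1+4^i)^z - 1) = 2i + v2(z)` (LTE: `4 ∣ (1+4^i) - 1`;
`Int.two_pow_sub_pow`-type lemmas or `padicValNat`; or write `z = 2^s z1`, `z1` odd, and
`(1+x)^(2) - 1 = 2x + x²`).
(a) `c > t0`: modulo `2^(t0+1)`: `p^d ≡ 1 + 2^t0` (`d` odd), `p^(2j) ≡ 1`, `q ≡ 1 + 4^i`, so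
`(1+4^i)^z ≡ 1 + 2^t0` and `t0 = 2i + v2(z)`.  So `4^i ∣ 2^t0 ∣ p - 1`; if `2^t ∣ p - 1` then
`2^t ≤ 2^t0 = 4^i 2^(v2 z) ≤ 4^i z`.
(b) `c ≤ t0`: `2^c ∣ p - 1`.  If `d ≤ 2jz`, then (parity) `d ≤ 2jz - 1` and
`2^c = q^z - p^d > p^(2jz) - p^(2jz-1) ≥ p - 1 ≥ 2^c`, contradiction.  If `c = t0`, then `2^t ∣ p-1` implies
`t ≤ c`.  If `c < t0`: modulo `2^t0`: `(1+4^i)^z ≡ 1 + 2^c`, so `c = 2i + v2(z)`, `4^i ≤ 2^c ≤ p - 1 < p`.

`cop_gen`: `g = gcd(z,d)` is odd (`d` is odd); as in `CA/Tri.lean`, `cop_zd`.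

`p_seven`.  `q` is odd, `z` even, so `q^z ≡ 1 (mod 8)`, `p^d ≡ 7`, `2^c ≡ 2 (mod 8)`, `c = 1`.
`v = p + 1` is even; `N = 2jz` is even.  `p^N ≡ 1 - N v`, `p^d ≡ -1 + d v (mod v²)`; so
`p^N - p^d - 2 = v * (odd)` (`N + d` odd, `v` even), and `p^N - p^d - 2 ≡ q^z - p^d - 2 = 0 (mod 4^i)`; hence
`4^i ∣ v`.  `p^d = q^z - 2 ≥ (p^(2j) + 4)^z - 2 > p^(2jz)`, so `d > 2jz`.
-/

namespace Pool.Agent.H91.CB

theorem TriG_sum_odd (a : ℕ) (ha : a % 2 = 1) (n : ℕ) :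
    (∑ k ∈ Finset.range n, a ^ k) % 2 = n % 2 := by
  induction n with
  | zero => simp
  | succ n ih =>
    rw [Finset.sum_range_succ, Nat.add_mod, ih]
    have h1 : a ^ n % 2 = 1 := by
      rw [Nat.pow_mod, ha]
      simp
    rw [h1]
    omega

theorem TriG_pow_sub (a n : ℕ) : (a + 1) ^ n = a * (∑ k ∈ Finset.range n, (a + 1) ^ k) + 1 := by
  induction n with
  | zero => simp
  | succ n ih =>
    rw [Finset.sum_range_succ, mul_add, pow_succ]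
    nlinarith [ih]

theorem TriG_four (i : ℕ) : (4 : ℕ) ^ i = 2 ^ (2 * i) := by
  rw [pow_mul]
  norm_num

theorem TriG_lte {i z : ℕ} (hi : 1 ≤ i) (hz : 1 ≤ z) : ∃ s z1 m, z = 2 ^ s * z1 ∧ 1 ≤ z1 ∧
    m % 2 = 1 ∧ (4 ^ i + 1) ^ z = 2 ^ (2 * i + s) * m + 1 := by
  obtain ⟨s, z1, hz1, hzs⟩ := Nat.exists_eq_two_pow_mul_odd (n := z) (by omega)
  have hz1' : z1 % 2 = 1 := Nat.odd_iff.mp hz1
  have key : ∀ s : ℕ, ∃ m, m % 2 = 1 ∧ (4 ^ i + 1) ^ (2 ^ s * z1) = 2 ^ (2 * i + s) * m + 1 := by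
    intro s
    induction s with
    | zero =>
      refine ⟨∑ k ∈ Finset.range z1, (4 ^ i + 1) ^ k, ?_, ?_⟩
      · rw [TriG_sum_odd _ _ z1, hz1']
        have : 4 ^ i % 2 = 0 := by
          rw [TriG_four]
          obtain ⟨k, hk⟩ : ∃ k, 2 * i = k + 1 := ⟨2 * i - 1, by omega⟩
          rw [hk, pow_succ]
          omega
        omega
      · have e0 : 2 ^ (2 * i + 0) = 4 ^ i := (TriG_four i).symm
        rw [pow_zero, one_mul, e0]
        exact TriG_pow_sub _ _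
    | succ s ih =>
      obtain ⟨m, hm, he⟩ := ih
      obtain ⟨e, hee⟩ : ∃ e, 2 * i + s = e + 2 := ⟨2 * i + s - 2, by omega⟩
      refine ⟨2 ^ (e + 1) * (m * m) + m, ?_, ?_⟩
      · have h1 : 2 ^ (e + 1) * (m * m) % 2 = 0 := by
          rw [pow_succ, mul_comm (2 ^ e) 2, mul_assoc]
          exact Nat.mul_mod_right _ _
        omega
      · have h2 : 2 ^ (s + 1) * z1 = (2 ^ s * z1) * 2 := by ring
        rw [h2, pow_mul, he, ← Nat.add_assoc, hee]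
        ring
  obtain ⟨m, hm, he⟩ := key s
  refine ⟨s, z1, m, hzs, by omega, hm, ?_⟩
  rw [hzs]
  exact he

theorem TriG_eq {a b e m m' : ℕ} (hm : m % 2 = 1) (hm' : m' % 2 = 1) (hb : b < e)
    (h : 2 ^ a * m ≡ 2 ^ b * m' [MOD 2 ^ e]) : a = b := by
  rcases Nat.lt_trichotomy a b with hlt | heq | hgt
  · exfalso
    have d1 : 2 ^ (a + 1) ∣ 2 ^ e := pow_dvd_pow 2 (by omega)
    have c8 := Nat.ModEq.of_dvd d1 h
    have d2 : 2 ^ (a + 1) ∣ 2 ^ b * m' := Dvd.dvd.mul_right (pow_dvd_pow 2 (by omega)) m'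
    have d3 : 2 ^ (a + 1) ∣ 2 ^ a * m := (Nat.ModEq.dvd_iff c8 dvd_rfl).mpr d2
    rw [pow_succ] at d3
    have d4 := Nat.dvd_of_mul_dvd_mul_left (pow_pos (by norm_num) _) d3
    omega
  · exact heq
  · exfalso
    have d1 : 2 ^ (b + 1) ∣ 2 ^ e := pow_dvd_pow 2 (by omega)
    have c8 := Nat.ModEq.of_dvd d1 h
    have d2 : 2 ^ (b + 1) ∣ 2 ^ a * m := Dvd.dvd.mul_right (pow_dvd_pow 2 (by omega)) m
    have d3 : 2 ^ (b + 1) ∣ 2 ^ b * m' := (Nat.ModEq.dvd_iff c8 dvd_rfl).mp d2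
    rw [pow_succ] at d3
    have d4 := Nat.dvd_of_mul_dvd_mul_left (pow_pos (by norm_num) _) d3
    omega

theorem tri_gen {p q i j c d z : ℕ} (hp : p.Prime) (hp8 : p % 8 = 1) (hi : 1 ≤ i) (hj : 1 ≤ j)
    (hz : 1 ≤ z) (hq : q = 4 ^ i + p ^ (2 * j)) (hd : d % 2 = 1) (h : 2 ^ c + p ^ d = q ^ z) :
    (4 ^ i ∣ p - 1 ∧ ∀ t, 2 ^ t ∣ p - 1 → 2 ^ t ≤ 4 ^ i * z) ∨
      (2 ^ c ∣ p - 1 ∧ 2 * j * z + 1 ≤ d ∧ (4 ^ i < p ∨ ∀ t, 2 ^ t ∣ p - 1 → t ≤ c)) := by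
  have hp2 : 2 ≤ p := hp.two_le
  have hp9 : 9 ≤ p := by omega
  obtain ⟨t, m, hm, hpm⟩ := Nat.exists_eq_two_pow_mul_odd (n := p - 1) (by omega)
  have hm2 : m % 2 = 1 := Nat.odd_iff.mp hm
  have h4 : (4 : ℕ) ^ i = 2 ^ (2 * i) := TriG_four i
  obtain ⟨s, z1, m', hzs, hz1, hm', hlte⟩ := TriG_lte hi hz
  have hle : ∀ u, 2 ^ u ∣ p - 1 → u ≤ t := by
    intro u hu
    by_contra hlt
    push Not at hlt
    have h1 : 2 ^ (t + 1) ∣ 2 ^ t * m := by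
      rw [← hpm]
      exact (pow_dvd_pow 2 hlt).trans hu
    rw [pow_succ] at h1
    have h2 := Nat.dvd_of_mul_dvd_mul_left (pow_pos (by norm_num) _) h1
    omega
  have e1' : p = 2 ^ t * m + 1 := by omega
  rcases Nat.lt_or_ge t c with hc | hc
  · left
    have c1 : p ^ 2 ≡ 1 [MOD 2 ^ (t + 1)] := by
      have hdv : 2 ^ (t + 1) ∣ p ^ 2 - 1 := by
        have e2 : p ^ 2 - 1 = (p + 1) * (p - 1) := by
          rw [← Nat.sq_sub_sq, one_pow]
        rw [e2, hpm]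
        obtain ⟨k, hk⟩ : 2 ∣ p + 1 := by omega
        exact ⟨k * m, by rw [hk, pow_succ]; ring⟩
      exact ((Nat.modEq_iff_dvd' (Nat.one_le_pow _ _ (by omega))).mpr hdv).symm
    have c2 : p ^ (2 * j) ≡ 1 [MOD 2 ^ (t + 1)] := by
      have := c1.pow j
      rwa [← pow_mul, one_pow] at this
    have c3 : p ^ d ≡ p [MOD 2 ^ (t + 1)] := by
      obtain ⟨k, hk⟩ : ∃ k, d = 2 * k + 1 := ⟨d / 2, by omega⟩
      have := (c1.pow k).mul_right p
      rw [← pow_mul, one_pow, one_mul, ← pow_succ, ← hk] at this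
      exact this
    have c4 : 2 ^ c ≡ 0 [MOD 2 ^ (t + 1)] := by
      rw [Nat.modEq_zero_iff_dvd]
      exact pow_dvd_pow 2 hc
    have c5 : q ≡ 4 ^ i + 1 [MOD 2 ^ (t + 1)] := by
      rw [hq]
      exact c2.add_left _
    have c6 : (4 ^ i + 1) ^ z ≡ p [MOD 2 ^ (t + 1)] := by
      have h1 : q ^ z ≡ (4 ^ i + 1) ^ z [MOD 2 ^ (t + 1)] := c5.pow z
      have h2 : 2 ^ c + p ^ d ≡ 0 + p [MOD 2 ^ (t + 1)] := c4.add c3
      rw [h, zero_add] at h2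
      exact h1.symm.trans h2
    have c6' : 2 ^ (2 * i + s) * m' + 1 ≡ 2 ^ t * m + 1 [MOD 2 ^ (t + 1)] := by
      rw [← e1', ← hlte]
      exact c6
    have c7 : 2 ^ (2 * i + s) * m' ≡ 2 ^ t * m [MOD 2 ^ (t + 1)] :=
      Nat.ModEq.add_right_cancel' 1 c6'
    have hit : 2 * i + s = t := TriG_eq hm' hm2 (Nat.lt_succ_self t) c7
    refine ⟨?_, ?_⟩
    · rw [h4, hpm]
      exact Dvd.dvd.mul_right (pow_dvd_pow 2 (by omega)) m
    · intro u hu
      have h1 : 2 ^ u ≤ 2 ^ t := Nat.pow_le_pow_right (by norm_num) (hle u hu)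
      have h2 : 2 ^ t = 4 ^ i * 2 ^ s := by
        rw [h4, ← pow_add, hit]
      have h3 : 2 ^ s ≤ z := by
        rw [hzs]
        exact Nat.le_mul_of_pos_right _ hz1
      calc 2 ^ u ≤ 2 ^ t := h1
        _ = 4 ^ i * 2 ^ s := h2
        _ ≤ 4 ^ i * z := Nat.mul_le_mul_left _ h3
  · right
    have hdv : 2 ^ c ∣ p - 1 := by
      rw [hpm]
      exact Dvd.dvd.mul_right (pow_dvd_pow 2 hc) m
    have h5 : 2 ^ c ≤ p - 1 := Nat.le_of_dvd (by omega) hdv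
    refine ⟨hdv, ?_, ?_⟩
    · by_contra hlt
      push Not at hlt
      have hjz : 1 ≤ j * z := Nat.mul_pos hj hz
      have hd2 : d ≤ 2 * (j * z) - 1 := by
        have : 2 * j * z = 2 * (j * z) := by ring
        omega
      have h1 : p ^ d ≤ p ^ (2 * (j * z) - 1) := Nat.pow_le_pow_right (by omega) hd2
      have h2 : p ^ (2 * (j * z)) ≤ q ^ z := by
        have : p ^ (2 * (j * z)) = (p ^ (2 * j)) ^ z := by
          rw [← pow_mul]
          congr 1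
          ring
        rw [this]
        apply Nat.pow_le_pow_left
        rw [hq]
        exact Nat.le_add_left _ _
      have h3 : p ^ (2 * (j * z)) = p ^ (2 * (j * z) - 1) * p := by
        rw [← pow_succ]
        congr 1
        omega
      have h4' : p ^ 1 ≤ p ^ (2 * (j * z) - 1) := Nat.pow_le_pow_right (by omega) (by omega)
      rw [pow_one] at h4'
      set A := p ^ (2 * (j * z) - 1) with hA
      have h6 : A * p ≤ 2 ^ c + A := by
        rw [← h3]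
        omega
      have h7 : A * p ≤ (p - 1) + A := by omega
      obtain ⟨e, he⟩ : ∃ e, p = e + 2 := ⟨p - 2, by omega⟩
      rw [he] at h7 h4'
      have h8 : e + 2 - 1 = e + 1 := by omega
      rw [h8] at h7
      nlinarith
    · rcases Nat.lt_or_ge c t with hct | hct
      · left
        have c0 : p ≡ 1 [MOD 2 ^ t] := by
          have h1 : 2 ^ t ∣ p - 1 := by
            rw [hpm]
            exact Dvd.intro m rfl
          exact ((Nat.modEq_iff_dvd' (by omega)).mpr h1).symm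
        have c2 : p ^ (2 * j) ≡ 1 [MOD 2 ^ t] := by
          have := c0.pow (2 * j)
          rwa [one_pow] at this
        have c3 : p ^ d ≡ 1 [MOD 2 ^ t] := by
          have := c0.pow d
          rwa [one_pow] at this
        have c5 : q ≡ 4 ^ i + 1 [MOD 2 ^ t] := by
          rw [hq]
          exact c2.add_left _
        have c6 : (4 ^ i + 1) ^ z ≡ 2 ^ c + 1 [MOD 2 ^ t] := by
          have h1 : q ^ z ≡ (4 ^ i + 1) ^ z [MOD 2 ^ t] := c5.pow z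
          have h2 : 2 ^ c + p ^ d ≡ 2 ^ c + 1 [MOD 2 ^ t] := c3.add_left _
          rw [h] at h2
          exact h1.symm.trans h2
        rw [hlte] at c6
        have c7 : 2 ^ (2 * i + s) * m' ≡ 2 ^ c * 1 [MOD 2 ^ t] := by
          rw [mul_one]
          exact Nat.ModEq.add_right_cancel' 1 c6
        have hic : 2 * i + s = c := TriG_eq hm' (by norm_num) hct c7
        have h6 : 4 ^ i ≤ 2 ^ c := by
          rw [h4]
          exact Nat.pow_le_pow_right (by norm_num) (by omega)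
        omega
      · right
        intro u hu
        exact (hle u hu).trans hct

theorem TriG_sum2_odd (a b : ℕ) (ha : a % 2 = 1) (hb : b % 2 = 1) (n m : ℕ) :
    (∑ k ∈ Finset.range n, a ^ k * b ^ (m - k)) % 2 = n % 2 := by
  induction n with
  | zero => simp
  | succ n ih =>
    rw [Finset.sum_range_succ, Nat.add_mod, ih]
    have h1 : a ^ n * b ^ (m - n) % 2 = 1 := by
      rw [Nat.mul_mod, Nat.pow_mod a, Nat.pow_mod b, ha, hb]
      simp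
    rw [h1]
    omega

theorem cop_gen {p q c d z : ℕ} (hp : p % 2 = 1) (hq : q % 2 = 1) (hp2 : 2 ≤ p) (hq2 : 2 ≤ q)
    (hd : d % 2 = 1) (hz : 1 ≤ z) (h : 2 ^ c + p ^ d = q ^ z) : z.Coprime d := by
  obtain ⟨g, hg⟩ : ∃ g, g = Nat.gcd z d := ⟨_, rfl⟩
  obtain ⟨z', hz'⟩ : g ∣ z := hg ▸ Nat.gcd_dvd_left z d
  obtain ⟨d', hd'⟩ : g ∣ d := hg ▸ Nat.gcd_dvd_right z d
  show Nat.gcd z d = 1
  rw [← hg]
  by_contra hg1
  have hg0 : g ≠ 0 := by
    intro h0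
    rw [h0, zero_mul] at hz'
    omega
  have hgodd : g % 2 = 1 := by
    by_contra h2
    have h3 : g % 2 = 0 := by omega
    have : d % 2 = 0 := by
      rw [hd', Nat.mul_mod, h3]
      simp
    omega
  have hg3 : 3 ≤ g := by omega
  have hz1 : 1 ≤ z' := by
    rcases Nat.eq_zero_or_pos z' with h0 | h0
    · rw [h0, mul_zero] at hz'
      omega
    · exact h0
  set Q := q ^ z' with hQ
  set R := p ^ d' with hR
  have hQg : q ^ z = Q ^ g := by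
    rw [hQ, ← pow_mul, hz', mul_comm]
  have hRg : p ^ d = R ^ g := by
    rw [hR, ← pow_mul, hd', mul_comm]
  rw [hQg, hRg] at h
  have hQ2 : 2 ≤ Q := by
    calc 2 ≤ q := hq2
      _ = q ^ 1 := (pow_one q).symm
      _ ≤ q ^ z' := Nat.pow_le_pow_right (by omega) hz1
  have hQodd : Q % 2 = 1 := by
    rw [hQ, Nat.pow_mod, hq]
    simp
  have hRodd : R % 2 = 1 := by
    rw [hR, Nat.pow_mod, hp]
    simp
  set S := ∑ k ∈ Finset.range g, Q ^ k * R ^ (g - 1 - k) with hS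
  have hSodd : S % 2 = 1 := by
    rw [hS, TriG_sum2_odd Q R hQodd hRodd g (g - 1), hgodd]
  have hid : (S : ℤ) * ((Q : ℤ) - R) = 2 ^ c := by
    have h1 := geom_sum₂_mul (Q : ℤ) (R : ℤ) g
    have h2 : ((S : ℕ) : ℤ) = ∑ k ∈ Finset.range g, (Q : ℤ) ^ k * (R : ℤ) ^ (g - 1 - k) := by
      rw [hS]
      push_cast
      rfl
    rw [h2, h1]
    have h3 : ((2 : ℤ) ^ c + (R : ℤ) ^ g) = (Q : ℤ) ^ g := by exact_mod_cast h
    linarith
  have hdv : S ∣ 2 ^ c := by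
    have : (S : ℤ) ∣ ((2 ^ c : ℕ) : ℤ) := ⟨(Q : ℤ) - R, by push_cast; exact hid.symm⟩
    exact Int.natCast_dvd_natCast.mp this
  have hcop : Nat.Coprime S (2 ^ c) := by
    apply Nat.Coprime.pow_right
    exact Nat.Coprime.symm ((Nat.coprime_two_left).mpr (Nat.odd_iff.mpr hSodd))
  have hS1 : S = 1 := Nat.Coprime.eq_one_of_dvd hcop hdv
  have hge : Q ^ (g - 1) ≤ S := by
    rw [hS]
    have h1 : g - 1 ∈ Finset.range g := Finset.mem_range.mpr (by omega)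
    have h2 := Finset.single_le_sum (f := fun k => Q ^ k * R ^ (g - 1 - k))
      (fun k _ => Nat.zero_le _) h1
    simpa using h2
  have h9 : 2 ^ 1 ≤ Q ^ (g - 1) := by
    calc 2 ^ 1 ≤ 2 ^ (g - 1) := Nat.pow_le_pow_right (by norm_num) (by omega)
      _ ≤ Q ^ (g - 1) := Nat.pow_le_pow_left hQ2 _
  omega

theorem TriG_expand (v : ℤ) (n : ℕ) :
    ∃ k : ℤ, (v - 1) ^ n = (-1) ^ n * (1 - n * v) + v ^ 2 * k := by
  induction n with
  | zero => exact ⟨0, by simp⟩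
  | succ n ih =>
    obtain ⟨k, hk⟩ := ih
    refine ⟨k * (v - 1) - (-1) ^ n * n, ?_⟩
    rw [pow_succ, hk, pow_succ]
    push_cast
    ring

theorem p_seven {p q i j c d z : ℕ} (hp : p % 8 = 7) (hi : 1 ≤ i) (hj : 1 ≤ j) (hc : 1 ≤ c)
    (hz : z % 2 = 0) (hz1 : 1 ≤ z) (hd : d % 2 = 1) (hq : q = 4 ^ i + p ^ (2 * j))
    (h : 2 ^ c + p ^ d = q ^ z) : c = 1 ∧ 4 ^ i ∣ p + 1 ∧ 2 * j * z + 1 ≤ d := by
  have h4i : 4 ^ i % 2 = 0 := by
    obtain ⟨k, hk⟩ : ∃ k, i = k + 1 := ⟨i - 1, by omega⟩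
    rw [hk, pow_succ]
    omega
  have hpj : p ^ (2 * j) % 2 = 1 := by
    have : p % 2 = 1 := by omega
    rw [Nat.pow_mod, this]
    simp
  have hqo : q % 2 = 1 := by omega
  have hsq : ∀ a : ℕ, a % 2 = 1 → a ^ 2 % 8 = 1 := by
    intro a ha
    rw [Nat.pow_mod]
    have h8 : a % 8 < 8 := Nat.mod_lt _ (by norm_num)
    have h9 : a % 8 % 2 = 1 := by omega
    interval_cases h10 : a % 8 <;> simp_all
  have hqz : q ^ z % 8 = 1 := by
    obtain ⟨k, hk⟩ : ∃ k, z = 2 * k := ⟨z / 2, by omega⟩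
    rw [hk, pow_mul, Nat.pow_mod, hsq q hqo]
    simp
  have hpd : p ^ d % 8 = 7 := by
    obtain ⟨k, hk⟩ : ∃ k, d = 2 * k + 1 := ⟨d / 2, by omega⟩
    rw [hk, pow_succ, pow_mul, Nat.mul_mod, Nat.pow_mod, hsq p (by omega), hp]
    simp
  have hc1 : c = 1 := by
    by_contra hne
    rcases Nat.lt_or_ge c 3 with h3 | h3
    · have hc2 : c = 2 := by omega
      rw [hc2] at h
      omega
    · obtain ⟨k, hk⟩ : ∃ k, c = 3 + k := ⟨c - 3, by omega⟩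
      have h8 : 2 ^ c % 8 = 0 := by
        rw [hk, pow_add]
        exact Nat.mul_mod_right _ _
      omega
  subst hc1
  rw [pow_one] at h
  refine ⟨rfl, ?_, ?_⟩
  · obtain ⟨k1, hk1⟩ := TriG_expand ((p : ℤ) + 1) (2 * j * z)
    obtain ⟨k2, hk2⟩ := TriG_expand ((p : ℤ) + 1) d
    have e1 : ((-1 : ℤ)) ^ (2 * j * z) = 1 := by
      rw [mul_assoc, pow_mul]
      norm_num
    have e2 : ((-1 : ℤ)) ^ d = -1 := by
      obtain ⟨k, hk⟩ : ∃ k, d = 2 * k + 1 := ⟨d / 2, by omega⟩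
      rw [hk, pow_succ, pow_mul]
      norm_num
    rw [e1, add_sub_cancel_right] at hk1
    rw [e2, add_sub_cancel_right] at hk2
    have hz' : (2 : ℤ) + (p : ℤ) ^ d = ((4 : ℤ) ^ i + (p : ℤ) ^ (2 * j)) ^ z := by
      rw [hq] at h
      exact_mod_cast h
    have hdv : (4 : ℤ) ^ i ∣ ((4 : ℤ) ^ i + (p : ℤ) ^ (2 * j)) ^ z - ((p : ℤ) ^ (2 * j)) ^ z := by
      have h1 := sub_dvd_pow_sub_pow ((4 : ℤ) ^ i + (p : ℤ) ^ (2 * j)) ((p : ℤ) ^ (2 * j)) z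
      rwa [add_sub_cancel_right] at h1
    rw [← hz', ← pow_mul, hk1, hk2] at hdv
    have hfac : (2 : ℤ) + (-1 * (1 - (d : ℤ) * ((p : ℤ) + 1)) + ((p : ℤ) + 1) ^ 2 * k2) -
        (1 * (1 - ((2 * j * z : ℕ) : ℤ) * ((p : ℤ) + 1)) + ((p : ℤ) + 1) ^ 2 * k1) =
        ((p : ℤ) + 1) * ((d : ℤ) + ((2 * j * z : ℕ) : ℤ) + ((p : ℤ) + 1) * (k2 - k1)) := by
      ring
    rw [hfac] at hdv
    obtain ⟨w, hw⟩ : ∃ w : ℤ, (d : ℤ) + ((2 * j * z : ℕ) : ℤ) + ((p : ℤ) + 1) * (k2 - k1) =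
        2 * w + 1 := by
      obtain ⟨a, ha⟩ : ∃ a : ℕ, d = 2 * a + 1 := ⟨d / 2, by omega⟩
      obtain ⟨b, hb⟩ : ∃ b : ℕ, p + 1 = 2 * b := ⟨(p + 1) / 2, by omega⟩
      have hb' : (p : ℤ) + 1 = 2 * b := by exact_mod_cast hb
      refine ⟨a + j * z + b * (k2 - k1), ?_⟩
      rw [hb', ha]
      push_cast
      ring
    rw [hw] at hdv
    have hcop : IsCoprime ((4 : ℤ) ^ i) (2 * w + 1) := by
      have h1 : IsCoprime (4 : ℤ) (2 * w + 1) := by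
        have h2 : IsCoprime (2 : ℤ) (2 * w + 1) := ⟨-w, 1, by ring⟩
        have h3 : (4 : ℤ) = 2 * 2 := by norm_num
        rw [h3]
        exact h2.mul_left h2
      exact h1.pow_left
    have h5 : (4 : ℤ) ^ i ∣ (p : ℤ) + 1 := hcop.dvd_of_dvd_mul_right hdv
    have h6 : ((4 ^ i : ℕ) : ℤ) ∣ ((p + 1 : ℕ) : ℤ) := by
      push_cast
      exact h5
    exact Int.natCast_dvd_natCast.mp h6
  · obtain ⟨z', hz'⟩ : ∃ z', z = z' + 1 := ⟨z - 1, by omega⟩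
    set a := p ^ (2 * j) with ha
    have ha1 : 1 ≤ a := Nat.one_le_pow _ _ (by omega)
    have h4 : 4 ≤ 4 ^ i := by
      calc 4 = 4 ^ 1 := by norm_num
        _ ≤ 4 ^ i := Nat.pow_le_pow_right (by norm_num) hi
    have h1 : a ^ z + 4 ≤ q ^ z := by
      rw [hz', pow_succ, pow_succ]
      have h2 : a ^ z' ≤ q ^ z' := Nat.pow_le_pow_left (by omega) _
      have h3 : 1 ≤ a ^ z' := Nat.one_le_pow _ _ ha1
      have h5 : a + 4 ≤ q := by omega
      calc a ^ z' * a + 4 ≤ a ^ z' * a + a ^ z' * 4 := by omega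
        _ = a ^ z' * (a + 4) := by ring
        _ ≤ q ^ z' * q := Nat.mul_le_mul h2 h5
    have h2 : p ^ (2 * j * z) < p ^ d := by
      have h3 : p ^ (2 * j * z) = a ^ z := by
        rw [ha, ← pow_mul]
      rw [h3]
      omega
    exact (Nat.pow_lt_pow_iff_right (by omega)).mp h2

end Pool.Agent.H91.CB
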