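import Pool.Agent.H91.CA.Lfl2
import Pool.Agent.H91.CA.Asy

/-!
JOB CB-08 (bound for `z` when `2^c < p`, and the size contradiction, about 100-140 lines; uses the finished
theorems `lfl_arch`, `L_cond`; compare the finished files `CA/ZLe.lean`, `CA/RLe.lean` (`beta_z`),
`CA/CaseN.lean` (`case_b1`)).

`z_le_core2`.  `t = log q ≥ 200`, `x = z t`.  `z log q - d log p = log (1 + 2^c/p^d)` is between `0` and
`2^c/p^d ≤ 2 * 2^c/q^z < 2p/q^z` (`2^c < p ≤ p^d`, so `q^z ≤ 2 p^d`).  `lfl_arch` with `a = q`, `b = p`, `u = z`,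
`v = d`, `E = F = ⌈t⌉₊ ≤ 2t`, `B = max z d ≤ x` (`d log p < z t`, `log p ≥ 1`), `L = ⌈100 log x⌉₊ ≤ 101 log x`
(`L_cond`, `E F B ≤ 4 t² x ≤ x^9`): with `S = 2500 L² E F ≤ S' = 10^4 (101 log x)² t²`,
`exp(-2S) ≤ 2p/q^z`, so `z t ≤ log (2p) + 2S ≤ t + 1 + 2S' ≤ 3 S'²`.

`case_b2`: `z * 4^i > p^(2j) log p` and `4^i ≤ p + 1`, so `z > p^(2j) log p/(p+1) ≥ p^(2j-1)` (`p ≥ 17`,
`log p ≥ 2.8`), `p^(2j-1) ≥ p^j ≥ exp(t/2)/2` (`p^(2j) ≥ q/4`, as `4^i ≤ p + 1 ≤ 3 p^(2j)`), and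
`exp(t/2)/2 ≥ 16 t^10 > t^4`.
-/

namespace Pool.Agent.H91.CB

open Pool.Agent.H91.CA

theorem ZLe2_exp5 : Real.exp 5 ≤ 200 := by
  have h1 : Real.exp 5 = Real.exp 1 ^ 5 := by
    rw [← Real.exp_nat_mul]
    norm_num
  have h2 : Real.exp 1 < 2.7182818286 := Real.exp_one_lt_d9
  have h3 : (0 : ℝ) < Real.exp 1 := Real.exp_pos 1
  rw [h1]
  calc Real.exp 1 ^ 5 ≤ (2.72 : ℝ) ^ 5 := pow_le_pow_left₀ h3.le (by linarith) 5
    _ ≤ 200 := by norm_num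

theorem ZLe2_arch {p q z d c : ℕ} {S : ℝ} (hp : 0 < p) (hq : 0 < q)
    (h : 2 ^ c + p ^ d = q ^ z) (hlt : 2 ^ c < p ^ d)
    (hS : Real.exp (-(2 * S)) ≤ |(z : ℝ) * Real.log q - d * Real.log p|) :
    z * Real.log q ≤ Real.log 2 + (c * Real.log 2 + 2 * S) := by
  have hp0 : (0 : ℝ) < p := by exact_mod_cast hp
  have hq0 : (0 : ℝ) < q := by exact_mod_cast hq
  have hpd : (0 : ℝ) < (p : ℝ) ^ d := by positivity
  have hqz : (0 : ℝ) < (q : ℝ) ^ z := by positivity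
  have h2c : (0 : ℝ) < (2 : ℝ) ^ c := by positivity
  have hr : (2 : ℝ) ^ c + (p : ℝ) ^ d = (q : ℝ) ^ z := by exact_mod_cast h
  have hltr : (2 : ℝ) ^ c < (p : ℝ) ^ d := by exact_mod_cast hlt
  have e1 : (z : ℝ) * Real.log q = Real.log ((q : ℝ) ^ z) := by rw [Real.log_pow]
  have e2 : (d : ℝ) * Real.log p = Real.log ((p : ℝ) ^ d) := by rw [Real.log_pow]
  have e3 : (z : ℝ) * Real.log q - d * Real.log p = Real.log ((q : ℝ) ^ z / (p : ℝ) ^ d) := by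
    rw [Real.log_div hqz.ne' hpd.ne', e1, e2]
  have h3 : (q : ℝ) ^ z / (p : ℝ) ^ d = 1 + (2 : ℝ) ^ c / (p : ℝ) ^ d := by
    rw [← hr]
    field_simp
    ring
  have h4 : 0 < (2 : ℝ) ^ c / (p : ℝ) ^ d := by positivity
  have h5 : |(z : ℝ) * Real.log q - d * Real.log p| ≤ (2 : ℝ) ^ c / (p : ℝ) ^ d := by
    rw [e3, h3, abs_of_nonneg (Real.log_nonneg (by linarith))]
    have := Real.log_le_sub_one_of_pos (show (0 : ℝ) < 1 + (2 : ℝ) ^ c / (p : ℝ) ^ d by linarith)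
    linarith
  have h6 : -(2 * S) ≤ c * Real.log 2 - d * Real.log p := by
    have h7 : -(2 * S) ≤ Real.log ((2 : ℝ) ^ c / (p : ℝ) ^ d) := by
      rw [Real.le_log_iff_exp_le h4]
      exact hS.trans h5
    rw [Real.log_div h2c.ne' hpd.ne', Real.log_pow, Real.log_pow] at h7
    exact h7
  have h8 : (z : ℝ) * Real.log q ≤ Real.log 2 + d * Real.log p := by
    rw [e1, e2, ← Real.log_mul (by norm_num) hpd.ne']
    apply Real.log_le_log hqz
    linarith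
  linarith

theorem ZLe2_core_aux {t : ℝ} {L E : ℕ} {S : ℝ} (ht : 200 ≤ t) (hEt : t ≤ E) (hL : (500 : ℝ) ≤ L)
    (hS : S = 2500 * (L : ℝ) ^ 2 * E * E) : t ≤ S := by
  have hE1 : (1 : ℝ) ≤ E := by linarith
  have h1 : (1 : ℝ) ≤ (L : ℝ) ^ 2 := by nlinarith
  have h2 : (E : ℝ) ≤ (E : ℝ) * E := by nlinarith
  have h3 : 2500 * (L : ℝ) ^ 2 * E * E = 2500 * ((L : ℝ) ^ 2 * (E * E)) := by ring
  have h4 : (E : ℝ) * E ≤ (L : ℝ) ^ 2 * (E * E) := by
    have : (0 : ℝ) ≤ (E : ℝ) * E := by positivity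
    nlinarith
  rw [hS, h3]
  linarith

theorem z_le_core2 {p q z d c : ℕ} (hp : 3 ≤ p) (hpq : p < q) (hcop : q.Coprime p) (hz : 1 ≤ z)
    (hd : 1 ≤ d) (h : 2 ^ c + p ^ d = q ^ z) (hc : 2 ^ c < p) (hlam : 200 ≤ Real.log q) :
    z * Real.log q ≤
      3 * (10 ^ 4 * (101 * Real.log (z * Real.log q)) ^ 2 * (Real.log q) ^ 2) ^ 2 := by
  have hp0 : (0 : ℝ) < p := by
    have : 0 < p := by omega
    exact_mod_cast this
  have hq0 : (0 : ℝ) < q := by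
    have : 0 < q := by omega
    exact_mod_cast this
  set t := Real.log q with ht
  have hz' : (1 : ℝ) ≤ z := by exact_mod_cast hz
  set x := (z : ℝ) * t with hx
  have htx : t ≤ x := by
    rw [hx]
    nlinarith
  have hx200 : 200 ≤ x := by linarith
  have hlogx : 5 ≤ Real.log x := by
    rw [Real.le_log_iff_exp_le (by linarith)]
    exact le_trans ZLe2_exp5 hx200
  set E := ⌈t⌉₊ with hE
  have hEt : t ≤ E := Nat.le_ceil t
  have hEt2 : (E : ℝ) ≤ 2 * t := by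
    have := (Nat.ceil_lt_add_one (by linarith : (0 : ℝ) ≤ t)).le
    linarith
  have hE1 : 1 ≤ E := by
    have : (1 : ℝ) ≤ E := by linarith
    exact_mod_cast this
  have hlogp : 1 ≤ Real.log p := by
    rw [Real.le_log_iff_exp_le hp0]
    have h1 := Real.exp_one_lt_d9
    have h2 : (3 : ℝ) ≤ p := by exact_mod_cast hp
    linarith
  have hlogpq : Real.log p ≤ t := Real.log_le_log hp0 (by exact_mod_cast hpq.le)
  have hdx : (d : ℝ) ≤ x := by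
    have h1 : (p : ℝ) ^ d ≤ (q : ℝ) ^ z := by
      have : p ^ d ≤ q ^ z := by
        rw [← h]
        exact Nat.le_add_left _ _
      exact_mod_cast this
    have h2 := Real.log_le_log (by positivity) h1
    rw [Real.log_pow, Real.log_pow] at h2
    have h3 : (d : ℝ) ≤ d * Real.log p := by
      have : (0 : ℝ) ≤ d := Nat.cast_nonneg d
      nlinarith
    linarith
  have hzx : (z : ℝ) ≤ x := by
    rw [hx]
    nlinarith
  set B := max z d with hB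
  have hBx : (B : ℝ) ≤ x := by
    rw [hB, Nat.cast_max]
    exact max_le hzx hdx
  have hB1 : 1 ≤ B := le_trans hz (le_max_left _ _)
  have hEFB : (E : ℝ) * E * B ≤ x ^ 9 := by
    have hE0 : (0 : ℝ) ≤ E := Nat.cast_nonneg _
    have h1 : (E : ℝ) * E ≤ (2 * x) * (2 * x) :=
      mul_le_mul (by linarith) (by linarith) hE0 (by linarith)
    have h2 : (E : ℝ) * E * B ≤ (2 * x) * (2 * x) * x :=
      mul_le_mul h1 hBx (Nat.cast_nonneg _) (by nlinarith)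
    have h3 : (4 : ℝ) ≤ x ^ 6 := by
      calc (4 : ℝ) ≤ 200 ^ 6 := by norm_num
        _ ≤ x ^ 6 := pow_le_pow_left₀ (by norm_num) hx200 6
    have h4 : (0 : ℝ) ≤ x ^ 3 := by positivity
    calc (E : ℝ) * E * B ≤ (2 * x) * (2 * x) * x := h2
      _ = 4 * x ^ 3 := by ring
      _ ≤ x ^ 6 * x ^ 3 := mul_le_mul_of_nonneg_right h3 h4
      _ = x ^ 9 := by ring
  obtain ⟨hL, hL101⟩ := L_cond hlogx (by linarith) hE1 hE1 hB1 hEFB
  set L := ⌈100 * Real.log x⌉₊ with hLdef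
  have hL500 : (500 : ℝ) ≤ L := by
    have := Nat.le_ceil (100 * Real.log x)
    linarith
  have hE1' : (1 : ℝ) ≤ E := by exact_mod_cast hE1
  set S := 2500 * (L : ℝ) ^ 2 * E * E with hS
  have hSt : t ≤ S := ZLe2_core_aux hlam hEt hL500 hS
  have hSS : S ≤ 10 ^ 4 * (101 * Real.log x) ^ 2 * t ^ 2 := by
    rw [hS]
    have hE0 : (0 : ℝ) ≤ E := Nat.cast_nonneg _
    have h1 : (L : ℝ) ^ 2 ≤ (101 * Real.log x) ^ 2 := pow_le_pow_left₀ (by linarith) hL101 2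
    have h2 : (E : ℝ) * E ≤ 4 * t ^ 2 := by nlinarith
    calc 2500 * (L : ℝ) ^ 2 * E * E = 2500 * ((L : ℝ) ^ 2 * (E * E)) := by ring
      _ ≤ 2500 * ((101 * Real.log x) ^ 2 * (4 * t ^ 2)) := by
          apply mul_le_mul_of_nonneg_left _ (by norm_num)
          exact mul_le_mul h1 h2 (by positivity) (by positivity)
      _ = 10 ^ 4 * (101 * Real.log x) ^ 2 * t ^ 2 := by ring
  have hSS2 : S ^ 2 ≤ (10 ^ 4 * (101 * Real.log x) ^ 2 * t ^ 2) ^ 2 :=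
    pow_le_pow_left₀ (by linarith) hSS 2
  have hlog2 : Real.log 2 ≤ 1 := by
    have := Real.log_two_lt_d9
    linarith
  have hc2 : (c : ℝ) * Real.log 2 ≤ t := by
    have h1 : (2 : ℝ) ^ c ≤ p := by exact_mod_cast hc.le
    have h2 := Real.log_le_log (by positivity) h1
    rw [Real.log_pow] at h2
    linarith
  have hlt : 2 ^ c < p ^ d := lt_of_lt_of_le hc (Nat.le_self_pow (by omega) p)
  have h1 := lfl_arch hcop (by omega) (by omega) hz hd (le_max_left z d) (le_max_right z d)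
      hEt (hlogpq.trans hEt) hE1 hE1 hL
  have h2 : 5000 * (L : ℝ) ^ 2 * E * E = 2 * S := by
    rw [hS]
    ring
  rw [h2] at h1
  have h3 := ZLe2_arch (by omega) (by omega) h hlt h1
  nlinarith

theorem ZLe2_exp_half {p i j : ℕ} {t : ℝ} (hp17 : 17 ≤ p) (hj : 1 ≤ j) (h4 : 4 ^ i ≤ p + 1)
    (ht : t = Real.log ((4 : ℝ) ^ i + (p : ℝ) ^ (2 * j))) : Real.exp (t / 2) ≤ 2 * (p : ℝ) ^ j := by
  have hp : (17 : ℝ) ≤ p := by exact_mod_cast hp17
  have h4' : (4 : ℝ) ^ i ≤ p + 1 := by exact_mod_cast h4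
  have hpj : (p : ℝ) ≤ (p : ℝ) ^ j := le_self_pow₀ (by linarith) (by omega)
  have hsq : Real.exp (t / 2) ^ 2 = (4 : ℝ) ^ i + (p : ℝ) ^ (2 * j) := by
    rw [← Real.exp_nat_mul]
    have : ((2 : ℕ) : ℝ) * (t / 2) = t := by push_cast; ring
    rw [this, ht, Real.exp_log (by positivity)]
  have h5 : (p : ℝ) ^ (2 * j) = ((p : ℝ) ^ j) ^ 2 := by rw [← pow_mul, mul_comm]
  apply le_of_sq_le_sq _ (by positivity)
  rw [hsq, h5, mul_pow]
  nlinarith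

theorem case_b2 {p i j z : ℕ} {t : ℝ} (hp17 : 17 ≤ p) (hj : 1 ≤ j) (h4 : 4 ^ i ≤ p + 1)
    (ht : t = Real.log ((4 : ℝ) ^ i + (p : ℝ) ^ (2 * j))) (hzt : (z : ℝ) ≤ t ^ 4)
    (h200 : 200 ≤ t) (hexp : 32 * t ^ 10 ≤ Real.exp (t / 2))
    (hlow : (p : ℝ) ^ (2 * j) * Real.log p < z * 4 ^ i) : False := by
  have hp : (17 : ℝ) ≤ p := by exact_mod_cast hp17
  have h4' : (4 : ℝ) ^ i ≤ p + 1 := by exact_mod_cast h4
  have hpj : (p : ℝ) ≤ (p : ℝ) ^ j := le_self_pow₀ (by linarith) (by omega)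
  have h1 := ZLe2_exp_half hp17 hj h4 ht
  have h2 : 16 * t ^ 10 ≤ (p : ℝ) ^ j := by linarith
  have h5 : (p : ℝ) ^ (2 * j) = (p : ℝ) ^ j * (p : ℝ) ^ j := by rw [← pow_add]; congr 1; omega
  have hlogp : 1 ≤ Real.log p := by
    rw [Real.le_log_iff_exp_le (by linarith)]
    have h1 := Real.exp_one_lt_d9
    linarith
  have ht0 : (0 : ℝ) ≤ t ^ 4 := by positivity
  have h6 : (z : ℝ) * 4 ^ i ≤ t ^ 4 * (p + 1) := mul_le_mul hzt h4' (by positivity) ht0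
  have h7 : (p : ℝ) * (16 * t ^ 10) ≤ (p : ℝ) ^ (2 * j) := by
    rw [h5]
    exact mul_le_mul hpj h2 (by positivity) (by positivity)
  have h8 : (p : ℝ) ^ (2 * j) ≤ (p : ℝ) ^ (2 * j) * Real.log p :=
    le_mul_of_one_le_right (by positivity) hlogp
  have h9 : t ^ 4 * ((p : ℝ) + 1) ≤ t ^ 4 * (2 * p) := mul_le_mul_of_nonneg_left (by linarith) ht0
  have h10 : (p : ℝ) * (16 * t ^ 10) < p * (2 * t ^ 4) := by linarith
  have h11 : 16 * t ^ 10 < 2 * t ^ 4 := lt_of_mul_lt_mul_left h10 (by linarith)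
  have h12 : (1 : ℝ) ≤ t ^ 6 := one_le_pow₀ (by linarith)
  have h13 : t ^ 10 = t ^ 4 * t ^ 6 := by ring
  rw [h13] at h11
  nlinarith

end Pool.Agent.H91.CB
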