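import Pool.Agent.H91.CA.ZLe
import Pool.Agent.H91.CA.RLe
import Pool.Agent.H91.CB.TayI
import Pool.Agent.H91.CB.TayJ
import Pool.Agent.H91.CB.Sel
import Pool.Agent.H91.CB.TriG
import Pool.Agent.H91.CB.ZLe2

/-! Assembly (helper91): bound for the 2-part of `p - 1`, and exclusion of `p ≡ 7 (mod 8)`. -/

namespace Pool.Agent.H91.CB

open Pool.Agent.H91.CA

/-- Choice of `K`: `64 n^4 ≤ K` for `n ≤ t^5`, `(log t)^3 ≤ K`, `log K ≤ 22 log t`. -/
theorem choose_K {t : ℝ} (h200 : 200 ≤ t) (hll : 5 ≤ Real.log t) :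
    ∃ K : ℕ, 8 ≤ K ∧ (∀ n : ℕ, (n : ℝ) ≤ t ^ 5 → 64 * n ^ 4 ≤ K) ∧ (Real.log t) ^ 3 ≤ K ∧
      Real.log K ≤ 22 * Real.log t := by
  have ht0 : (0 : ℝ) < t := by linarith
  have ht21 : (1 : ℝ) ≤ t ^ 21 := one_le_pow₀ (by linarith)
  refine ⟨⌈t ^ 21⌉₊, ?_, ?_, ?_, ?_⟩
  · have h1 : (200 : ℝ) ≤ t ^ 21 := by
      calc (200 : ℝ) ≤ t := h200
        _ = t ^ 1 := (pow_one t).symm
        _ ≤ t ^ 21 := pow_le_pow_right₀ (by linarith) (by norm_num)
    have h2 : (8 : ℝ) ≤ (⌈t ^ 21⌉₊ : ℝ) := le_trans (by linarith) (Nat.le_ceil _)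
    exact_mod_cast h2
  · intro n hn
    have h1 : (64 : ℝ) * (n : ℝ) ^ 4 ≤ t ^ 21 := by
      calc (64 : ℝ) * (n : ℝ) ^ 4 ≤ t * (t ^ 5) ^ 4 := by
            have : (n : ℝ) ^ 4 ≤ (t ^ 5) ^ 4 := pow_le_pow_left₀ (Nat.cast_nonneg _) hn 4
            exact mul_le_mul (by linarith) this (by positivity) ht0.le
        _ = t ^ 21 := by ring
    have h2 : ((64 * n ^ 4 : ℕ) : ℝ) ≤ (⌈t ^ 21⌉₊ : ℝ) := by
      push_cast
      exact h1.trans (Nat.le_ceil _)
    exact_mod_cast h2
  · have h1 : Real.log t ≤ t := by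
      have := Real.log_le_sub_one_of_pos ht0
      linarith
    calc (Real.log t) ^ 3 ≤ t ^ 3 := pow_le_pow_left₀ (by linarith) h1 3
      _ ≤ t ^ 21 := pow_le_pow_right₀ (by linarith) (by norm_num)
      _ ≤ _ := Nat.le_ceil _
  · have h1 : (⌈t ^ 21⌉₊ : ℝ) ≤ t ^ 22 := by
      have h2 : (⌈t ^ 21⌉₊ : ℝ) < t ^ 21 + 1 := Nat.ceil_lt_add_one (by positivity)
      have h3 : t ^ 21 + 1 ≤ t ^ 22 := by
        have : t ^ 22 = t ^ 21 * t := by ring
        rw [this]
        nlinarith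
      linarith
    have h0 : (0 : ℝ) < (⌈t ^ 21⌉₊ : ℝ) := lt_of_lt_of_le (by linarith) (Nat.le_ceil _)
    calc Real.log (⌈t ^ 21⌉₊ : ℝ) ≤ Real.log (t ^ 22) := Real.log_le_log h0 h1
      _ = 22 * Real.log t := by rw [Real.log_pow]; norm_num

theorem coreB : ∃ T : ℝ, ∀ p q i j c d z : ℕ, p.Prime → q.Prime → p % 8 = 1 → 1 ≤ i → 1 ≤ j →
    q = 4 ^ i + p ^ (2 * j) → d % 2 = 1 → 1 ≤ z →
    2 ^ c + p ^ d = q ^ z → T ≤ Real.log q →
    ∀ s : ℕ, 2 ^ s ∣ p - 1 → (s : ℝ) ^ 2 ≤ 400 * Real.log p * Real.log (Real.log q) := by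
  obtain ⟨T, hT⟩ := asym
  refine ⟨T, fun p q i j c d z hp hq h8 hi hj hqe hd hz1 h hlarge s hs => ?_⟩
  obtain ⟨hlog, h200, hexp, hfin, hzb⟩ := hT _ hlarge
  set t := Real.log q with ht
  have hll : (5 : ℝ) ≤ Real.log t := le_trans (by norm_num) hlog
  have hp17 : 17 ≤ p := by
    rcases Nat.lt_or_ge p 17 with hlt | hge
    · have h1 : p = 1 ∨ p = 9 := by omega
      rcases h1 with h1 | h1
      · exact absurd (h1 ▸ hp) (by norm_num)
      · exact absurd (h1 ▸ hp) (by norm_num)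
    · exact hge
  have hp2 : 2 ≤ p := hp.two_le
  have hpq : p < q := by
    have h1 : p ^ 1 ≤ p ^ (2 * j) := Nat.pow_le_pow_right (by omega) (by omega)
    have h2 : 0 < 4 ^ i := by positivity
    rw [pow_one] at h1
    omega
  have hcop : q.Coprime p := (Nat.coprime_primes hq hp).2 (by omega)
  have hq4 : q % 4 = 1 := by
    have h1 : p ^ (2 * j) % 4 = 1 := by
      rw [Nat.pow_mod, show p % 4 = 1 by omega]; simp
    have h2 : 4 ^ i % 4 = 0 := by
      obtain ⟨k, rfl⟩ : ∃ k, i = k + 1 := ⟨i - 1, by omega⟩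
      rw [pow_succ]; omega
    omega
  have hzd : z.Coprime d := cop_gen (by omega) (by omega) hp2 (by omega) hd hz1 h
  have hzt : (z : ℝ) ≤ t ^ 4 :=
    hzb z (by exact_mod_cast hz1) (z_le_core hp2 hpq hcop hq4 (by omega) hd hzd hz1 h h200)
  have hte : t = Real.log ((4 : ℝ) ^ i + (p : ℝ) ^ (2 * j)) := by
    rw [ht, hqe]; push_cast; rfl
  have ht0 : (0 : ℝ) < t := by linarith
  have hlp1 : (1 : ℝ) ≤ Real.log p := by
    have h1 : Real.exp 1 ≤ (p : ℝ) := by
      have h2 : (17 : ℝ) ≤ p := by exact_mod_cast hp17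
      have := Real.exp_one_lt_d9
      linarith
    rw [← Real.log_exp 1]
    exact Real.log_le_log (Real.exp_pos 1) h1
  have hlp0 : (0 : ℝ) < Real.log p := by linarith
  have hL0 : (0 : ℝ) < Real.log t := by linarith
  have hl2 : (0.69 : ℝ) < Real.log 2 := by
    have := Real.log_two_gt_d9
    linarith
  -- n = 2 j z ≤ t^5 and d ≤ t^5
  have hp0 : (0 : ℝ) < (p : ℝ) := by exact_mod_cast (by omega : 0 < p)
  have hjt : 2 * (j : ℝ) ≤ t := by
    have h1 : Real.log ((p : ℝ) ^ (2 * j)) ≤ t := by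
      rw [hte]
      exact Real.log_le_log (by positivity) (by
        have : (0 : ℝ) ≤ 4 ^ i := by positivity
        linarith)
    rw [Real.log_pow] at h1
    push_cast at h1
    have h2 : 2 * (j : ℝ) ≤ 2 * (j : ℝ) * Real.log p :=
      le_mul_of_one_le_right (by positivity) hlp1
    linarith
  have hnt : ((2 * j * z : ℕ) : ℝ) ≤ t ^ 5 := by
    push_cast
    calc 2 * (j : ℝ) * z ≤ t * t ^ 4 := mul_le_mul hjt hzt (Nat.cast_nonneg _) ht0.le
      _ = t ^ 5 := by ring
  have hdt : (d : ℝ) ≤ t ^ 5 := by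
    have h1 : (p : ℝ) ^ d ≤ (q : ℝ) ^ z := by
      have : p ^ d ≤ q ^ z := h ▸ Nat.le_add_left _ _
      exact_mod_cast this
    have h2 := Real.log_le_log (by positivity) h1
    rw [Real.log_pow, Real.log_pow] at h2
    calc (d : ℝ) ≤ d * Real.log p := le_mul_of_one_le_right (Nat.cast_nonneg _) hlp1
      _ ≤ z * t := h2
      _ ≤ t ^ 4 * t := mul_le_mul_of_nonneg_right hzt ht0.le
      _ = t ^ 5 := by ring
  obtain ⟨K, hK8, hKn, hKl, hKlog⟩ := choose_K h200 hll
  have hK1 : 1 ≤ K := by omega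
  rcases tri_gen hp h8 hi hj hz1 hqe hd h with ⟨hdiv, hs4⟩ | ⟨hdiv, hdl, halt⟩
  · -- case alpha
    have h4p : 4 ^ i < p := by
      have := Nat.le_of_dvd (by omega) hdiv
      omega
    have hpar : d ≠ 2 * j * z := by
      intro he
      have : 2 * j * z % 2 = 0 := by rw [mul_assoc]; omega
      omega
    have hdlt : d < 2 * j * z := by
      by_contra hge
      exact case_b2 hp17 hj (by omega) hte hzt h200 hexp (dlow hp2 hqe h (by omega))
    obtain ⟨r, hr⟩ : ∃ r, d + r = 2 * j * z := ⟨2 * j * z - d, by omega⟩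
    have hr1 : 1 ≤ r := by omega
    -- `(log 4^i)^2 < 7 log p log K`
    have hW : (Real.log ((4 ^ i : ℕ) : ℝ)) ^ 2 < 7 * Real.log p * Real.log K := by
      by_contra hge
      push Not at hge
      have h42 : 2 ≤ 4 ^ i := by
        calc 2 ≤ 4 ^ 1 := by norm_num
          _ ≤ 4 ^ i := Nat.pow_le_pow_right (by norm_num) hi
      obtain ⟨m, hm1, hs1, hs2, hs3⟩ := sel hK8 h42 h4p hge
      have hP := two_pow_ge (c := c) hp2 hj hz1 rfl hr hr1 hqe h
      have hKm : 1 ≤ K ^ m := Nat.one_le_pow _ _ (by omega)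
      have hKm8 : 8 ≤ K ^ m := by
        calc 8 ≤ K ^ 1 := by rw [pow_one]; exact hK8
          _ ≤ K ^ m := Nat.pow_le_pow_right (by omega) hm1
      have hK3 : K ^ (3 * m) = K ^ m * K ^ m * K ^ m := by ring
      rw [hK3] at hs2
      set Q := K ^ m with hQ
      have hQQ : Q ≤ Q * Q := Nat.le_mul_self Q
      have hQQQ : Q * Q ≤ Q * Q * Q := Nat.le_mul_of_pos_right _ (by omega)
      have h8Q : 8 * (Q * Q) ≤ Q * Q * Q := by
        calc 8 * (Q * Q) ≤ Q * (Q * Q) := Nat.mul_le_mul_right _ hKm8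
          _ = Q * Q * Q := by ring
      refine tay_pos1 (m := m) (K := K) hi hj hz1 rfl hr hr1 hd (by omega) (by omega) hqe h
        (hKn _ hnt) ?_ ?_ ?_ ?_
      · rw [pow_mul]; exact hs1
      · rw [← hQ]
        calc 2 * Q ≤ 4 * (Q * Q * Q) := by omega
          _ < 4 ^ i := hs2
      · rw [← hQ]
        have h1 : 4 * Q * p < p * p := by
          apply Nat.mul_lt_mul_of_pos_right _ (by omega)
          calc 4 * Q ≤ 4 * (Q * Q * Q) := by omega
            _ < 4 ^ i := hs2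
            _ < p := h4p
        have h2 : p ^ 2 = p * p := by ring
        have h3 : 4 * Q * p = 2 * (2 * Q * p) := by ring
        omega
      · rw [pow_mul, ← hQ]
        have h1 : 2 * Q * (4 ^ i) ^ m ≤ 2 * Q * (2 * Q * p) := Nat.mul_le_mul_left _ hs3
        have h2 : 2 * Q * (2 * Q * p) = 4 * (Q * Q) * p := by ring
        have h3 : 8 * (Q * Q) * p < p * p := by
          apply Nat.mul_lt_mul_of_pos_right _ (by omega)
          calc 8 * (Q * Q) ≤ 4 * (Q * Q * Q) := by omega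
            _ < 4 ^ i := hs2
            _ < p := h4p
        have h4 : p ^ 2 = p * p := by ring
        have h5 : 8 * (Q * Q) * p = 2 * (4 * (Q * Q) * p) := by ring
        omega
    -- conclusion
    have h1 := hs4 s hs
    have hz0 : (0 : ℝ) < z := by exact_mod_cast (by omega : 0 < z)
    have hlogz : Real.log z ≤ 4 * Real.log t := by
      calc Real.log z ≤ Real.log (t ^ 4) := Real.log_le_log hz0 hzt
        _ = 4 * Real.log t := by rw [Real.log_pow]; norm_num
    have hlogz0 : 0 ≤ Real.log z := Real.log_natCast_nonneg z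
    set ω := Real.log ((4 ^ i : ℕ) : ℝ) with hω
    have hω0 : 0 ≤ ω := Real.log_natCast_nonneg _
    have hτ1 : (s : ℝ) * Real.log 2 ≤ ω + Real.log z := by
      have h2 : ((2 ^ s : ℕ) : ℝ) ≤ ((4 ^ i : ℕ) : ℝ) * z := by exact_mod_cast h1
      have h3 := Real.log_le_log (by positivity) h2
      rw [Real.log_mul (by positivity) (by positivity)] at h3
      push_cast at h3
      rw [Real.log_pow] at h3
      push_cast [hω]
      exact h3
    have hτ2 : (s : ℝ) * Real.log 2 ≤ Real.log p := by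
      have h2 : 2 ^ s ≤ p := by
        have := Nat.le_of_dvd (by omega) hs
        omega
      have h3 : ((2 : ℝ)) ^ s ≤ p := by exact_mod_cast h2
      have h4 := Real.log_le_log (by positivity) h3
      rwa [Real.log_pow] at h4
    set τ := (s : ℝ) * Real.log 2 with hτ
    have hτ0 : 0 ≤ τ := by positivity
    have h5 : τ ^ 2 ≤ 162 * Real.log p * Real.log t := by
      have h6 : τ ^ 2 ≤ ω * τ + Real.log p * Real.log z := by
        have a1 : τ * τ ≤ τ * (ω + Real.log z) := mul_le_mul_of_nonneg_left hτ1 hτ0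
        have a2 : τ * Real.log z ≤ Real.log p * Real.log z :=
          mul_le_mul_of_nonneg_right hτ2 hlogz0
        nlinarith
      have h7 : ω * τ ≤ (ω ^ 2 + τ ^ 2) / 2 := by nlinarith [sq_nonneg (ω - τ)]
      have h8' : Real.log p * Real.log z ≤ Real.log p * (4 * Real.log t) :=
        mul_le_mul_of_nonneg_left hlogz hlp0.le
      have h9 : 7 * Real.log p * Real.log K ≤ 7 * Real.log p * (22 * Real.log t) :=
        mul_le_mul_of_nonneg_left hKlog (by positivity)
      nlinarith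
    have h10 : 0.4761 * (s : ℝ) ^ 2 ≤ τ ^ 2 := by
      have h11 : (s : ℝ) * 0.69 ≤ τ := mul_le_mul_of_nonneg_left hl2.le (Nat.cast_nonneg _)
      have h12 := pow_le_pow_left₀ (by positivity) h11 2
      nlinarith
    have h13 : 0 ≤ Real.log p * Real.log t := by positivity
    nlinarith
  · -- case beta
    have hcp : 2 ^ c < p := by
      have := Nat.le_of_dvd (by omega) hdiv
      omega
    have hlow := dlow hp2 hqe h hdl
    have h4p : ¬ 4 ^ i < p := fun h4p =>
      case_b2 hp17 hj (by omega) hte hzt h200 hexp hlow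
    have hsc : ∀ s, 2 ^ s ∣ p - 1 → s ≤ c := by
      rcases halt with h1 | h1
      · exact absurd h1 h4p
      · exact h1
    have hc3 : 3 ≤ c := hsc 3 (by
      have : p - 1 = 8 * (p / 8) := by omega
      rw [this]
      exact Dvd.intro _ rfl)
    have hz' := beta_z (by omega) hpq hcop hz1 (by omega) h hcp h200 hll hzt
    have hPw : (p : ℝ) ^ (2 * j) < 4 ^ i * (Real.log t) ^ 3 := by
      have h4 : (0 : ℝ) < 4 ^ i := by positivity
      have h3 : (p : ℝ) ^ (2 * j) * Real.log p <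
          (3 * 10 ^ 8 * (Real.log t) ^ 2 * 4 ^ i) * Real.log p := by
        calc (p : ℝ) ^ (2 * j) * Real.log p < z * 4 ^ i := hlow
          _ ≤ (3 * 10 ^ 8 * (Real.log t) ^ 2 * Real.log p) * 4 ^ i := by
              exact mul_le_mul_of_nonneg_right hz' h4.le
          _ = _ := by ring
      have h5 := lt_of_mul_lt_mul_right h3 hlp0.le
      calc (p : ℝ) ^ (2 * j) < 3 * 10 ^ 8 * (Real.log t) ^ 2 * 4 ^ i := h5
        _ ≤ Real.log t * (Real.log t) ^ 2 * 4 ^ i := by gcongr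
        _ = 4 ^ i * (Real.log t) ^ 3 := by ring
    -- `p^2 < K * 4^i`
    have hpK : p * p < K * 4 ^ i := by
      have h1 : ((p * p : ℕ) : ℝ) < ((K * 4 ^ i : ℕ) : ℝ) := by
        push_cast
        calc (p : ℝ) * p = (p : ℝ) ^ 2 := by ring
          _ ≤ (p : ℝ) ^ (2 * j) := pow_le_pow_right₀
              (by exact_mod_cast (by omega : 1 ≤ p)) (by omega)
          _ < 4 ^ i * (Real.log t) ^ 3 := hPw
          _ ≤ 4 ^ i * K := by gcongr
          _ = K * 4 ^ i := by ring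
      exact_mod_cast h1
    obtain ⟨e, he⟩ : ∃ e, d = 2 * j * z + e := ⟨d - 2 * j * z, by omega⟩
    have he1 : 1 ≤ e := by omega
    have hV : (Real.log ((2 ^ c : ℕ) : ℝ)) ^ 2 < 7 * Real.log p * Real.log K := by
      by_contra hge
      push Not at hge
      have h22 : 2 ≤ 2 ^ c := by
        calc 2 = 2 ^ 1 := by norm_num
          _ ≤ 2 ^ c := Nat.pow_le_pow_right (by norm_num) (by omega)
      obtain ⟨m, hm1, hs1, hs2, hs3⟩ := sel hK8 h22 hcp hge
      have hKm : 1 ≤ K ^ m := Nat.one_le_pow _ _ (by omega)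
      have hKm8 : K ≤ K ^ m := by
        calc K = K ^ 1 := (pow_one K).symm
          _ ≤ K ^ m := Nat.pow_le_pow_right (by omega) hm1
      have hK3 : K ^ (3 * m) = K ^ m * K ^ m * K ^ m := by ring
      rw [hK3] at hs2
      set Q := K ^ m with hQ
      have hQQ : Q ≤ Q * Q := Nat.le_mul_self Q
      have hQQQ : Q * Q ≤ Q * Q * Q := Nat.le_mul_of_pos_right _ (by omega)
      have hKQ : K * (Q * Q) ≤ Q * Q * Q := by
        calc K * (Q * Q) ≤ Q * (Q * Q) := Nat.mul_le_mul_right _ hKm8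
          _ = Q * Q * Q := by ring
      have hfin4 : 4 * (Q * Q) * p < 4 ^ i := by
        have h1 : K * (4 * (Q * Q) * p) < K * 4 ^ i := by
          calc K * (4 * (Q * Q) * p) = 4 * (K * (Q * Q)) * p := by ring
            _ ≤ 4 * (Q * Q * Q) * p := by gcongr
            _ ≤ 2 ^ c * p := by gcongr
            _ ≤ p * p := by gcongr
            _ < K * 4 ^ i := hpK
        exact Nat.lt_of_mul_lt_mul_left h1
      refine tay_pos2 (m := m) (K := K) (s := e) (by omega) hj hz1 rfl he1 he hd (by omega)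
        (by omega) hqe h (hKn _ hdt) ?_ ?_ ?_ ?_
      · rw [pow_mul]; exact hs1
      · rw [← hQ]
        calc 2 * Q ≤ 4 * (Q * Q * Q) := by omega
          _ < 2 ^ c := hs2
      · rw [← hQ]
        calc 2 * Q * p ≤ 4 * (Q * Q) * p := by
              apply Nat.mul_le_mul_right; omega
          _ < 4 ^ i := hfin4
      · rw [pow_mul, ← hQ]
        calc 2 * Q * (2 ^ c) ^ m ≤ 2 * Q * (2 * Q * p) := Nat.mul_le_mul_left _ hs3
          _ = 4 * (Q * Q) * p := by ring
          _ < 4 ^ i := hfin4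
    have hsle : (s : ℝ) ≤ c := by exact_mod_cast hsc s hs
    have h1 : Real.log ((2 ^ c : ℕ) : ℝ) = c * Real.log 2 := by
      push_cast
      rw [Real.log_pow]
    rw [h1] at hV
    have h9 : 7 * Real.log p * Real.log K ≤ 7 * Real.log p * (22 * Real.log t) :=
      mul_le_mul_of_nonneg_left hKlog (by positivity)
    have h10 : 0.4761 * (s : ℝ) ^ 2 ≤ ((c : ℝ) * Real.log 2) ^ 2 := by
      have h11 : (s : ℝ) * 0.69 ≤ (c : ℝ) * Real.log 2 :=
        mul_le_mul hsle hl2.le (by norm_num) (Nat.cast_nonneg _)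
      have h12 := pow_le_pow_left₀ (by positivity) h11 2
      nlinarith
    have h13 : 0 ≤ Real.log p * Real.log t := by positivity
    nlinarith

/-- `p ≡ 7 (mod 8)` is impossible for large `q`. -/
theorem core7 : ∃ T : ℝ, ∀ p q i j c d z : ℕ, p.Prime → q.Prime → p % 8 = 7 → 17 ≤ p → 1 ≤ i →
    1 ≤ j → q = 4 ^ i + p ^ (2 * j) → d % 2 = 1 → 1 ≤ z → z % 2 = 0 → 1 ≤ c →
    2 ^ c + p ^ d = q ^ z → T ≤ Real.log q → False := by
  obtain ⟨T, hT⟩ := asym
  refine ⟨T, fun p q i j c d z hp hq h8 hp17 hi hj hqe hd hz1 hz2 hc h hlarge => ?_⟩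
  obtain ⟨hlog, h200, hexp, hfin, hzb⟩ := hT _ hlarge
  set t := Real.log q with ht
  have hp2 : 2 ≤ p := hp.two_le
  have hpq : p < q := by
    have h1 : p ^ 1 ≤ p ^ (2 * j) := Nat.pow_le_pow_right (by omega) (by omega)
    have h2 : 0 < 4 ^ i := by positivity
    rw [pow_one] at h1
    omega
  have hcop : q.Coprime p := (Nat.coprime_primes hq hp).2 (by omega)
  obtain ⟨hc1, hdiv, hdl⟩ := p_seven h8 hi hj hc hz2 hz1 hd hqe h
  subst hc1
  have hzt : (z : ℝ) ≤ t ^ 4 :=
    hzb z (by exact_mod_cast hz1)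
      (z_le_core2 (by omega) hpq hcop hz1 (by omega) h (by omega) h200)
  have hte : t = Real.log ((4 : ℝ) ^ i + (p : ℝ) ^ (2 * j)) := by
    rw [ht, hqe]; push_cast; rfl
  exact case_b2 hp17 hj (Nat.le_of_dvd (by omega) hdiv) hte hzt h200 hexp (dlow hp2 hqe h hdl)

end Pool.Agent.H91.CB
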