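import Pool.Agent.H88.Cao
import Pool.Agent.H91.CB.MainB
import Pool.Agent.H91.CB.Fix3
import Pool.Agent.H91.CB.FixQ3
import Pool.Agent.H91.CB.FixC2

/-! Assembly (helper91): all large triples of distinct primes. -/

namespace Pool.Agent.H91.CB

open Pool.Agent.H88.Cao

/-- The solutions `(x, y, z)` of `a^x + b^y = c^z` in positive integers. -/
def solutions (a b c : ℕ) : Set (ℕ × ℕ × ℕ) :=
  {t | 0 < t.1 ∧ 0 < t.2.1 ∧ 0 < t.2.2 ∧ a ^ t.1 + b ^ t.2.1 = c ^ t.2.2}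

/-- `N(a,b,c)`, the number (possibly infinite) of solutions. -/
noncomputable def numSol (a b c : ℕ) : ℕ∞ := (solutions a b c).encard

lemma numSol_comm (a b c : ℕ) : numSol a b c = numSol b a c := by
  unfold numSol
  have : solutions b a c = (fun t : ℕ × ℕ × ℕ => (t.2.1, t.1, t.2.2)) '' solutions a b c := by
    ext ⟨x, y, z⟩
    constructor
    · rintro ⟨h1, h2, h3, h4⟩
      exact ⟨(y, x, z), ⟨h2, h1, h3, by simp only at h4 ⊢; rw [add_comm]; exact h4⟩, rfl⟩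
    · rintro ⟨⟨x', y', z'⟩, ⟨h1, h2, h3, h4⟩, he⟩
      simp only [Prod.mk.injEq] at he
      obtain ⟨rfl, rfl, rfl⟩ := he
      exact ⟨h2, h1, h3, by simp only at h4 ⊢; rw [add_comm]; exact h4⟩
  rw [this]
  symm
  apply Function.Injective.encard_image
  rintro ⟨x, y, z⟩ ⟨x', y', z'⟩ h
  simp only [Prod.mk.injEq] at h
  obtain ⟨rfl, rfl, rfl⟩ := h
  rfl

/-- Two different solutions. -/
lemma two_sols {a b c : ℕ} (h : 1 < numSol a b c) : ∃ x y z x' y' z' : ℕ,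
    0 < x ∧ 0 < y ∧ 0 < z ∧ 0 < x' ∧ 0 < y' ∧ 0 < z' ∧ a ^ x + b ^ y = c ^ z ∧
      a ^ x' + b ^ y' = c ^ z' ∧ ¬ (x = x' ∧ y = y' ∧ z = z') := by
  unfold numSol at h
  obtain ⟨s, t, hs, ht, hne⟩ := Set.one_lt_encard_iff.1 h
  obtain ⟨x, y, z⟩ := s
  obtain ⟨x', y', z'⟩ := t
  obtain ⟨h1, h2, h3, h4⟩ := hs
  obtain ⟨h1', h2', h3', h4'⟩ := ht
  refine ⟨x, y, z, x', y', z', h1, h2, h3, h1', h2', h3', h4, h4', fun he => hne ?_⟩
  obtain ⟨e1, e2, e3⟩ := he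
  rw [e1, e2, e3]

/-- The data of an exceptional pair of primes. -/
def Exc (T : ℝ) (p q : ℕ) : Prop :=
  ∃ i j x y z : ℕ, 0 < i ∧ 0 < j ∧ q = 4 ^ i + p ^ (2 * j) ∧ (p % 24 = 1 ∨ p % 24 = 17) ∧
    T ≤ Real.log q ∧ 0 < x ∧ y % 2 = 1 ∧ 0 < z ∧ 2 ^ x + p ^ y = q ^ z ∧
    (p % 24 = 1 → x % 2 = 0 ∧ z % 2 = 1)

lemma log_ge {T : ℝ} {p q i j : ℕ} (hj : 0 < j) (hp : 2 ≤ p) (h : q = 4 ^ i + p ^ (2 * j))
    (hA : Real.exp T < (max (max 2 p) q : ℕ)) : T ≤ Real.log q := by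
  have h1 : p ^ 1 ≤ p ^ (2 * j) := Nat.pow_le_pow_right (by omega) (by omega)
  have h2 : 1 ≤ 4 ^ i := Nat.one_le_pow _ _ (by norm_num)
  rw [pow_one] at h1
  have h3 : max (max 2 p) q = q := by omega
  rw [h3] at hA
  rw [← Real.log_exp T]
  exact Real.log_le_log (Real.exp_pos T) hA.le

lemma ge_five {r : ℕ} (hr : r.Prime) (h2 : r ≠ 2) (h3 : r ≠ 3) : 5 ≤ r := by
  have h4 : r ≠ 4 := by rintro rfl; norm_num at hr
  have := hr.two_le
  omega

lemma gen_two : ∃ T0 : ℝ, ∀ T : ℝ, T0 ≤ T → ∀ p q : ℕ, p.Prime → q.Prime → p ≠ 2 → q ≠ 2 →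
    p ≠ q → Real.exp T < (max (max 2 p) q : ℕ) → 1 < numSol 2 p q → Exc T p q := by
  obtain ⟨T1, hT1⟩ := core7
  obtain ⟨T2, hT2⟩ := fix3
  obtain ⟨T3, hT3⟩ := fixq3
  refine ⟨max (max T1 T2) (max T3 2), fun T hT p q hp hq p2 q2 hpq hA hlt => ?_⟩
  have hTT1 : T1 ≤ T := le_trans (le_trans (le_max_left _ _) (le_max_left _ _)) hT
  have hTT2 : T2 ≤ T := le_trans (le_trans (le_max_right _ _) (le_max_left _ _)) hT
  have hTT3 : T3 ≤ T := le_trans (le_trans (le_max_left _ _) (le_max_right _ _)) hT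
  have hTT4 : 2 ≤ T := le_trans (le_trans (le_max_right _ _) (le_max_right _ _)) hT
  have hexp3 : (3 : ℝ) ≤ Real.exp T := by
    have := Real.add_one_le_exp T
    linarith
  obtain ⟨x, y, z, x', y', z', h1, h2, h3, h1', h2', h3', h4, h4', hne⟩ := two_sols hlt
  by_cases hp3 : p = 3
  · -- `2^x + 3^y = q^z`
    exfalso
    subst hp3
    have q5 : 5 ≤ q := ge_five hq q2 (Ne.symm hpq)
    have hmax : max (max 2 3) q = q := by omega
    rw [hmax] at hA
    have hl : T ≤ Real.log q := by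
      rw [← Real.log_exp T]
      exact Real.log_le_log (Real.exp_pos T) hA.le
    exact hne (hT2 q x y z x' y' z' hq q5 (hTT2.trans hl) h1 h2 h3 h1' h2' h3' h4 h4')
  have p5 : 5 ≤ p := ge_five hp p2 hp3
  by_cases hq3 : q = 3
  · exfalso
    subst hq3
    have hmax : max (max 2 p) 3 = p := by omega
    rw [hmax] at hA
    have hl : T ≤ Real.log p := by
      rw [← Real.log_exp T]
      exact Real.log_le_log (Real.exp_pos T) hA.le
    exact hne (hT3 p x y z x' y' z' hp p5 (hTT3.trans hl) h1 h2 h3 h1' h2' h3' h4 h4')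
  have q5 : 5 ≤ q := ge_five hq q2 hq3
  have hpar : y % 2 ≠ y' % 2 := fun hpar =>
    hne (classify hp p5 hq q5 hpq h1 h2 h3 h1' h2' h3' h4 h4' hpar)
  -- the second solution
  have fin : ∀ x y z x' y' z' : ℕ, 0 < x → 0 < y → 0 < z → 0 < x' → 0 < z' → y % 2 = 0 →
      y' % 2 = 1 → 2 ^ x + p ^ y = q ^ z → 2 ^ x' + p ^ y' = q ^ z' → Exc T p q := by
    intro x y z x' y' z' hx hy hz hx' hz' hye hyo h h'
    obtain ⟨h24, i, j, hi, hj, hform⟩ := mixed hp p5 hq q5 hx hy hz hx' hye hyo h h'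
    have hl := log_ge hj hp.two_le hform hA
    rcases h24 with h24 | h24 | h24
    · obtain ⟨k1, _, k3⟩ := mod3_one (by omega) hq q5 h'
      exact ⟨i, j, x', y', z', hi, hj, hform, Or.inl h24, hl, hx', hyo, hz', h',
        fun _ => ⟨k1, k3⟩⟩
    · exact ⟨i, j, x', y', z', hi, hj, hform, Or.inr h24, hl, hx', hyo, hz', h',
        fun h0 => by omega⟩
    · exfalso
      obtain ⟨_, hq3', _⟩ := even_case hp p5 hq q5 hx hz hye h
      obtain ⟨k1, _, k3⟩ := mod3_two (by omega) hq q5 h'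
      have hz2 := k3 (by omega) hq3'
      exact hT1 p q i j x' y' z' hp hq (by omega) (by omega) hi hj hform hyo hz' hz2 hx' h'
        (hTT1.trans hl)
  rcases Nat.mod_two_eq_zero_or_one y with hy | hy
  · exact fin x y z x' y' z' h1 h2 h3 h1' h3' hy (by omega) h4 h4'
  · exact fin x' y' z' x y z h1' h2' h3' h1 h3 (by omega) hy h4' h4

theorem general : ∃ T0 : ℝ, ∀ T : ℝ, T0 ≤ T → ∀ a b c : ℕ, a.Prime → b.Prime → c.Prime →
    a ≠ b → a ≠ c → b ≠ c → Real.exp T < (max (max a b) c : ℕ) → 1 < numSol a b c →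
      ∃ p : ℕ, p.Prime ∧ ((a = 2 ∧ b = p) ∨ (a = p ∧ b = 2)) ∧ Exc T p c := by
  obtain ⟨T1, hT1⟩ := gen_two
  obtain ⟨T2, hT2⟩ := fixc2
  refine ⟨max T1 T2, fun T hT a b c ha hb hc hab hac hbc hA hlt => ?_⟩
  have hTT1 : T1 ≤ T := le_trans (le_max_left _ _) hT
  have hTT2 : T2 ≤ T := le_trans (le_max_right _ _) hT
  by_cases hc2 : c = 2
  · -- `a^x + b^y = 2^z`
    exfalso
    subst hc2
    obtain ⟨x, y, z, x', y', z', h1, h2, h3, h1', h2', h3', h4, h4', hne⟩ := two_sols hlt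
    rcases lt_or_gt_of_ne hab with hlt' | hlt'
    · have hb2 := hb.two_le
      have hmax : max (max a b) 2 = b := by omega
      rw [hmax] at hA
      have hl : T ≤ Real.log b := by
        rw [← Real.log_exp T]
        exact Real.log_le_log (Real.exp_pos T) hA.le
      exact hne (hT2 a b x y z x' y' z' ha hb hlt' hac (hTT2.trans hl) h1 h2 h3 h1' h2' h3'
        h4 h4')
    · have ha2 := ha.two_le
      have hmax : max (max a b) 2 = a := by omega
      rw [hmax] at hA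
      have hl : T ≤ Real.log a := by
        rw [← Real.log_exp T]
        exact Real.log_le_log (Real.exp_pos T) hA.le
      obtain ⟨e1, e2, e3⟩ := hT2 b a y x z y' x' z' hb ha hlt' hbc (hTT2.trans hl) h2 h1 h3
        h2' h1' h3' (by rw [add_comm]; exact h4) (by rw [add_comm]; exact h4')
      exact hne ⟨e2, e1, e3⟩
  by_cases ha2 : a = 2
  · subst ha2
    exact ⟨b, hb, Or.inl ⟨rfl, rfl⟩, hT1 T hTT1 b c hb hc (Ne.symm hab) hc2 hbc hA hlt⟩
  by_cases hb2 : b = 2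
  · subst hb2
    rw [numSol_comm a 2 c] at hlt
    rw [max_comm a 2] at hA
    exact ⟨a, ha, Or.inr ⟨rfl, rfl⟩, hT1 T hTT1 a c ha hc hab hc2 hac hA hlt⟩
  -- no solutions, by parity
  exfalso
  obtain ⟨x, y, z, x', y', z', h1, h2, h3, h1', h2', h3', h4, h4', hne⟩ := two_sols hlt
  have oa : Odd (a ^ x) := (Nat.odd_iff.2 (by have := ha.eq_two_or_odd; omega)).pow
  have ob : Odd (b ^ y) := (Nat.odd_iff.2 (by have := hb.eq_two_or_odd; omega)).pow
  have oc : Odd (c ^ z) := (Nat.odd_iff.2 (by have := hc.eq_two_or_odd; omega)).pow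
  rw [← h4] at oc
  exact (Nat.not_even_iff_odd.2 oc) (oa.add_odd ob)

end Pool.Agent.H91.CB
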