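import Pool.Agent.H91.CB.TwoGen
import Pool.Agent.H91.CA.ZLe

/-!
JOB CB-10 (polylogarithmic bound for the exponents, about 150-200 lines; uses the stub `two_gen` and the
finished theorems `lfl_arch`, `L_cond`).

`asym2`: suppose `T > t^5`, `t ≥ 1`; then `t < T^(1/5)`, `log (tT) ≤ (6/5) log T`, so
`T ≤ C ((6/5) log T)^4 T^(4/5) + 8 log T`, which is false for `T ≥ Z0(C)`; take `t ≥ max(1, Z0)`.

`eb2`.  `T1 = z log c`.  If `T1 < t` then `T1 ≤ t^5` trivially.  Let `T = T1 ≥ t ≥ 200`.  `log c ≥ 1`, `log b ≥ 1`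
(`b, c ≥ 3`), `b^y < c^z`, so `z ≤ T`, `y ≤ y log b ≤ T`.  `2^x = c^z - b^y` divides `c^(2z) - b^(2y)`, so
`two_gen` (`a := c`, `u := z`, `v := y`): `x ≤ S'² + 2 log T`, `S' = 2500 (101 log(tT))² (9 t²)`.
If `b^y ≤ 2^x`: `T ≤ (x+1) log 2 ≤ x + 1`.  Otherwise `z log c - y log b = log(1 + 2^x/b^y)` is between `0` and
`2^x/b^y`; `lfl_arch` (`a := c`, `b := b`, `u = z`, `v = y`, `E, F = ⌈t⌉₊ ≤ 2t`, `B = max z y`, `L = ⌈100 log(tT)⌉₊`,
`5000 L² E F ≤ 2 S'`) gives `y log b ≤ x log 2 + 2S'`, and `T ≤ 1 + y log b ≤ 1 + x + 2S'`.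
In both cases `T ≤ S'² + 2S' + 1 + 2 log T ≤ 2 S'² + 2 log T`, and `asym2` with
`C = 2 (2500 * 101² * 9)²` gives `T ≤ t^5`.

`ebc`.  `T = max (z log 2) t`; `x ≤ x log a ≤ z log 2`, `y ≤ z log 2`; `2^z` divides `a^(2x) - b^(2y)`; `two_gen`
gives `z ≤ S'² + 2 log T`; if `z log 2 ≥ t` then `T = z log 2 ≤ z`, so `T ≤ S'² + 2 log T`, `asym2` gives
`T ≤ t^5`.
-/

namespace Pool.Agent.H91.CB

open Pool.Agent.H91.CA

theorem asym2 (C : ℝ) : ∃ T0 : ℝ, ∀ t T : ℝ, T0 ≤ t →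
    T ≤ C * (Real.log (t * T)) ^ 4 * t ^ 4 + 8 * Real.log T → T ≤ t ^ 5 := by
  obtain ⟨W, hW⟩ := Filter.eventually_atTop.mp
    (Asy_exp (|C| * (6 / 5) ^ 4 + 8) 4 (1 / 5) (by norm_num))
  refine ⟨Real.exp (|W| + 1), fun t T ht h => ?_⟩
  by_contra hcon
  push Not at hcon
  have ht0 : 0 < t := lt_of_lt_of_le (Real.exp_pos _) ht
  have hlt : |W| + 1 ≤ Real.log t := (Real.le_log_iff_exp_le ht0).2 ht
  have hW0 := abs_nonneg W
  have hW1 := le_abs_self W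
  have hT0 : 0 < T := lt_trans (by positivity) hcon
  set w := Real.log T with hw
  have hwt : 5 * Real.log t ≤ w := by
    have h1 := Real.log_le_log (by positivity) hcon.le
    rw [Real.log_pow] at h1
    push_cast at h1
    exact h1
  have hw1 : 1 ≤ w := by linarith
  have h1 := hW w (by linarith)
  have h2 : Real.log (t * T) ≤ 6 / 5 * w := by
    rw [Real.log_mul ht0.ne' hT0.ne']
    linarith
  have h3 : 0 ≤ Real.log (t * T) := by
    rw [Real.log_mul ht0.ne' hT0.ne']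
    linarith
  have h4 : (Real.log (t * T)) ^ 4 ≤ (6 / 5 * w) ^ 4 := pow_le_pow_left₀ h3 h2 4
  have h5 : t ^ 4 ≤ Real.exp (4 * w / 5) := by
    have h6 : t ≤ Real.exp (w / 5) := by
      rw [← Real.log_le_iff_le_exp ht0]
      linarith
    calc t ^ 4 ≤ (Real.exp (w / 5)) ^ 4 := pow_le_pow_left₀ ht0.le h6 4
      _ = Real.exp (4 * w / 5) := by
        rw [← Real.exp_nat_mul]
        congr 1
        push_cast
        ring
  have hC := le_abs_self C
  have hC0 := abs_nonneg C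
  have h7 : C * (Real.log (t * T)) ^ 4 * t ^ 4 ≤ |C| * (6 / 5 * w) ^ 4 * Real.exp (4 * w / 5) := by
    have h8 : C * (Real.log (t * T)) ^ 4 ≤ |C| * (6 / 5 * w) ^ 4 :=
      mul_le_mul hC h4 (by positivity) hC0
    exact mul_le_mul h8 h5 (by positivity) (by positivity)
  have h9 : (1 : ℝ) ≤ Real.exp (4 * w / 5) := Real.one_le_exp (by linarith)
  have h10 : Real.exp w = Real.exp (4 * w / 5) * Real.exp (1 / 5 * w) := by
    rw [← Real.exp_add]
    congr 1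
    ring
  have h11 : T = Real.exp w := (Real.exp_log hT0).symm
  have h12 : 8 * w ≤ 8 * w ^ 4 * Real.exp (4 * w / 5) := by
    have h13 : w ≤ w ^ 4 := le_self_pow₀ hw1 (by norm_num)
    have h14 : 0 ≤ w ^ 4 := by positivity
    nlinarith
  have h15 : Real.exp (4 * w / 5) * Real.exp (1 / 5 * w) ≤
      Real.exp (4 * w / 5) * ((|C| * (6 / 5) ^ 4 + 8) * w ^ 4) := by
    rw [← h10, ← h11]
    calc T ≤ |C| * (6 / 5 * w) ^ 4 * Real.exp (4 * w / 5) +
          8 * w ^ 4 * Real.exp (4 * w / 5) := by linarith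
      _ = Real.exp (4 * w / 5) * ((|C| * (6 / 5) ^ 4 + 8) * w ^ 4) := by ring
  have h16 := le_of_mul_le_mul_left h15 (Real.exp_pos _)
  linarith

theorem Exp_basic {t T : ℝ} (ht : 200 ≤ t) (hT : t ≤ T) :
    5 ≤ Real.log (t * T) ∧ 0 ≤ Real.log T ∧
      3 ≤ 2500 * (101 * Real.log (t * T)) ^ 2 * (9 * t ^ 2) := by
  have hx200 : 200 ≤ t * T := by nlinarith
  have hlogx : 5 ≤ Real.log (t * T) := by
    rw [Real.le_log_iff_exp_le (by linarith)]
    exact le_trans ZLe_exp5 hx200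
  refine ⟨hlogx, Real.log_nonneg (by linarith), ?_⟩
  have h1 : (1 : ℝ) ≤ (101 * Real.log (t * T)) ^ 2 := one_le_pow₀ (by linarith)
  have h2 : (1 : ℝ) ≤ t ^ 2 := one_le_pow₀ (by linarith)
  have h3 : (1 : ℝ) * 1 ≤ (101 * Real.log (t * T)) ^ 2 * t ^ 2 :=
    mul_le_mul h1 h2 (by norm_num) (by positivity)
  nlinarith

theorem Exp_final {t T S : ℝ} (hS : S = 2500 * (101 * Real.log (t * T)) ^ 2 * (9 * t ^ 2))
    (hS3 : 3 ≤ S) (hT : 0 ≤ Real.log T) (h : T ≤ 1 + (S ^ 2 + 2 * Real.log T) + 2 * S) :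
    T ≤ (2 * (2500 * 101 ^ 2 * 9) ^ 2) * (Real.log (t * T)) ^ 4 * t ^ 4 + 8 * Real.log T := by
  have h1 : (2 * (2500 * 101 ^ 2 * 9) ^ 2) * (Real.log (t * T)) ^ 4 * t ^ 4 = 2 * S ^ 2 := by
    rw [hS]
    ring
  rw [h1]
  nlinarith

theorem Exp_log {n : ℕ} (hn : 3 ≤ n) : 1 ≤ Real.log n := by
  have h3 : (3 : ℝ) ≤ n := by exact_mod_cast hn
  rw [Real.le_log_iff_exp_le (by linarith)]
  have h1 := Real.exp_one_lt_d9
  linarith

theorem Exp_arch {b c x y z : ℕ} {t T : ℝ} (hbc : b.Coprime c) (hb3 : 3 ≤ b) (hc3 : 3 ≤ c)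
    (hy : 1 ≤ y) (hz : 1 ≤ z) (h : 2 ^ x + b ^ y = c ^ z) (hlt : 2 ^ x < b ^ y) (ht : 200 ≤ t)
    (htb : Real.log b ≤ t) (htc : Real.log c ≤ t) (hT : t ≤ T) (hzT : (z : ℝ) ≤ T)
    (hyT : (y : ℝ) ≤ T) :
    z * Real.log c ≤ 1 + x + 2 * (2500 * (101 * Real.log (t * T)) ^ 2 * (9 * t ^ 2)) := by
  obtain ⟨hlogx, -, -⟩ := Exp_basic ht hT
  set X := t * T with hX
  have hX200 : 200 ≤ X := by
    rw [hX]
    nlinarith
  set E := ⌈t⌉₊ with hE
  have hEt : t ≤ E := Nat.le_ceil _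
  have hEt2 : (E : ℝ) ≤ 3 * t := by
    have := (Nat.ceil_lt_add_one (by linarith : (0 : ℝ) ≤ t)).le
    linarith
  have hE1 : 1 ≤ E := by
    have : (1 : ℝ) ≤ E := by linarith
    exact_mod_cast this
  set B := max z y with hB
  have hBT : (B : ℝ) ≤ T := by
    rw [hB, Nat.cast_max]
    exact max_le hzT hyT
  have hB1 : 1 ≤ B := le_trans hz (le_max_left _ _)
  have hE0 : (0 : ℝ) ≤ E := Nat.cast_nonneg _
  have hEE : (E : ℝ) * E ≤ 9 * t ^ 2 := by nlinarith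
  have hT0 : 0 ≤ T := by linarith
  have hEEB : (E : ℝ) * E * B ≤ X ^ 9 := by
    have h2 : (E : ℝ) * E * B ≤ 9 * t ^ 2 * T :=
      mul_le_mul hEE hBT (Nat.cast_nonneg _) (by positivity)
    have h3 : 9 * t ^ 2 * T ≤ 9 * X ^ 2 := by
      rw [hX]
      have h4 : T ≤ T ^ 2 := by nlinarith
      calc 9 * t ^ 2 * T ≤ 9 * t ^ 2 * T ^ 2 := mul_le_mul_of_nonneg_left h4 (by positivity)
        _ = 9 * (t * T) ^ 2 := by ring
    have h6 : (9 : ℝ) ≤ X ^ 7 := by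
      calc (9 : ℝ) ≤ 200 ^ 7 := by norm_num
        _ ≤ X ^ 7 := pow_le_pow_left₀ (by norm_num) hX200 7
    calc (E : ℝ) * E * B ≤ 9 * X ^ 2 := h2.trans h3
      _ ≤ X ^ 7 * X ^ 2 := mul_le_mul_of_nonneg_right h6 (by positivity)
      _ = X ^ 9 := by ring
  obtain ⟨hL, hL101⟩ := L_cond hlogx (by linarith) hE1 hE1 hB1 hEEB
  set L := ⌈100 * Real.log X⌉₊ with hLdef
  have h1 := lfl_arch hbc.symm (by omega) (by omega) hz hy (le_max_left z y) (le_max_right z y)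
    (htc.trans hEt) (htb.trans hEt) hE1 hE1 hL
  have h2 : 5000 * (L : ℝ) ^ 2 * E * E = 2 * (2500 * (L : ℝ) ^ 2 * E * E) := by ring
  rw [h2] at h1
  have h3 := ZLe_arch (by omega) (by omega) h hlt h1
  have h4 : 2500 * (L : ℝ) ^ 2 * E * E ≤ 2500 * (101 * Real.log X) ^ 2 * (9 * t ^ 2) := by
    have h5 : (L : ℝ) ^ 2 ≤ (101 * Real.log X) ^ 2 := pow_le_pow_left₀ (Nat.cast_nonneg _) hL101 2
    calc 2500 * (L : ℝ) ^ 2 * E * E = 2500 * ((L : ℝ) ^ 2 * (E * E)) := by ring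
      _ ≤ 2500 * ((101 * Real.log X) ^ 2 * (9 * t ^ 2)) := by
          apply mul_le_mul_of_nonneg_left _ (by norm_num)
          exact mul_le_mul h5 hEE (by positivity) (by positivity)
      _ = 2500 * (101 * Real.log X) ^ 2 * (9 * t ^ 2) := by ring
  have hlog2 : Real.log 2 ≤ 1 := by
    have := Real.log_two_lt_d9
    linarith
  have h6 : (x : ℝ) * Real.log 2 ≤ x := by
    have : (0 : ℝ) ≤ x := Nat.cast_nonneg x
    nlinarith
  linarith

theorem eb2 : ∃ T0 : ℝ, ∀ b c x y z : ℕ, b % 2 = 1 → c % 2 = 1 → b.Coprime c → 3 ≤ b → 3 ≤ c →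
    1 ≤ y → 1 ≤ z → 2 ^ x + b ^ y = c ^ z → ∀ t : ℝ, T0 ≤ t → Real.log b ≤ t →
    Real.log c ≤ t → z * Real.log c ≤ t ^ 5 := by
  obtain ⟨T1, hT1⟩ := asym2 (2 * (2500 * 101 ^ 2 * 9) ^ 2)
  refine ⟨max T1 200, fun b c x y z hb hc hbc hb3 hc3 hy hz h t ht htb htc => ?_⟩
  have ht1 : T1 ≤ t := (le_max_left _ _).trans ht
  have ht2 : 200 ≤ t := (le_max_right _ _).trans ht
  set T := (z : ℝ) * Real.log c with hTdef
  rcases le_or_gt T t with hTt | hTt
  · have : t ≤ t ^ 5 := le_self_pow₀ (by linarith) (by norm_num)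
    linarith
  · have hlc := Exp_log hc3
    have hlb := Exp_log hb3
    have hz0 : (0 : ℝ) ≤ z := Nat.cast_nonneg z
    have hy0 : (0 : ℝ) ≤ y := Nat.cast_nonneg y
    have hzT : (z : ℝ) ≤ T := by
      rw [hTdef]
      nlinarith
    have hc0 : (0 : ℝ) < c := by
      have : 0 < c := by omega
      exact_mod_cast this
    have hb0 : (0 : ℝ) < b := by
      have : 0 < b := by omega
      exact_mod_cast this
    have hyT : (y : ℝ) ≤ T := by
      have h1 : (b : ℝ) ^ y ≤ (c : ℝ) ^ z := by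
        have : b ^ y ≤ c ^ z := by
          rw [← h]
          exact Nat.le_add_left _ _
        exact_mod_cast this
      have h2 := Real.log_le_log (by positivity) h1
      rw [Real.log_pow, Real.log_pow] at h2
      have h3 : (y : ℝ) ≤ y * Real.log b := by nlinarith
      linarith
    have hdvd : (2 : ℤ) ^ x ∣ (c : ℤ) ^ (2 * z) - (b : ℤ) ^ (2 * y) := by
      have h1 : (2 : ℤ) ^ x = (c : ℤ) ^ z - (b : ℤ) ^ y := by
        have : (2 : ℤ) ^ x + (b : ℤ) ^ y = (c : ℤ) ^ z := by exact_mod_cast h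
        linarith
      refine ⟨(c : ℤ) ^ z + (b : ℤ) ^ y, ?_⟩
      rw [h1]
      ring
    have hx := two_gen hc hb hbc.symm hc3 hb3 hz hy hdvd ht2 htc htb hTt.le hzT hyT
    obtain ⟨-, hlT, hS3⟩ := Exp_basic ht2 hTt.le
    have hmain : T ≤ 1 + x + 2 * (2500 * (101 * Real.log (t * T)) ^ 2 * (9 * t ^ 2)) := by
      rcases le_or_gt (b ^ y) (2 ^ x) with hle | hlt
      · have h1 : (c : ℝ) ^ z ≤ 2 ^ (x + 1) := by
          have : c ^ z ≤ 2 ^ (x + 1) := by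
            rw [← h, pow_succ]
            omega
          exact_mod_cast this
        have h2 := Real.log_le_log (by positivity) h1
        rw [Real.log_pow, Real.log_pow] at h2
        push_cast at h2
        have hlog2 : Real.log 2 ≤ 1 := by
          have := Real.log_two_lt_d9
          linarith
        have h3 : ((x : ℝ) + 1) * Real.log 2 ≤ x + 1 := by
          have : (0 : ℝ) ≤ x := Nat.cast_nonneg x
          nlinarith
        linarith
      · exact Exp_arch hbc hb3 hc3 hy hz h hlt ht2 htb htc hTt.le hzT hyT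
    exact hT1 t T ht1 (Exp_final rfl hS3 hlT (by linarith))

theorem ebc : ∃ T0 : ℝ, ∀ a b x y z : ℕ, a % 2 = 1 → b % 2 = 1 → a.Coprime b → 3 ≤ a → 3 ≤ b →
    1 ≤ x → 1 ≤ y → a ^ x + b ^ y = 2 ^ z → ∀ t : ℝ, T0 ≤ t → Real.log a ≤ t →
    Real.log b ≤ t → z * Real.log 2 ≤ t ^ 5 := by
  obtain ⟨T1, hT1⟩ := asym2 (2 * (2500 * 101 ^ 2 * 9) ^ 2)
  refine ⟨max T1 200, fun a b x y z ha hb hab ha3 hb3 hx hy h t ht hta htb => ?_⟩
  have ht1 : T1 ≤ t := (le_max_left _ _).trans ht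
  have ht2 : 200 ≤ t := (le_max_right _ _).trans ht
  set T := (z : ℝ) * Real.log 2 with hTdef
  rcases le_or_gt T t with hTt | hTt
  · have : t ≤ t ^ 5 := le_self_pow₀ (by linarith) (by norm_num)
    linarith
  · have hz0 : (0 : ℝ) ≤ z := Nat.cast_nonneg z
    have hpow : ∀ n k : ℕ, 3 ≤ n → n ^ k ≤ 2 ^ z → (k : ℝ) ≤ T := by
      intro n k hn hk
      have hn0 : (0 : ℝ) < n := by
        have : 0 < n := by omega
        exact_mod_cast this
      have h1 : (n : ℝ) ^ k ≤ (2 : ℝ) ^ z := by exact_mod_cast hk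
      have h2 := Real.log_le_log (by positivity) h1
      rw [Real.log_pow, Real.log_pow] at h2
      have h3 : (k : ℝ) ≤ k * Real.log n := by
        have := Exp_log hn
        have : (0 : ℝ) ≤ k := Nat.cast_nonneg k
        nlinarith
      linarith
    have hxT : (x : ℝ) ≤ T := hpow a x ha3 (by omega)
    have hyT : (y : ℝ) ≤ T := hpow b y hb3 (by omega)
    have hdvd : (2 : ℤ) ^ z ∣ (a : ℤ) ^ (2 * x) - (b : ℤ) ^ (2 * y) := by
      have h1 : (2 : ℤ) ^ z = (a : ℤ) ^ x + (b : ℤ) ^ y := by exact_mod_cast h.symm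
      refine ⟨(a : ℤ) ^ x - (b : ℤ) ^ y, ?_⟩
      rw [h1]
      ring
    have hz := two_gen ha hb hab ha3 hb3 hx hy hdvd ht2 hta htb hTt.le hxT hyT
    obtain ⟨-, hlT, hS3⟩ := Exp_basic ht2 hTt.le
    have hTz : T ≤ z := by
      have hlog2 : Real.log 2 ≤ 1 := by
        have := Real.log_two_lt_d9
        linarith
      rw [hTdef]
      nlinarith
    exact hT1 t T ht1 (Exp_final rfl hS3 hlT (by linarith))

end Pool.Agent.H91.CB
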