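import Pool.Agent.H91.CA.LatA
import Pool.Agent.H91.CA.Size

/-!
JOB CB-16 (lattice inequality in the second case, about 130-180 lines; uses the finished `lat_alg`, `XA_pos`).

`t = log q`, `XA = XA p q i j`, `XC = XC p q c d z`.
(1) `0 < XC ≤ 2 exp(-z t/4)`: with `y = 2^(c/2)/√(q^z) ≤ 1/2`: `(2^(c/2) + √(q^z))² / p^d = (1+y)/(1-y)` because
`p^d = q^z - 2^c`, so `XC = (1/2) log ((1+y)/(1-y)) ≤ 2 y`, and `2^c < p ≤ √q` gives
`y ≤ q^(1/4 - z/2) ≤ exp(-z t/4)`.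
(2) `XA ≥ log (1 + 2^i/p^j)` (`√q ≥ p^j`), `2^i/p^j ≥ (log t)^(-3/2)` (hypothesis `hPw`), so
`XA ≥ (1/2) min (1, (log t)^(-3/2)) ≥ (1/2) t^(-2) > 2 exp(-t/4) ≥ XC` (`log (1+x) ≥ x/2` for `0 ≤ x ≤ 1`).
(3) Dirichlet (`Real.exists_int_int_abs_mul_sub_le`, `ξ = 2j/d`, `n = 2z`): there are `0 < k ≤ 2z` and `l` with
`|2 j k/d - l| ≤ 1/(2z+1)`.  Put `n1 = k`, `n2 = -l`, `n3 = 0`: `|2j n1 + d n2| ≤ d/(2z+1)`;
`|n2| ≤ 2jk/d + 1 ≤ k/z + 1 ≤ 3` (`d ≥ 2jz`).
The second alternative of `lat_alg` would give `n2 = -2jk/d`, `|n2| ≤ 1/z * k`, and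
`k XA = |n2| XC` (`n1 XA = -n2 ε XC`), so `XA ≤ (2j/d) XC ≤ XC`, contradicting (2).
(4) So `t/2 ≤ log 2 + 2z XA + 3 XC + d log p/(2 (2z+1))`, `d log p ≤ z t`, hence `d log p/(2(2z+1)) ≤ t/4`, and
`t/4 ≤ log 2 + 1 + 2 z XA`; with `t ≥ 200`: `t/5 ≤ 2 z XA`, i.e. `t ≤ 10 z XA`.
-/

namespace Pool.Agent.H91.CB

open Pool.Agent.H91.CA

/-- size of `XC` -/
theorem latB_XC {p q i j c d z : ℕ} (hp : p.Prime) (hj : 1 ≤ j)
    (hq : q = 4 ^ i + p ^ (2 * j)) (hc : c % 2 = 0) (hz : z % 2 = 1)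
    (h : 2 ^ c + p ^ d = q ^ z) (hcp : 2 ^ c < p) (hlam : 200 ≤ Real.log q) :
    0 < XC p q c d z ∧ XC p q c d z ≤ 2 * Real.exp (-(Real.log q / 4)) := by
  have hp0 : (0 : ℝ) < p := by exact_mod_cast hp.pos
  have hq0 : (0 : ℝ) < q := by
    rw [size_q hq]
    positivity
  have hz1 : 1 ≤ z := by omega
  obtain ⟨t, ht⟩ : ∃ t, t = Real.log q := ⟨_, rfl⟩
  rw [← ht] at hlam ⊢
  have hqt : (q : ℝ) = Real.exp t := by rw [ht, Real.exp_log hq0]
  obtain ⟨s, hs⟩ : ∃ s, s = Real.sqrt ((q : ℝ) ^ z) := ⟨_, rfl⟩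
  obtain ⟨e, he⟩ : ∃ e : ℝ, e = 2 ^ (c / 2) := ⟨_, rfl⟩
  have he0 : 0 < e := by rw [he]; positivity
  have he2 : e ^ 2 = 2 ^ c := by
    rw [he, ← pow_mul, Nat.div_mul_cancel (Nat.dvd_of_mod_eq_zero hc)]
  have hs0 : 0 < s := by rw [hs]; exact Real.sqrt_pos.2 (by positivity)
  have hs2 : s ^ 2 = (q : ℝ) ^ z := by
    rw [hs]
    exact Real.sq_sqrt (by positivity)
  have hpd : (p : ℝ) ^ d = (s - e) * (s + e) := by
    have : (2 : ℝ) ^ c + (p : ℝ) ^ d = (q : ℝ) ^ z := by exact_mod_cast h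
    linear_combination this + he2 - hs2
  -- `e ≤ exp (t / 4)`
  have hps : (p : ℝ) < Real.sqrt q := by
    have h1 := size_sqrt hp.two_le hq
    have h2 : (p : ℝ) ≤ (p : ℝ) ^ j := by
      have h3 : (1 : ℝ) ≤ p := by exact_mod_cast hp.one_le
      calc (p : ℝ) = (p : ℝ) ^ 1 := (pow_one _).symm
        _ ≤ (p : ℝ) ^ j := pow_le_pow_right₀ h3 hj
    linarith
  have hsq : Real.sqrt q = Real.exp (t / 2) := by
    rw [hqt, Real.sqrt_eq_iff_mul_self_eq (Real.exp_pos _).le (Real.exp_pos _).le, ← Real.exp_add]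
    congr 1
    ring
  have hee : e ≤ Real.exp (t / 4) := by
    have h1 : e ^ 2 ≤ (Real.exp (t / 4)) ^ 2 := by
      have h2 : (Real.exp (t / 4)) ^ 2 = Real.exp (t / 2) := by
        rw [← Real.exp_nat_mul]
        congr 1
        push_cast
        ring
      rw [he2, h2, ← hsq]
      have h3 : (2 : ℝ) ^ c < p := by exact_mod_cast hcp
      linarith
    exact le_of_sq_le_sq h1 (Real.exp_pos _).le
  have hss : Real.exp (t / 2) ≤ s := by
    rw [← hsq, hs]
    apply Real.sqrt_le_sqrt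
    have h3 : (1 : ℝ) ≤ q := by
      rw [hqt]
      exact Real.one_le_exp (by linarith)
    calc (q : ℝ) = (q : ℝ) ^ 1 := (pow_one _).symm
      _ ≤ (q : ℝ) ^ z := pow_le_pow_right₀ h3 hz1
  obtain ⟨y, hy⟩ : ∃ y, y = Real.exp (-(t / 4)) := ⟨_, rfl⟩
  have hy0 : 0 < y := by rw [hy]; exact Real.exp_pos _
  have hy1 : y ≤ 1 / 2 := by
    have h1 : (50 : ℝ) + 1 ≤ Real.exp (t / 4) := by
      have := Real.add_one_le_exp (t / 4)
      linarith
    rw [hy, Real.exp_neg, inv_eq_one_div]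
    apply one_div_le_one_div_of_le (by norm_num)
    linarith
  have hes : e ≤ y * s := by
    have h1 : y * Real.exp (t / 2) = Real.exp (t / 4) := by
      rw [hy, ← Real.exp_add]
      congr 1
      ring
    calc e ≤ Real.exp (t / 4) := hee
      _ = y * Real.exp (t / 2) := h1.symm
      _ ≤ y * s := mul_le_mul_of_nonneg_left hss hy0.le
  have hse : 0 < s - e := by nlinarith
  have hse2 : 0 < s + e := by linarith
  have hX : 2 * XC p q c d z = Real.log (s + e) - Real.log (s - e) := by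
    have h1 : (d : ℝ) * Real.log p = Real.log (s - e) + Real.log (s + e) := by
      rw [← Real.log_mul hse.ne' hse2.ne', ← hpd, Real.log_pow]
    unfold XC
    rw [← hs, ← he, add_comm e s]
    linear_combination -h1
  have hlt : Real.log (s - e) < Real.log (s + e) := Real.log_lt_log hse (by linarith)
  refine ⟨by linarith, ?_⟩
  have h1 : Real.log (s + e) - Real.log (s - e) ≤ (s + e) / (s - e) - 1 := by
    rw [← Real.log_div hse2.ne' hse.ne']
    exact Real.log_le_sub_one_of_pos (div_pos hse2 hse)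
  have h2 : (s + e) / (s - e) - 1 ≤ 4 * y := by
    rw [div_sub_one hse.ne', div_le_iff₀ hse]
    nlinarith
  rw [← hy]
  linarith

/-- lower bound for `XA` -/
theorem latB_XA {p q i j : ℕ} (hp : p.Prime)
    (hq : q = 4 ^ i + p ^ (2 * j))
    (hPw : (p : ℝ) ^ (2 * j) < 4 ^ i * (Real.log (Real.log q)) ^ 3)
    (hlam : 200 ≤ Real.log q) :
    1 / (2 * (Real.log q) ^ 2) ≤ XA p q i j := by
  have hp0 : (0 : ℝ) < p := by exact_mod_cast hp.pos
  obtain ⟨t, ht⟩ : ∃ t, t = Real.log q := ⟨_, rfl⟩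
  rw [← ht] at hlam hPw ⊢
  obtain ⟨P, hP⟩ : ∃ P : ℝ, P = (p : ℝ) ^ j := ⟨_, rfl⟩
  obtain ⟨Q, hQ⟩ : ∃ Q : ℝ, Q = 2 ^ i := ⟨_, rfl⟩
  have hP0 : 0 < P := by rw [hP]; positivity
  have hQ0 : 0 < Q := by rw [hQ]; positivity
  have h1 : P ^ 2 < Q ^ 2 * (Real.log t) ^ 3 := by
    have e1 : P ^ 2 = (p : ℝ) ^ (2 * j) := by
      rw [hP, ← pow_mul, mul_comm]
    have e2 : Q ^ 2 = 4 ^ i := by
      rw [hQ, ← pow_mul, mul_comm, pow_mul]
      norm_num
    rw [e1, e2]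
    exact hPw
  have hlt : Real.log t ≤ t := by
    have := Real.log_le_sub_one_of_pos (by linarith : (0 : ℝ) < t)
    linarith
  have hlt0 : 0 ≤ Real.log t := Real.log_nonneg (by linarith)
  have h2 : (Real.log t) ^ 3 ≤ t ^ 4 := by
    calc (Real.log t) ^ 3 ≤ t ^ 3 := pow_le_pow_left₀ hlt0 hlt 3
      _ ≤ t ^ 4 := pow_le_pow_right₀ (by linarith) (by norm_num)
  have h3 : P < Q * t ^ 2 := by
    have h4 : P ^ 2 < (Q * t ^ 2) ^ 2 := by
      calc P ^ 2 < Q ^ 2 * (Real.log t) ^ 3 := h1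
        _ ≤ Q ^ 2 * t ^ 4 := mul_le_mul_of_nonneg_left h2 (by positivity)
        _ = (Q * t ^ 2) ^ 2 := by ring
    exact lt_of_pow_lt_pow_left₀ 2 (by positivity) h4
  have h5 := size_sqrt hp.two_le hq
  rw [← hP] at h5
  have h6 : XA p q i j = Real.log (Q + Real.sqrt q) - Real.log P := by
    unfold XA
    rw [← hQ, hP, Real.log_pow]
  rw [h6, ← Real.log_div (by positivity) hP0.ne']
  have h7 : 1 + 1 / t ^ 2 ≤ (Q + Real.sqrt q) / P := by
    rw [le_div_iff₀ hP0]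
    have h8 : 1 / t ^ 2 * P ≤ Q := by
      rw [one_div, inv_mul_le_iff₀ (by positivity)]
      linarith
    linarith
  have ht2 : (0 : ℝ) < t ^ 2 := by positivity
  have h9 : Real.log (1 + 1 / t ^ 2) ≤ Real.log ((Q + Real.sqrt q) / P) :=
    Real.log_le_log (by positivity) h7
  have h10 : 1 / (2 * t ^ 2) ≤ Real.log (1 + 1 / t ^ 2) := by
    have h11 := Real.one_sub_inv_le_log_of_pos (by positivity : (0 : ℝ) < 1 + 1 / t ^ 2)
    refine le_trans ?_ h11
    have ht4 : (1 : ℝ) ≤ t ^ 2 := by nlinarith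
    have e1 : 1 - (1 + 1 / t ^ 2)⁻¹ = 1 / (t ^ 2 + 1) := by
      field_simp
      ring
    rw [e1]
    apply one_div_le_one_div_of_le (by positivity)
    linarith
  linarith

theorem lat_beta {p q i j c d z : ℕ} (hp : p.Prime) (hp2 : p % 2 = 1) (hi : 2 ≤ i) (hj : 1 ≤ j)
    (hq : q = 4 ^ i + p ^ (2 * j)) (hc : c % 2 = 0) (hc0 : 0 < c) (hz : z % 2 = 1)
    (h : 2 ^ c + p ^ d = q ^ z) (hdl : 2 * j * z + 1 ≤ d) (hcp : 2 ^ c < p)
    (hPw : (p : ℝ) ^ (2 * j) < 4 ^ i * (Real.log (Real.log q)) ^ 3)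
    (hlam : 200 ≤ Real.log q) (hll : 5 ≤ Real.log (Real.log q)) :
    Real.log q ≤ 10 * z * XA p q i j := by
  have hz1 : 1 ≤ z := by omega
  have hd : 1 ≤ d := by omega
  obtain ⟨C1, C2⟩ := latB_XC hp hj hq hc hz h hcp hlam
  have A1 := latB_XA hp hq hPw hlam
  obtain ⟨ε, hε, hlat⟩ := lat_alg hp hp2 hi hj hq hc hc0 hd hz h
  have hp0 : (0 : ℝ) < p := by exact_mod_cast hp.pos
  have hq0 : (0 : ℝ) < q := by
    rw [size_q hq]
    positivity
  have hlp : 0 < Real.log p := Real.log_pos (by exact_mod_cast hp.one_lt)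
  have hdp : d * Real.log p ≤ z * Real.log q := by
    have h1 : (p : ℝ) ^ d ≤ (q : ℝ) ^ z := by
      have : (2 : ℝ) ^ c + (p : ℝ) ^ d = (q : ℝ) ^ z := by exact_mod_cast h
      have h2 : (0 : ℝ) < 2 ^ c := by positivity
      linarith
    have h3 := Real.log_le_log (by positivity) h1
    rwa [Real.log_pow, Real.log_pow] at h3
  generalize XA p q i j = xA at *
  generalize XC p q c d z = xC at *
  generalize XD p q i j = xD at *
  generalize Real.log q = t at *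
  -- `xC < xA`, `xC ≤ 1/3`
  have E1 : 4 * t ^ 2 < Real.exp (t / 4) := by
    have h1 := Real.pow_div_factorial_le_exp (t / 4) (by linarith) 4
    have h2 : (t / 4) ^ 4 / (Nat.factorial 4 : ℝ) = t ^ 4 / 6144 := by
      norm_num [Nat.factorial]
      ring
    rw [h2] at h1
    have h3 : (40000 : ℝ) ≤ t ^ 2 := by nlinarith
    nlinarith
  have E2 : 2 * Real.exp (-(t / 4)) < 1 / (2 * t ^ 2) := by
    rw [Real.exp_neg, lt_div_iff₀ (by positivity)]
    have h1 := Real.exp_pos (t / 4)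
    have h2 : 2 * (Real.exp (t / 4))⁻¹ * (2 * t ^ 2) = (4 * t ^ 2) * (Real.exp (t / 4))⁻¹ := by
      ring
    rw [h2, ← div_eq_mul_inv, div_lt_one h1]
    exact E1
  have E3 : 1 / (2 * t ^ 2) ≤ 1 / 3 := by
    apply one_div_le_one_div_of_le (by norm_num)
    nlinarith
  have hCA : xC < xA := by linarith
  have hC3 : xC ≤ 1 / 3 := by linarith
  have hA0 : 0 < xA := by linarith
  have hd0 : (0 : ℝ) < d := by exact_mod_cast hd
  have hj0 : (1 : ℝ) ≤ j := by exact_mod_cast hj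
  have hz0 : (1 : ℝ) ≤ z := by exact_mod_cast hz1
  have hdl' : 2 * (j : ℝ) * z + 1 ≤ d := by exact_mod_cast hdl
  obtain ⟨l, k, hk0, hk1, hkl⟩ := Real.exists_int_int_abs_mul_sub_le (2 * (j : ℝ) / d)
    (n := 2 * z) (by omega)
  have hk0' : (0 : ℝ) < k := by exact_mod_cast hk0
  have hk1' : (k : ℝ) ≤ 2 * z := by exact_mod_cast hk1
  have hS : |2 * (j : ℝ) * k - d * l| ≤ d / (2 * z + 1) := by
    have e1 : 2 * (j : ℝ) * k - d * l = d * (k * (2 * (j : ℝ) / d) - l) := by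
      field_simp
    rw [e1, abs_mul, abs_of_pos hd0]
    have h2 := mul_le_mul_of_nonneg_left hkl hd0.le
    refine h2.trans (le_of_eq ?_)
    push_cast
    ring
  have hl3 : |(l : ℝ)| ≤ 3 := by
    have h1 : |(k : ℝ) * (2 * (j : ℝ) / d)| ≤ 2 := by
      rw [abs_of_nonneg (by positivity)]
      have h2 : (k : ℝ) * (2 * (j : ℝ) / d) = k * (2 * j) / d := by ring
      rw [h2, div_le_iff₀ hd0]
      have h3 : (k : ℝ) * (2 * j) ≤ 2 * z * (2 * j) :=
        mul_le_mul_of_nonneg_right hk1' (by positivity)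
      nlinarith
    have h4 : (1 : ℝ) / (((2 * z : ℕ) : ℝ) + 1) ≤ 1 := by
      rw [div_le_one (by positivity)]
      push_cast
      linarith
    have h5 : |(l : ℝ)| ≤ |(k : ℝ) * (2 * (j : ℝ) / d)| + |(k : ℝ) * (2 * (j : ℝ) / d) - l| := by
      have e : (l : ℝ) = (k : ℝ) * (2 * (j : ℝ) / d) - ((k : ℝ) * (2 * (j : ℝ) / d) - l) := by
        ring
      calc |(l : ℝ)| = |(k : ℝ) * (2 * (j : ℝ) / d) - ((k : ℝ) * (2 * (j : ℝ) / d) - l)| := by
            rw [← e]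
        _ ≤ _ := abs_sub _ _
    linarith
  have hεa : |ε| = 1 := by
    rcases hε with rfl | rfl <;> simp
  rcases hlat k (-l) 0 with h1 | ⟨h1, -, h3⟩
  · have h2 : |(k : ℝ) * xA + ((-l : ℤ) : ℝ) * (ε * xC) + ((0 : ℤ) : ℝ) * xD| ≤
        2 * z * xA + 1 := by
      have e1 : (k : ℝ) * xA + ((-l : ℤ) : ℝ) * (ε * xC) + ((0 : ℤ) : ℝ) * xD =
          (k : ℝ) * xA + (-(l : ℝ)) * (ε * xC) := by
        push_cast
        ring
      rw [e1]
      refine (abs_add_le _ _).trans ?_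
      have e2 : |(k : ℝ) * xA| ≤ 2 * z * xA := by
        rw [abs_of_pos (by positivity)]
        exact mul_le_mul_of_nonneg_right hk1' hA0.le
      have e3 : |(-(l : ℝ)) * (ε * xC)| ≤ 1 := by
        rw [abs_mul, abs_mul, hεa, abs_neg, one_mul, abs_of_pos C1]
        calc |(l : ℝ)| * xC ≤ 3 * (1 / 3) := mul_le_mul hl3 hC3 C1.le (by norm_num)
          _ = 1 := by norm_num
      linarith
    have h3 : ((|(2 * (j : ℤ) * k + d * (-l) + j * 0 : ℤ)| : ℤ) : ℝ) ≤ d / (2 * z + 1) := by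
      rw [Int.cast_abs]
      have e1 : ((2 * (j : ℤ) * k + d * (-l) + j * 0 : ℤ) : ℝ) = 2 * (j : ℝ) * k - d * l := by
        push_cast
        ring
      rw [e1]
      exact hS
    have h4 : ((|(2 * (j : ℤ) * k + d * (-l) + j * 0 : ℤ)| : ℤ) : ℝ) / 2 * Real.log p ≤ t / 4 := by
      have h5 : ((|(2 * (j : ℤ) * k + d * (-l) + j * 0 : ℤ)| : ℤ) : ℝ) / 2 * Real.log p ≤
          (d / (2 * z + 1)) / 2 * Real.log p := by
        apply mul_le_mul_of_nonneg_right _ hlp.le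
        linarith
      have h6 : ((d : ℝ) / (2 * z + 1)) / 2 * Real.log p = (d * Real.log p) / (2 * (2 * z + 1)) := by
        field_simp
      have h7 : (d * Real.log p) / (2 * (2 * z + 1)) ≤ t / 4 := by
        rw [div_le_iff₀ (by positivity)]
        nlinarith
      linarith
    have hlog2 : Real.log 2 < 1 := by
      have := Real.log_two_lt_d9
      linarith
    simp only [Int.cast_zero, abs_zero, mul_zero, zero_mul, add_zero] at h1 h2 h4
    nlinarith
  · exfalso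
    have h4 : 2 * (j : ℤ) * k = d * l := by linarith
    have hl0 : 0 < l := by
      have h5 : (0 : ℤ) < d * l := by
        rw [← h4]
        have : (0 : ℤ) < j := by exact_mod_cast hj
        positivity
      have hdz : (0 : ℤ) < d := by exact_mod_cast hd
      exact (pos_iff_pos_of_mul_pos h5).1 hdz
    have hl0' : (0 : ℝ) < l := by exact_mod_cast hl0
    have hlk : (l : ℝ) ≤ k := by
      have e1 : 2 * (j : ℝ) * k = d * l := by exact_mod_cast h4
      have e2 : (d : ℝ) * l ≤ d * k := by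
        rw [← e1]
        apply mul_le_mul_of_nonneg_right _ hk0'.le
        nlinarith
      exact le_of_mul_le_mul_left e2 hd0
    have e3 : (k : ℝ) * xA = l * (ε * xC) := by
      push_cast at h1
      linarith
    have e4 : (l : ℝ) * (ε * xC) ≤ l * xC := by
      apply mul_le_mul_of_nonneg_left _ hl0'.le
      rcases hε with rfl | rfl <;> linarith
    have e5 : (l : ℝ) * xC ≤ k * xC := mul_le_mul_of_nonneg_right hlk C1.le
    have e6 : (k : ℝ) * xC < k * xA := mul_lt_mul_of_pos_left hCA hk0'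
    linarith

end Pool.Agent.H91.CB
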