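import Pool.Agent.H91.CA.Lfl2
import Pool.Agent.H91.CA.Asy
import Pool.Agent.H91.CA.Def

/-!
JOB CB-15 (upper bound for `4^i`, about 100-140 lines; uses the finished `lfl_arch`, `L_cond`; compare
`CA/RLe.lean`).

`t = log q`, `w = 4^i`, `P = p^(2j)`, `Λ = d log p - 2 i z log 2`.  `d log p = log (q^z - 2^c)
= z log q + log (1 - 2^c/q^z)` and `z log q = z log w + z log (1 + P/w)`, so
`Λ = z log(1 + P/w) + log (1 - 2^c/q^z)`; `2^c < p ≤ P`, `2^c/q^z ≤ p/q^z ≤ min (1/2, P/w)` (`q^z ≥ q ≥ w`,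
`q ≥ p² + 1 ≥ 2p`), so `|Λ| ≤ z P/w + 2 P/w = (z+2) P/w`.
`lfl_arch` with `a = 2`, `u = 2iz`, `b = p`, `v = d`, `E = 1`, `F = ⌈log p⌉₊ ≤ 2 log p`, `B = max (2iz) d`:
`2 i z log 2 ≤ z t`, so `2iz ≤ 2 z t ≤ 2 t^5`, `d ≤ d log p ≤ z t ≤ t^5`; `E F B ≤ 2 t * 2 t^5 ≤ t^9`;
`L = ⌈100 log t⌉₊ ≤ 101 log t`: `|Λ| ≥ exp(-5000 L² F)`.
So `log (w/P) ≤ log (z+2) + 5000 (101 log t)² * 2 log p ≤ 5 log t + 1.0202 * 10^8 (log t)² log p
≤ 2 * 10^8 (log t)² log p`, and `log w = 2j log p + log (w/P)`.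
-/

namespace Pool.Agent.H91.CB

open Pool.Agent.H91.CA

theorem UpW_log1m {y : ℝ} (h0 : 0 ≤ y) (h1 : y ≤ 1 / 2) : -(2 * y) ≤ Real.log (1 - y) := by
  have hpos : 0 < 1 - y := by linarith
  have h := Real.one_sub_inv_le_log_of_pos hpos
  have h2 : -(2 * y) ≤ 1 - (1 - y)⁻¹ := by
    have h3 : (1 - y)⁻¹ ≤ 1 + 2 * y := by
      rw [inv_le_comm₀ hpos (by linarith), inv_le_iff_one_le_mul₀ (by linarith)]
      nlinarith
    linarith
  linarith

theorem UpW_ceil {x : ℝ} (h : 1 ≤ x) : 1 ≤ ⌈x⌉₊ ∧ x ≤ (⌈x⌉₊ : ℝ) ∧ (⌈x⌉₊ : ℝ) ≤ x + 1 := by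
  refine ⟨?_, Nat.le_ceil x, (Nat.ceil_lt_add_one (by linarith)).le⟩
  rw [Nat.one_le_ceil_iff]
  linarith

theorem up_w {p q i j c d z : ℕ} (hp : p.Prime) (hp3 : 3 ≤ p) (hi : 1 ≤ i) (hj : 1 ≤ j)
    (hq : q = 4 ^ i + p ^ (2 * j)) (hz : 1 ≤ z) (hd : 1 ≤ d) (h : 2 ^ c + p ^ d = q ^ z)
    (hc : 2 ^ c < p) (hlam : 200 ≤ Real.log q) (hll : 5 ≤ Real.log (Real.log q))
    (hzl : (z : ℝ) ≤ (Real.log q) ^ 4) :
    i * Real.log 4 ≤ 2 * j * Real.log p +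
      2 * 10 ^ 8 * (Real.log (Real.log q)) ^ 2 * Real.log p := by
  set t := Real.log q with ht
  set l := Real.log t with hl
  set s := Real.log p with hs
  have hp3r : (3 : ℝ) ≤ p := by exact_mod_cast hp3
  have hp0 : (0 : ℝ) < p := by linarith
  have hP0 : (0 : ℝ) < (p : ℝ) ^ (2 * j) := by positivity
  have hw0 : (0 : ℝ) < (4 : ℝ) ^ i := by positivity
  have hqr : (q : ℝ) = 4 ^ i + (p : ℝ) ^ (2 * j) := by
    rw [hq]
    push_cast
    ring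
  have hq0 : (0 : ℝ) < q := by
    rw [hqr]
    positivity
  have hs1 : 1 ≤ s := by
    rw [hs, Real.le_log_iff_exp_le hp0]
    have := Real.exp_one_lt_d9
    linarith
  have ht0 : 0 < t := by linarith
  have hlogw : Real.log ((4 : ℝ) ^ i) = i * Real.log 4 := Real.log_pow _ _
  have hlogP : Real.log ((p : ℝ) ^ (2 * j)) = 2 * j * s := by
    rw [Real.log_pow]
    push_cast
    ring
  have hnn : 0 ≤ 2 * 10 ^ 8 * l ^ 2 * s := by positivity
  rcases le_or_gt ((4 : ℝ) ^ i) ((p : ℝ) ^ (2 * j)) with hwP | hwP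
  · have h1 := Real.log_le_log hw0 hwP
    rw [hlogw, hlogP] at h1
    linarith
  have hpP2 : (p : ℝ) ^ 2 ≤ (p : ℝ) ^ (2 * j) :=
    pow_le_pow_right₀ (by linarith) (by omega)
  have hp2' : 3 * (p : ℝ) ≤ (p : ℝ) ^ 2 := by
    rw [sq]
    exact mul_le_mul_of_nonneg_right hp3r hp0.le
  have hpP : (p : ℝ) ≤ (p : ℝ) ^ (2 * j) := by linarith
  have hwq : (4 : ℝ) ^ i ≤ q := by rw [hqr]; linarith
  have hpq : 2 * (p : ℝ) ≤ q := by rw [hqr]; linarith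
  have hst : s ≤ t := Real.log_le_log hp0 (by linarith)
  have hz1 : (1 : ℝ) ≤ z := by exact_mod_cast hz
  have hqz0 : (0 : ℝ) < (q : ℝ) ^ z := by positivity
  have hpd0 : (0 : ℝ) < (p : ℝ) ^ d := by positivity
  have hreal : (2 : ℝ) ^ c + (p : ℝ) ^ d = (q : ℝ) ^ z := by exact_mod_cast h
  have hcr : (2 : ℝ) ^ c < p := by exact_mod_cast hc
  have h2c0 : (0 : ℝ) < 2 ^ c := by positivity
  have hq1 : (1 : ℝ) ≤ q := by linarith
  have hqqz : (q : ℝ) ≤ (q : ℝ) ^ z := by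
    calc (q : ℝ) = (q : ℝ) ^ 1 := (pow_one _).symm
      _ ≤ (q : ℝ) ^ z := pow_le_pow_right₀ hq1 hz
  set ρ : ℝ := (p : ℝ) ^ (2 * j) / (4 : ℝ) ^ i with hρ
  have hρ0 : 0 < ρ := by positivity
  set y : ℝ := (2 : ℝ) ^ c / (q : ℝ) ^ z with hy
  have hy0 : 0 < y := by positivity
  have hy2 : y ≤ 1 / 2 := by
    rw [hy, div_le_div_iff₀ hqz0 (by norm_num)]
    linarith
  have hyρ : y ≤ ρ := by
    rw [hy, hρ, div_le_div_iff₀ hqz0 hw0]
    calc (2 : ℝ) ^ c * 4 ^ i ≤ (p : ℝ) ^ (2 * j) * (q : ℝ) ^ z :=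
          mul_le_mul (by linarith) (by linarith) hw0.le hP0.le
      _ = (p : ℝ) ^ (2 * j) * (q : ℝ) ^ z := rfl
  -- `z t = z (i log 4) + z log (1 + ρ)`
  have hlogq : t = i * Real.log 4 + Real.log (1 + ρ) := by
    have e : (q : ℝ) = (4 : ℝ) ^ i * (1 + ρ) := by
      rw [hqr, hρ]
      field_simp
    rw [ht, e, Real.log_mul hw0.ne' (by positivity), hlogw]
  have hr0 : 0 ≤ Real.log (1 + ρ) := Real.log_nonneg (by linarith)
  have hr1 : Real.log (1 + ρ) ≤ ρ := by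
    have := Real.log_le_sub_one_of_pos (show (0 : ℝ) < 1 + ρ by linarith)
    linarith
  have hpd : (p : ℝ) ^ d = (q : ℝ) ^ z * (1 - y) := by
    rw [hy]
    field_simp
    linarith
  have hlogd : (d : ℝ) * s = z * t + Real.log (1 - y) := by
    have h3 := congrArg Real.log hpd
    rw [Real.log_pow, Real.log_mul hqz0.ne' (by linarith), Real.log_pow] at h3
    exact h3
  have hlo := UpW_log1m hy0.le hy2
  have hhi : Real.log (1 - y) ≤ 0 := by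
    have := Real.log_le_sub_one_of_pos (by linarith : 0 < 1 - y)
    linarith
  have hlog4 : Real.log 4 = 2 * Real.log 2 := by
    have : (4 : ℝ) = 2 ^ 2 := by norm_num
    rw [this, Real.log_pow]
    norm_num
  have hlog2 := Real.log_two_gt_d9
  have hlog2' := Real.log_two_lt_d9
  have hzt : (z : ℝ) * t ≤ t ^ 5 := by
    calc z * t ≤ t ^ 4 * t := mul_le_mul_of_nonneg_right hzl ht0.le
      _ = t ^ 5 := by ring
  have hu : ((2 * i * z : ℕ) : ℝ) ≤ 2 * t ^ 5 := by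
    push_cast
    have h3 : (i : ℝ) * Real.log 4 ≤ t := by linarith
    have h4 : (z : ℝ) * (i * Real.log 4) ≤ z * t :=
      mul_le_mul_of_nonneg_left h3 (by linarith)
    rw [hlog4] at h4
    have h5 : (0 : ℝ) ≤ (z : ℝ) * i := by positivity
    have h6 : (z : ℝ) * i ≤ z * (i * (2 * Real.log 2)) := by
      calc (z : ℝ) * i ≤ z * i * (2 * Real.log 2) := le_mul_of_one_le_right h5 (by linarith)
        _ = z * (i * (2 * Real.log 2)) := by ring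
    linarith
  have hd5 : (d : ℝ) ≤ t ^ 5 := by
    have hd0 : (0 : ℝ) ≤ d := Nat.cast_nonneg d
    have hd1 : (d : ℝ) ≤ d * s := le_mul_of_one_le_right hd0 hs1
    linarith
  have ht5 : 0 ≤ t ^ 5 := by positivity
  have hB : ((max (2 * i * z) d : ℕ) : ℝ) ≤ 2 * t ^ 5 := by
    rw [Nat.cast_max]
    exact max_le hu (by linarith)
  obtain ⟨hF1, hF2, hF3⟩ := UpW_ceil hs1
  have hEFB : ((1 : ℕ) : ℝ) * ((⌈s⌉₊ : ℕ) : ℝ) * ((max (2 * i * z) d : ℕ) : ℝ) ≤ t ^ 9 := by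
    rw [Nat.cast_one, one_mul]
    calc ((⌈s⌉₊ : ℕ) : ℝ) * ((max (2 * i * z) d : ℕ) : ℝ) ≤ (2 * t) * (2 * t ^ 5) :=
          mul_le_mul (by linarith) hB (Nat.cast_nonneg _) (by linarith)
      _ = 4 * t ^ 6 := by ring
      _ ≤ t ^ 3 * t ^ 6 := by
          refine mul_le_mul_of_nonneg_right ?_ (by positivity)
          calc (4 : ℝ) ≤ 200 ^ 3 := by norm_num
            _ ≤ t ^ 3 := pow_le_pow_left₀ (by norm_num) hlam 3
      _ = t ^ 9 := by ring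
  have hu1 : 1 ≤ 2 * i * z := Nat.mul_pos (Nat.mul_pos (by norm_num) hi) hz
  obtain ⟨hL1, hL2⟩ := L_cond (x := t) (E := 1) (F := ⌈s⌉₊) (B := max (2 * i * z) d) hll ht0
    le_rfl hF1 (le_max_of_le_left hu1) hEFB
  have hcop : Nat.Coprime 2 p := by
    rw [Nat.coprime_primes Nat.prime_two hp]
    omega
  have key := lfl_arch (a := 2) (b := p) (u := 2 * i * z) (v := d) (E := 1) (F := ⌈s⌉₊)
    (L := ⌈100 * l⌉₊) (B := max (2 * i * z) d) hcop le_rfl (by omega) hu1 hd (le_max_left _ _)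
    (le_max_right _ _) (by push_cast; linarith) hF2 le_rfl hF1 hL1
  have habs : |((2 * i * z : ℕ) : ℝ) * Real.log ((2 : ℕ) : ℝ) - (d : ℝ) * Real.log p| ≤
      (z + 2) * ρ := by
    have e : ((2 : ℕ) : ℝ) = 2 := by norm_num
    have e2 : ((2 * i * z : ℕ) : ℝ) * Real.log 2 = z * (i * Real.log 4) := by
      rw [hlog4]
      push_cast
      ring
    have e3 : ((2 * i * z : ℕ) : ℝ) * Real.log ((2 : ℕ) : ℝ) - (d : ℝ) * Real.log p =
        -(z * Real.log (1 + ρ) + Real.log (1 - y)) := by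
      rw [e, e2, ← hs, hlogd]
      rw [show (z : ℝ) * t = z * (i * Real.log 4 + Real.log (1 + ρ)) by rw [← hlogq]]
      ring
    rw [e3, abs_neg, abs_le]
    have h3 : (z : ℝ) * Real.log (1 + ρ) ≤ z * ρ := mul_le_mul_of_nonneg_left hr1 (by linarith)
    have h4 : 0 ≤ (z : ℝ) * Real.log (1 + ρ) := mul_nonneg (by linarith) hr0
    have h5 : 0 ≤ (z : ℝ) * ρ := by positivity
    have h6 : ((z : ℝ) + 2) * ρ = z * ρ + 2 * ρ := by ring
    rw [h6]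
    constructor <;> linarith
  have h6 := key.trans habs
  have hlogρ : Real.log ρ = 2 * j * s - i * Real.log 4 := by
    rw [hρ, Real.log_div hP0.ne' hw0.ne', hlogP, hlogw]
  have h7 : -(5000 * ((⌈100 * l⌉₊ : ℕ) : ℝ) ^ 2 * ((1 : ℕ) : ℝ) * ((⌈s⌉₊ : ℕ) : ℝ)) ≤
      Real.log (z + 2) + (2 * j * s - i * Real.log 4) := by
    have h8 := Real.log_le_log (Real.exp_pos _) h6
    rw [Real.log_exp, Real.log_mul (by positivity) hρ0.ne', hlogρ] at h8
    exact h8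
  have hLn : (0 : ℝ) ≤ ((⌈100 * l⌉₊ : ℕ) : ℝ) := Nat.cast_nonneg _
  have hL3 : ((⌈100 * l⌉₊ : ℕ) : ℝ) ^ 2 ≤ 10201 * l ^ 2 := by
    calc ((⌈100 * l⌉₊ : ℕ) : ℝ) ^ 2 ≤ (101 * l) ^ 2 := pow_le_pow_left₀ hLn hL2 2
      _ = 10201 * l ^ 2 := by ring
  have h9 : 5000 * ((⌈100 * l⌉₊ : ℕ) : ℝ) ^ 2 * ((⌈s⌉₊ : ℕ) : ℝ) ≤
      5000 * (10201 * l ^ 2) * (2 * s) := by
    have : 5000 * ((⌈100 * l⌉₊ : ℕ) : ℝ) ^ 2 ≤ 5000 * (10201 * l ^ 2) := by linarith
    exact mul_le_mul this (by linarith) (Nat.cast_nonneg _) (by positivity)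
  rw [Nat.cast_one, mul_one] at h7
  have hlz : Real.log (z + 2) ≤ 5 * l := by
    have h10 : (z : ℝ) + 2 ≤ t ^ 5 := by
      have h11 : (1 : ℝ) ≤ t ^ 4 := one_le_pow₀ (by linarith)
      have h12 : t ^ 5 = t ^ 4 * t := by ring
      have h13 : t ^ 4 * 3 ≤ t ^ 4 * t := mul_le_mul_of_nonneg_left (by linarith) (by linarith)
      linarith
    have h13 := Real.log_le_log (by positivity) h10
    rw [Real.log_pow] at h13
    push_cast at h13
    exact h13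
  have hl2 : 5 * l ≤ l ^ 2 := by
    rw [sq]
    exact mul_le_mul_of_nonneg_right hll (by linarith)
  have hl3 : l ^ 2 ≤ l ^ 2 * s := le_mul_of_one_le_right (sq_nonneg l) hs1
  have hl4 : 0 ≤ l ^ 2 * s := mul_nonneg (sq_nonneg l) (by linarith)
  linarith

/-- `XA = log ((2^i + √q)/p^j) ≤ log (2 √q/p^j)`, `log q = log (4^i + p^(2j)) ≤ log 2 + max (i log 4) (2j log p)`,
so `XA ≤ 2 log 2 + (1/2) * 2 * 10^8 (log t)² log p`. -/
theorem XA_up {p q i j : ℕ} {u : ℝ} (hp : 2 ≤ p) (hq : q = 4 ^ i + p ^ (2 * j)) (hu : 0 ≤ u)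
    (h : i * Real.log 4 ≤ 2 * j * Real.log p + 2 * u) : XA p q i j ≤ 2 * Real.log 2 + u := by
  unfold XA
  have hp0 : (0 : ℝ) < p := by exact_mod_cast (by omega : 0 < p)
  have hP0 : (0 : ℝ) < (p : ℝ) ^ (2 * j) := by positivity
  have hw0 : (0 : ℝ) < (4 : ℝ) ^ i := by positivity
  have hqr : (q : ℝ) = 4 ^ i + (p : ℝ) ^ (2 * j) := by
    rw [hq]
    push_cast
    ring
  have hq0 : (0 : ℝ) < q := by
    rw [hqr]
    positivity
  have hsq0 : 0 < Real.sqrt q := Real.sqrt_pos.mpr hq0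
  have h2i : (2 : ℝ) ^ i ≤ Real.sqrt q := by
    apply Real.le_sqrt_of_sq_le
    rw [hqr, ← pow_mul, mul_comm i 2, pow_mul]
    norm_num
  have h1 : Real.log (2 ^ i + Real.sqrt q) ≤ Real.log 2 + Real.log q / 2 := by
    have h2 : Real.log (2 ^ i + Real.sqrt q) ≤ Real.log (2 * Real.sqrt q) :=
      Real.log_le_log (by positivity) (by linarith)
    rw [Real.log_mul (by norm_num) hsq0.ne', Real.log_sqrt hq0.le] at h2
    exact h2
  have hlog2 : 0 < Real.log 2 := Real.log_pos (by norm_num)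
  have h3 : Real.log q ≤ Real.log 2 + (2 * j * Real.log p + 2 * u) := by
    have hP : Real.log ((p : ℝ) ^ (2 * j)) = 2 * j * Real.log p := by
      rw [Real.log_pow]
      push_cast
      ring
    rcases le_total ((4 : ℝ) ^ i) ((p : ℝ) ^ (2 * j)) with hc | hc
    · have h4 : Real.log q ≤ Real.log (2 * (p : ℝ) ^ (2 * j)) :=
        Real.log_le_log hq0 (by linarith)
      rw [Real.log_mul (by norm_num) hP0.ne', hP] at h4
      linarith
    · have h4 : Real.log q ≤ Real.log (2 * (4 : ℝ) ^ i) :=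
        Real.log_le_log hq0 (by linarith)
      rw [Real.log_mul (by norm_num) hw0.ne', Real.log_pow] at h4
      linarith
  linarith

end Pool.Agent.H91.CB
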