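import Pool.Agent.H91.CA.Main
import Pool.Agent.H91.CB.UpW
import Pool.Agent.H91.CB.LatB

/-! Assembly (helper91): lower bound for `p` in the case `p ≡ 1 (mod 24)`. -/

namespace Pool.Agent.H91.CB

open Pool.Agent.H91.CA

theorem coreC : ∃ T : ℝ, ∀ p q i j c d z : ℕ, p.Prime → q.Prime → p % 24 = 1 → 1 ≤ i → 1 ≤ j →
    q = 4 ^ i + p ^ (2 * j) → c % 2 = 0 → 0 < c → d % 2 = 1 → z % 2 = 1 →
    2 ^ c + p ^ d = q ^ z → T ≤ Real.log q →
    Real.log q ≤ 10 ^ 18 * (Real.log p) ^ 2 * (Real.log (Real.log q)) ^ 4 := by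
  obtain ⟨T, hT⟩ := asym
  obtain ⟨T', hT'⟩ := core
  refine ⟨max T T', fun p q i j c d z hp hq h24 hi hj hqe hc hc0 hd hz h hlarge => ?_⟩
  obtain ⟨hlog, h200, hexp, hfin, hzb⟩ := hT _ (le_trans (le_max_left _ _) hlarge)
  have hPw := hT' p q i j c d z hp hq h24 hi hj hqe hc hc0 hd hz h
    (le_trans (le_max_right _ _) hlarge)
  set t := Real.log q with ht
  have hll : (5 : ℝ) ≤ Real.log t := le_trans (by norm_num) hlog
  have ht0 : (0 : ℝ) < t := by linarith
  have hp25 : 25 ≤ p := by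
    rcases Nat.lt_or_ge p 25 with hlt | hge
    · have : p = 1 := by omega
      exact absurd (this ▸ hp) (by norm_num)
    · exact hge
  have hp2 : 2 ≤ p := hp.two_le
  have hpq : p < q := by
    have h1 : p ^ 1 ≤ p ^ (2 * j) := Nat.pow_le_pow_right (by omega) (by omega)
    have h2 : 0 < 4 ^ i := by positivity
    rw [pow_one] at h1
    omega
  have hcop : q.Coprime p := (Nat.coprime_primes hq hp).2 (by omega)
  have hq4 : q % 4 = 1 := by
    have h1 : p ^ (2 * j) % 4 = 1 := by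
      rw [Nat.pow_mod, show p % 4 = 1 by omega]; simp
    have h2 : 4 ^ i % 4 = 0 := by
      obtain ⟨k, rfl⟩ : ∃ k, i = k + 1 := ⟨i - 1, by omega⟩
      rw [pow_succ]; omega
    omega
  have hzd : z.Coprime d := cop_zd (by omega) (by omega) hp2 (by omega) hz (by omega) h
  have hz1 : 1 ≤ z := by omega
  have hzt : (z : ℝ) ≤ t ^ 4 :=
    hzb z (by exact_mod_cast hz1) (z_le_core hp2 hpq hcop hq4 (by omega) hd hzd hz1 h h200)
  have hte : t = Real.log ((4 : ℝ) ^ i + (p : ℝ) ^ (2 * j)) := by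
    rw [ht, hqe]; push_cast; rfl
  have hlp1 : (1 : ℝ) ≤ Real.log p := by
    have h1 : Real.exp 1 ≤ (p : ℝ) := by
      have h2 : (25 : ℝ) ≤ p := by exact_mod_cast hp25
      have := Real.exp_one_lt_d9
      linarith
    rw [← Real.log_exp 1]
    exact Real.log_le_log (Real.exp_pos 1) h1
  have hlt : Real.log t ≤ t := by
    have := Real.log_le_sub_one_of_pos ht0
    linarith
  -- `i ≥ 2`
  have hi2 : 2 ≤ i := by
    by_contra hi1
    have hi1' : i = 1 := by omega
    subst hi1'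
    have h1 : (q : ℝ) ≤ 4 + 4 * t ^ 3 := by
      rw [hqe]
      push_cast
      have h2 : (Real.log t) ^ 3 ≤ t ^ 3 := pow_le_pow_left₀ (by linarith) hlt 3
      have h3 : (4 : ℝ) ^ 1 * (Real.log t) ^ 3 ≤ 4 * t ^ 3 := by
        rw [pow_one]; linarith
      rw [pow_one] at hPw h3
      linarith
    have h2 : Real.exp (t / 2) ≤ q := by
      have hq0 : (0 : ℝ) < q := by exact_mod_cast hq.pos
      calc Real.exp (t / 2) ≤ Real.exp t := Real.exp_le_exp.2 (by linarith)
        _ = q := by rw [ht]; exact Real.exp_log hq0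
    have h3 : 4 + 4 * t ^ 3 < 32 * t ^ 10 := by
      have h4 : (1 : ℝ) ≤ t ^ 3 := one_le_pow₀ (by linarith)
      have h5 : t ^ 3 ≤ t ^ 10 := pow_le_pow_right₀ (by linarith) (by norm_num)
      linarith
    linarith
  -- data of the second case
  have hbeta : 2 ^ c < p ∧ 2 * j * z + 1 ≤ d := by
    rcases tri hp (by omega) hi hj hqe hd hz h with ⟨_, hdiv, hic⟩ | ⟨hdiv, hdl⟩
    · -- `4^i < p` contradicts `hPw`
      exfalso
      have h4p : 4 ^ i < p := by
        have := Nat.le_of_dvd (by omega) hdiv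
        omega
      have h4 : (4 : ℝ) ^ i < p := by exact_mod_cast h4p
      have hp0 : (0 : ℝ) < (p : ℝ) := by exact_mod_cast (by omega : 0 < p)
      have hL0 : (0 : ℝ) < Real.log t := by linarith
      have h5 : (p : ℝ) ^ (2 * j) < p * (Real.log t) ^ 3 :=
        hPw.trans (mul_lt_mul_of_pos_right h4 (by positivity))
      have h6 : (p : ℝ) ^ 2 ≤ (p : ℝ) ^ (2 * j) := pow_le_pow_right₀
        (by exact_mod_cast (by omega : 1 ≤ p)) (by omega)
      have h7 : (p : ℝ) < (Real.log t) ^ 3 := by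
        have : (p : ℝ) * p < p * (Real.log t) ^ 3 := by nlinarith
        exact lt_of_mul_lt_mul_left this hp0.le
      have h8 : (q : ℝ) ≤ 2 * t ^ 6 := by
        rw [hqe]
        push_cast
        have h9 : (Real.log t) ^ 3 ≤ t ^ 3 := pow_le_pow_left₀ (by linarith) hlt 3
        have h10 : (p : ℝ) * (Real.log t) ^ 3 ≤ t ^ 3 * t ^ 3 := by
          apply mul_le_mul (by linarith) h9 (by positivity) (by positivity)
        have h11 : t ^ 3 * t ^ 3 = t ^ 6 := by ring
        have h12 : t ^ 3 ≤ t ^ 6 := pow_le_pow_right₀ (by linarith) (by norm_num)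
        linarith
      have h2 : Real.exp (t / 2) ≤ q := by
        have hq0 : (0 : ℝ) < q := by exact_mod_cast hq.pos
        calc Real.exp (t / 2) ≤ Real.exp t := Real.exp_le_exp.2 (by linarith)
          _ = q := by rw [ht]; exact Real.exp_log hq0
      have h3 : 2 * t ^ 6 < 32 * t ^ 10 := by
        have h5 : t ^ 6 ≤ t ^ 10 := pow_le_pow_right₀ (by linarith) (by norm_num)
        have h6 : (0 : ℝ) < t ^ 10 := by positivity
        linarith
      linarith
    · refine ⟨?_, hdl⟩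
      have := Nat.le_of_dvd (by omega) hdiv
      omega
  obtain ⟨hcp, hdl⟩ := hbeta
  have hz' := beta_z (by omega) hpq hcop hz1 (by omega) h hcp h200 hll hzt
  have hup := up_w hp (by omega) hi hj hqe hz1 (by omega) h hcp h200 hll hzt
  have hlat := lat_beta hp (by omega) hi2 hj hqe hc hc0 hz h hdl hcp hPw h200 hll
  have hXA := XA_up (u := 10 ^ 8 * (Real.log t) ^ 2 * Real.log p) hp2 hqe (by positivity)
    (by linarith)
  have hXA' : XA p q i j ≤ 1.1 * 10 ^ 8 * (Real.log t) ^ 2 * Real.log p := by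
    have h1 : Real.log 2 < 0.7 := by
      have := Real.log_two_lt_d9
      linarith
    have h2 : (25 : ℝ) ≤ (Real.log t) ^ 2 := by nlinarith
    have h3 : (25 : ℝ) ≤ (Real.log t) ^ 2 * Real.log p := by nlinarith
    nlinarith
  have hXA0 : 0 ≤ XA p q i j := (XA_pos hp2 hqe).le
  calc t ≤ 10 * z * XA p q i j := hlat
    _ ≤ 10 * (3 * 10 ^ 8 * (Real.log t) ^ 2 * Real.log p) *
        (1.1 * 10 ^ 8 * (Real.log t) ^ 2 * Real.log p) := by
        gcongr
    _ = 3.3 * 10 ^ 17 * ((Real.log p) ^ 2 * (Real.log t) ^ 4) := by ring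
    _ ≤ 10 ^ 18 * ((Real.log p) ^ 2 * (Real.log t) ^ 4) := by
        have : (0 : ℝ) ≤ (Real.log p) ^ 2 * (Real.log t) ^ 4 := by positivity
        nlinarith
    _ = 10 ^ 18 * (Real.log p) ^ 2 * (Real.log t) ^ 4 := by ring

end Pool.Agent.H91.CB
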