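import Pool.Agent.H91.CA.Nrm

/-!
JOB CB-02 (formal solution of a trinomial equation, about 100-150 lines; adapt the finished file
`Pool/Agent/H91/CA/TayA.lean`; uses the finished lemmas of `CA/Nrm.lean`).

Let `τ = 1/(64 d^4)`, `δ = 1/(4 d²)`, `s ≤ d`.  For `y` in `ℤ[X]` put
`Φ(y) = -X - ∑_{a=2}^{d} (choose d a - choose N a) s^(a-2) y^a`.
(1) `(1+sy)^d - (1+sy)^N + s² X = s² (y - Φ(y))`: `(1+sy)^d - (1+sy)^N = ∑_{a=0}^d (choose d a - choose N a) s^a y^a`,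
the `a = 0` term is `0`, the `a = 1` term is `(d - N) s y = s² y`.
(2) `nrm y ≤ δ` implies `nrm (Φ y) ≤ τ + ∑_{a≥2} d^a d^(a-2) δ^a = τ + d^(-2) ∑_{a≥2} 4^(-a) ≤ d^(-2)/64 + d^(-2)/12 ≤ δ`.
(3) Contraction: `y(0) = y'(0) = 0`, `X^k ∣ y - y'` imply `X^(k+1) ∣ Φ(y) - Φ(y')`.
(4) Induction on `m` as in TayA (`exists_trunc`).
-/

namespace Pool.Agent.H91.CB

open Polynomial Pool.Agent.H91.CA

private noncomputable def TayG_S1 (d r n : ℕ) (y : ℤ[X]) : ℤ[X] :=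
  ∑ a ∈ Finset.range (n - 1),
    C (((n.choose (a + 2) : ℤ) - (d.choose (a + 2) : ℤ)) * (r : ℤ) ^ a) * y ^ (a + 2)

private theorem TayG_binom (r m N : ℕ) (h : m ≤ N) (y : ℤ[X]) :
    (1 + C (r : ℤ) * y) ^ m =
      ∑ a ∈ Finset.range (N + 1), C (m.choose a : ℤ) * (C (r : ℤ) * y) ^ a := by
  rw [add_comm, add_pow]
  have h1 : ∀ a, (C (r : ℤ) * y) ^ a * 1 ^ (m - a) * ((m.choose a : ℕ) : ℤ[X]) =
      C (m.choose a : ℤ) * (C (r : ℤ) * y) ^ a := by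
    intro a
    rw [one_pow, mul_one, mul_comm]
    congr 1
  simp only [h1]
  refine Finset.sum_subset (fun a ha => ?_) fun a _ ha => ?_
  · rw [Finset.mem_range] at ha ⊢
    omega
  · rw [Finset.mem_range, not_lt] at ha
    rw [Nat.choose_eq_zero_of_lt (by omega)]
    simp

private theorem TayG_id1 {d r n : ℕ} (hn2 : 2 ≤ n) (hr : d + r = n) (y : ℤ[X]) :
    (1 + C (r : ℤ) * y) ^ n - (1 + C (r : ℤ) * y) ^ d =
      C ((r : ℤ) ^ 2) * (y + TayG_S1 d r n y) := by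
  obtain ⟨k, rfl⟩ : ∃ k, n = k + 2 := ⟨n - 2, by omega⟩
  rw [TayG_binom r (k + 2) (k + 2) le_rfl y, TayG_binom r d (k + 2) (by omega) y,
    ← Finset.sum_sub_distrib, Finset.sum_range_succ', Finset.sum_range_succ']
  have h1 : k + 2 - 1 = k + 1 := by omega
  unfold TayG_S1
  rw [h1, mul_add, Finset.mul_sum]
  have h2 : ∀ a, C (((k + 2).choose (a + 1 + 1) : ℕ) : ℤ) * (C (r : ℤ) * y) ^ (a + 1 + 1) -
      C ((d.choose (a + 1 + 1) : ℕ) : ℤ) * (C (r : ℤ) * y) ^ (a + 1 + 1) =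
      C ((r : ℤ) ^ 2) * (C ((((k + 2).choose (a + 2) : ℤ) - (d.choose (a + 2) : ℤ)) *
        (r : ℤ) ^ a) * y ^ (a + 2)) := by
    intro a
    rw [C_mul, C_sub, C_pow, C_pow, mul_pow]
    ring
  simp only [h2]
  have h3 : C (((k + 2).choose (0 + 1) : ℕ) : ℤ) * (C (r : ℤ) * y) ^ (0 + 1) -
      C ((d.choose (0 + 1) : ℕ) : ℤ) * (C (r : ℤ) * y) ^ (0 + 1) = C ((r : ℤ) ^ 2) * y := by
    rw [zero_add, Nat.choose_one_right, Nat.choose_one_right, ← hr, pow_one, ← sub_mul,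
      ← C_sub, C_pow]
    have h4 : ((d + r : ℕ) : ℤ) - (d : ℤ) = r := by
      push_cast
      ring
    rw [h4]
    ring
  have h4 : C (((k + 2).choose 0 : ℕ) : ℤ) * (C (r : ℤ) * y) ^ 0 -
      C ((d.choose 0 : ℕ) : ℤ) * (C (r : ℤ) * y) ^ 0 = 0 := by
    rw [Nat.choose_zero_right, Nat.choose_zero_right, sub_self]
  rw [h3, h4]
  ring

private theorem TayG_geom {x : ℝ} (hx : 0 ≤ x) (hx1 : x < 1) (N : ℕ) :
    ∑ a ∈ Finset.range N, x ^ a ≤ 1 / (1 - x) := by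
  have h1 := mul_neg_geom_sum x N
  rw [le_div_iff₀ (by linarith), mul_comm, h1]
  have h2 : 0 ≤ x ^ N := pow_nonneg hx N
  linarith

private theorem TayG_nrmS1 {d r n : ℕ} (hn2 : 2 ≤ n) (hr : d + r = n) (y : ℤ[X])
    (hy : nrm (1 / (64 * (n : ℝ) ^ 4)) y ≤ 1 / (4 * (n : ℝ) ^ 2)) :
    nrm (1 / (64 * (n : ℝ) ^ 4)) (TayG_S1 d r n y) ≤ 1 / (12 * (n : ℝ) ^ 2) := by
  have hn0 : (0 : ℝ) < n := by
    have : 0 < n := by omega
    exact_mod_cast this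
  have hτ : (0 : ℝ) ≤ 1 / (64 * (n : ℝ) ^ 4) := by positivity
  have hrn : (r : ℝ) ≤ n := by
    have : r ≤ n := by omega
    exact_mod_cast this
  have hterm : ∀ a : ℕ, nrm (1 / (64 * (n : ℝ) ^ 4))
      (C (((n.choose (a + 2) : ℤ) - (d.choose (a + 2) : ℤ)) * (r : ℤ) ^ a) * y ^ (a + 2)) ≤
      1 / (16 * (n : ℝ) ^ 2) * (1 / 4) ^ a := by
    intro a
    refine (nrm_mul_le hτ _ _).trans ?_
    rw [nrm_C]
    have h1 : (d.choose (a + 2) : ℝ) ≤ n.choose (a + 2) := by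
      exact_mod_cast Nat.choose_le_choose (a + 2) (by omega : d ≤ n)
    have h2 : (n.choose (a + 2) : ℝ) ≤ (n : ℝ) ^ (a + 2) := by
      exact_mod_cast Nat.choose_le_pow n (a + 2)
    have h3 : (0 : ℝ) ≤ (d.choose (a + 2) : ℝ) := Nat.cast_nonneg _
    have h4 : |((((n.choose (a + 2) : ℤ) - (d.choose (a + 2) : ℤ)) * (r : ℤ) ^ a : ℤ) : ℝ)| ≤
        (n : ℝ) ^ (a + 2) * (n : ℝ) ^ a := by
      push_cast
      rw [abs_mul, abs_of_nonneg (by linarith : (0 : ℝ) ≤ (n.choose (a + 2) : ℝ) -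
        (d.choose (a + 2) : ℝ)), abs_of_nonneg (by positivity : (0 : ℝ) ≤ (r : ℝ) ^ a)]
      refine mul_le_mul (by linarith) (pow_le_pow_left₀ (Nat.cast_nonneg _) hrn a)
        (by positivity) (by positivity)
    have h5 : nrm (1 / (64 * (n : ℝ) ^ 4)) (y ^ (a + 2)) ≤ (1 / (4 * (n : ℝ) ^ 2)) ^ (a + 2) :=
      (nrm_pow_le hτ _ _).trans (pow_le_pow_left₀ (nrm_nonneg hτ _) hy _)
    calc _ ≤ (n : ℝ) ^ (a + 2) * (n : ℝ) ^ a * (1 / (4 * (n : ℝ) ^ 2)) ^ (a + 2) :=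
          mul_le_mul h4 h5 (nrm_nonneg hτ _) (by positivity)
      _ = 1 / (16 * (n : ℝ) ^ 2) * (1 / 4) ^ a := by
          rw [div_pow, div_pow, mul_pow, ← pow_mul, one_pow, one_pow]
          field_simp
          ring
  unfold TayG_S1
  refine (nrm_sum_le hτ _ _).trans ((Finset.sum_le_sum fun a _ => hterm a).trans ?_)
  rw [← Finset.mul_sum]
  have h1 := TayG_geom (by norm_num : (0 : ℝ) ≤ 1 / 4) (by norm_num) (n - 1)
  calc 1 / (16 * (n : ℝ) ^ 2) * ∑ a ∈ Finset.range (n - 1), (1 / 4 : ℝ) ^ a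
      ≤ 1 / (16 * (n : ℝ) ^ 2) * (1 / (1 - 1 / 4)) :=
        mul_le_mul_of_nonneg_left h1 (by positivity)
    _ = 1 / (12 * (n : ℝ) ^ 2) := by
        field_simp
        norm_num

private noncomputable def TayG_Phi (d r n : ℕ) (y : ℤ[X]) : ℤ[X] :=
  -TayG_S1 d r n y - X

private theorem TayG_id {d r n : ℕ} (hn2 : 2 ≤ n) (hr : d + r = n) (y : ℤ[X]) :
    (1 + C (r : ℤ) * y) ^ n - (1 + C (r : ℤ) * y) ^ d + C ((r : ℤ) ^ 2) * X =
      C ((r : ℤ) ^ 2) * (y - TayG_Phi d r n y) := by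
  rw [TayG_id1 hn2 hr y]
  unfold TayG_Phi
  ring

private theorem TayG_nrmPhi {d r n : ℕ} (hn2 : 2 ≤ n) (hr : d + r = n) (y : ℤ[X])
    (hy : nrm (1 / (64 * (n : ℝ) ^ 4)) y ≤ 1 / (4 * (n : ℝ) ^ 2)) :
    nrm (1 / (64 * (n : ℝ) ^ 4)) (TayG_Phi d r n y) ≤ 1 / (4 * (n : ℝ) ^ 2) := by
  have hn0 : (0 : ℝ) < n := by
    have : 0 < n := by omega
    exact_mod_cast this
  have hn1 : (1 : ℝ) ≤ n := by
    have : 1 ≤ n := by omega
    exact_mod_cast this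
  have hτ : (0 : ℝ) ≤ 1 / (64 * (n : ℝ) ^ 4) := by positivity
  unfold TayG_Phi
  rw [sub_eq_add_neg]
  refine (nrm_add_le hτ _ _).trans ?_
  rw [nrm_neg, nrm_neg]
  have h1 := TayG_nrmS1 hn2 hr y hy
  have h6 : nrm (1 / (64 * (n : ℝ) ^ 4)) (X : ℤ[X]) = 1 / (64 * (n : ℝ) ^ 4) := by
    have := nrm_X_pow (τ := 1 / (64 * (n : ℝ) ^ 4)) 1
    rwa [pow_one, pow_one] at this
  rw [h6]
  have h7 : 1 / (64 * (n : ℝ) ^ 4) ≤ 1 / 64 * (1 / (n : ℝ) ^ 2) := by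
    have h8 : (n : ℝ) ^ 2 ≤ (n : ℝ) ^ 4 := pow_le_pow_right₀ hn1 (by norm_num)
    have h9 : 1 / (n : ℝ) ^ 4 ≤ 1 / (n : ℝ) ^ 2 := one_div_le_one_div_of_le (by positivity) h8
    calc 1 / (64 * (n : ℝ) ^ 4) = 1 / 64 * (1 / (n : ℝ) ^ 4) := by field_simp
      _ ≤ _ := by linarith
  have h8 : 1 / (12 * (n : ℝ) ^ 2) = 1 / 12 * (1 / (n : ℝ) ^ 2) := by field_simp
  have h9 : 1 / (4 * (n : ℝ) ^ 2) = 1 / 4 * (1 / (n : ℝ) ^ 2) := by field_simp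
  have h10 : (0 : ℝ) ≤ 1 / (n : ℝ) ^ 2 := by positivity
  rw [h8] at h1
  rw [h9]
  linarith

private theorem TayG_contr {d r n k : ℕ} {y y' : ℤ[X]} (hy : X ∣ y) (hy' : X ∣ y')
    (h : X ^ k ∣ y - y') :
    X ^ (k + 1) ∣ TayG_Phi d r n y - TayG_Phi d r n y' := by
  have h1 : X ^ (k + 1) ∣ TayG_S1 d r n y - TayG_S1 d r n y' := by
    unfold TayG_S1
    rw [← Finset.sum_sub_distrib]
    refine Finset.dvd_sum fun a _ => ?_
    rw [← mul_sub]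
    refine Dvd.dvd.mul_left ?_ _
    have h2 : y ^ (a + 2) - y' ^ (a + 2) =
        (y - y') * (y * y ^ a) + (y ^ (a + 1) - y' ^ (a + 1)) * y' := by ring
    rw [h2, pow_succ]
    refine dvd_add (mul_dvd_mul h (Dvd.dvd.mul_right hy _)) (mul_dvd_mul ?_ hy')
    exact h.trans (sub_dvd_pow_sub_pow y y' (a + 1))
  unfold TayG_Phi
  have h3 : -TayG_S1 d r n y - X - (-TayG_S1 d r n y' - X) =
      -(TayG_S1 d r n y - TayG_S1 d r n y') := by ring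
  rw [h3]
  exact dvd_neg.2 h1

private theorem TayG_X {d r n : ℕ} {y : ℤ[X]} (hy : X ∣ y) :
    X ∣ TayG_Phi d r n y := by
  unfold TayG_Phi TayG_S1
  refine dvd_sub (dvd_neg.2 (Finset.dvd_sum fun a _ => ?_)) dvd_rfl
  exact Dvd.dvd.mul_left (dvd_pow hy (by omega)) _

theorem tay_series2 {N s d : ℕ} (hN : 1 ≤ N) (hs : 1 ≤ s) (hd : d = N + s) (m : ℕ) :
    ∃ y : ℤ[X], y.natDegree ≤ m ∧ y.coeff 0 = 0 ∧
      X ^ (m + 1) ∣ (1 + C (s : ℤ) * y) ^ d - (1 + C (s : ℤ) * y) ^ N + C ((s : ℤ) ^ 2) * X ∧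
      nrm (1 / (64 * (d : ℝ) ^ 4)) y ≤ 1 / (4 * (d : ℝ) ^ 2) := by
  have hn2 : 2 ≤ d := by omega
  have hn0 : (0 : ℝ) < d := by
    have : 0 < d := by omega
    exact_mod_cast this
  have hτ : (0 : ℝ) ≤ 1 / (64 * (d : ℝ) ^ 4) := by positivity
  have key : ∃ y : ℤ[X], y.natDegree ≤ m ∧ y.coeff 0 = 0 ∧
      X ^ (m + 1) ∣ y - TayG_Phi N s d y ∧
      nrm (1 / (64 * (d : ℝ) ^ 4)) y ≤ 1 / (4 * (d : ℝ) ^ 2) := by
    induction m with
    | zero =>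
      refine ⟨0, by simp, by simp, ?_, ?_⟩
      · rw [zero_add, pow_one]
        exact dvd_sub (dvd_zero _) (TayG_X (dvd_zero _))
      · have : nrm (1 / (64 * (d : ℝ) ^ 4)) 0 = 0 := by simp [nrm]
        rw [this]
        positivity
    | succ m ih =>
      obtain ⟨y, -, h2, h3, h4⟩ := ih
      obtain ⟨y', h5, h6, h7, h8⟩ := exists_trunc hτ (TayG_Phi N s d y) (m + 1)
      have hXy : X ∣ y := X_dvd_iff.2 h2
      have h9 : y'.coeff 0 = 0 := by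
        rw [h7]
        exact X_dvd_iff.1 (TayG_X hXy)
      have hXy' : X ∣ y' := X_dvd_iff.2 h9
      have h10 : X ^ (m + 1) ∣ y - y' := by
        have h11 : y - y' = (y - TayG_Phi N s d y) + (TayG_Phi N s d y - y') := by ring
        rw [h11]
        exact dvd_add h3 ((pow_dvd_pow X (by omega)).trans h6)
      refine ⟨y', h5, h9, ?_, h8.trans (TayG_nrmPhi hn2 hd.symm y h4)⟩
      have h11 : y' - TayG_Phi N s d y' =
          -(TayG_Phi N s d y - y') + (TayG_Phi N s d y - TayG_Phi N s d y') := by ring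
      rw [h11]
      exact dvd_add (dvd_neg.2 h6) (TayG_contr hXy hXy' h10)
  obtain ⟨y, h1, h2, h3, h4⟩ := key
  refine ⟨y, h1, h2, ?_, h4⟩
  rw [TayG_id hn2 hd.symm]
  exact Dvd.dvd.mul_left h3 _

end Pool.Agent.H91.CB
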