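import Pool.Agent.H91.CA.Lfl2
import Pool.Agent.H91.CA.Asy

/-!
JOB CB-09 (general upper bound for 2-adic valuations, about 150-220 lines; adapts the finished file
`Pool/Agent/H91/CA/Lfl2.lean`).

`lfl_two_dvd`: the proof of `CA.lfl_two` uses the equation `2^c + p^d = q^z` only through
`q^z ≡ p^d (mod 2^c)` (in `Lfl2_g`, `Lfl2_dvd`) and, in the case `z < 50 L F`, `d < 50 L E`, through
`2^c ≤ q^z`; in that case use instead `2^c ≤ |q^z - p^d| ≤ max(q^z, p^d) ≤ exp(50 L E F)` (`q^z ≠ p^d` because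
`q`, `p` are coprime and `q ≥ 2`, `z ≥ 1`).  Restate the auxiliary lemmas with the divisibility.

`two_gen`.  `g = gcd(u,v)`, `u = g u'`, `v = g v'`; `A = (a²)^u'`, `B = (b²)^v'`, `A ≡ B ≡ 1 (mod 8)`, `A ≠ B`.
`v2(A^g - B^g) = v2(A - B) + v2(g)` (LTE for 2, as `4 ∣ A - B`), so `e ≤ v2(A - B) + v2(g)`;
`2^(v2 g) ≤ g ≤ T` gives `v2(g) ≤ 2 log T`.  One of `u'`, `v'` is odd; `lfl_two_dvd` for
`(q,p,z,d) = (a², b², u', v')` if `v'` is odd, for `(b², a², v', u')` if `u'` is odd, with `c = v2(A-B)`,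
`E, F = ⌈2 log a⌉₊, ⌈2 log b⌉₊ ≤ 2t + 1 ≤ 3t`, `B = max u' v' ≤ T`, `x = t T`, `E F B ≤ 9 t² T ≤ x^9`,
`log x ≥ 5`, `L = ⌈100 log x⌉₊ ≤ 101 log x` (`L_cond`): `v2(A-B) ≤ (2500 L² E F)² ≤ (2500 (101 log(tT))² (9t²))²`.
-/

namespace Pool.Agent.H91.CB

open Pool.Agent.H91.CA

theorem TwoGen_g {q p z d c f m : ℕ} (hq : q % 2 = 1) (hp : p % 2 = 1)
    (hf : f * d = 1 + 2 ^ c * m) (h : p ^ d ≡ q ^ z [MOD 2 ^ c]) (r s : ℕ) :
    p ^ r * q ^ s ≡ (q ^ f) ^ (r * z + s * d) [MOD 2 ^ c] := by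
  have h1 : p ^ d ≡ q ^ z [MOD 2 ^ c] := h
  have h2 : p ≡ (q ^ f) ^ z [MOD 2 ^ c] := by
    calc p ≡ p ^ (f * d) [MOD 2 ^ c] := (Lfl2_pow_inv hp hf).symm
      _ = (p ^ d) ^ f := by rw [mul_comm, pow_mul]
      _ ≡ (q ^ z) ^ f [MOD 2 ^ c] := h1.pow f
      _ = (q ^ f) ^ z := by rw [← pow_mul, ← pow_mul, mul_comm]
  have h3 : q ≡ (q ^ f) ^ d [MOD 2 ^ c] := by
    calc q ≡ q ^ (f * d) [MOD 2 ^ c] := (Lfl2_pow_inv hq hf).symm
      _ = (q ^ f) ^ d := by rw [pow_mul]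
  calc p ^ r * q ^ s ≡ ((q ^ f) ^ z) ^ r * ((q ^ f) ^ d) ^ s [MOD 2 ^ c] :=
        (h2.pow r).mul (h3.pow s)
    _ = (q ^ f) ^ (r * z + s * d) := by
        rw [← pow_mul, ← pow_mul (q ^ f) d s, ← pow_add, mul_comm z r, mul_comm d s]

theorem TwoGen_dvd {q p z d c f m : ℕ} (hq4 : q % 4 = 1) (hp4 : p % 4 = 1)
    (hf : f * d = 1 + 2 ^ c * m) (h : p ^ d ≡ q ^ z [MOD 2 ^ c]) (K L : ℕ)
    (e : Fin K × Fin L → ℕ × ℕ) :
    (2 : ℤ) ^ (min c ((K * L - K) * (K * L - K - 1))) ∣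
      (Matrix.of (fun x y : Fin K × Fin L =>
        (((e y).1 * z + (e y).2 * d : ℕ) : ℤ) ^ (x.1 : ℕ) *
          ((p ^ (e y).1 * q ^ (e y).2 : ℕ) : ℤ) ^ (x.2 : ℕ))).det := by
  have hg : (4 : ℤ) ∣ ((q ^ f : ℕ) : ℤ) - 1 := by
    have h1 : q ^ f ≡ 1 [MOD 4] := by
      have h2 : q ≡ 1 [MOD 4] := hq4
      simpa using h2.pow f
    have h3 := (Nat.modEq_iff_dvd.1 h1.symm)
    simpa using h3
  choose C hC1 hC2 using fun x : Fin K × Fin L => expand_two ((q ^ f : ℕ) : ℤ) hg x.1 x.2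
  have hmod : ∀ x y : Fin K × Fin L, (2 : ℤ) ^ c ∣
      (((e y).1 * z + (e y).2 * d : ℕ) : ℤ) ^ (x.1 : ℕ) *
          ((p ^ (e y).1 * q ^ (e y).2 : ℕ) : ℤ) ^ (x.2 : ℕ) -
      (((e y).1 * z + (e y).2 * d : ℕ) : ℤ) ^ (x.1 : ℕ) *
          (((q ^ f : ℕ) : ℤ) ^ ((e y).1 * z + (e y).2 * d)) ^ (x.2 : ℕ) := by
    intro x y
    have h1 := (TwoGen_g (by omega) (by omega) hf h (e y).1 (e y).2).symm
    have h2 := (Nat.modEq_iff_dvd.1 h1)
    have h3 : (2 : ℤ) ^ c ∣ ((p ^ (e y).1 * q ^ (e y).2 : ℕ) : ℤ) -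
        ((q ^ f : ℕ) : ℤ) ^ ((e y).1 * z + (e y).2 * d) := by
      have h4 : ((2 ^ c : ℕ) : ℤ) = (2 : ℤ) ^ c := by push_cast; ring
      rw [h4] at h2
      have h5 : (((q ^ f) ^ ((e y).1 * z + (e y).2 * d) : ℕ) : ℤ) =
          ((q ^ f : ℕ) : ℤ) ^ ((e y).1 * z + (e y).2 * d) := by push_cast; ring
      rwa [h5] at h2
    rw [← mul_sub]
    exact Dvd.dvd.mul_left (h3.trans (sub_dvd_pow_sub_pow _ _ _)) _
  choose b hb using hmod
  set T : ℕ := (∑ y, ((e y).1 * z + (e y).2 * d)) + 1 with hT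
  have hXT : ∀ y, (e y).1 * z + (e y).2 * d < T := by
    intro y
    rw [hT, Nat.lt_succ_iff]
    exact Finset.single_le_sum (f := fun y => (e y).1 * z + (e y).2 * d)
      (fun _ _ => Nat.zero_le _) (Finset.mem_univ y)
  have hdet := det_two T K c (fun t x => C x t)
    (fun t x => (pow_dvd_pow 4 (by have := x.1.2; omega)).trans (hC1 x t))
    (fun y => (e y).1 * z + (e y).2 * d) b
  rw [Fintype.card_prod, Fintype.card_fin, Fintype.card_fin] at hdet
  have hM : (Matrix.of (fun x y : Fin K × Fin L =>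
        (((e y).1 * z + (e y).2 * d : ℕ) : ℤ) ^ (x.1 : ℕ) *
          ((p ^ (e y).1 * q ^ (e y).2 : ℕ) : ℤ) ^ (x.2 : ℕ))) =
      Matrix.of (fun x y : Fin K × Fin L => ∑ t ∈ Finset.range T,
        (((e y).1 * z + (e y).2 * d).choose t : ℤ) * C x t + 2 ^ c * b x y) := by
    ext x y
    rw [Matrix.of_apply, Matrix.of_apply, ← hC2 x _ T (hXT y)]
    linear_combination hb x y
  rw [hM]
  exact hdet

theorem lfl_two_dvd {q p z d c E F L B : ℕ} (hqp : q.Coprime p) (hq4 : q % 4 = 1) (hp4 : p % 4 = 1)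
    (hq : 2 ≤ q) (hp : 2 ≤ p) (hd : d % 2 = 1) (hzd : z.Coprime d) (hz : 1 ≤ z)
    (hzB : z ≤ B) (hdB : d ≤ B) (h : (2 : ℤ) ^ c ∣ (q : ℤ) ^ z - (p : ℤ) ^ d)
    (hEa : Real.log q ≤ E) (hFb : Real.log p ≤ F) (hE : 1 ≤ E) (hF : 1 ≤ F)
    (hL : 8 * (1 + Real.log (102 * L * E * F * B)) ≤ L) :
    (c : ℝ) ≤ (2500 * (L : ℝ) ^ 2 * E * F) ^ 2 := by
  have hmodh : p ^ d ≡ q ^ z [MOD 2 ^ c] := by
    rw [Nat.modEq_iff_dvd]
    push_cast
    exact h
  have hB : 1 ≤ B := hz.trans hzB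
  have hL44 := L_ge hE hF hB hL
  have hEr : (1 : ℝ) ≤ E := by exact_mod_cast hE
  have hFr : (1 : ℝ) ≤ F := by exact_mod_cast hF
  have hLr : (44 : ℝ) ≤ L := by exact_mod_cast hL44
  have hBr : (1 : ℝ) ≤ B := by exact_mod_cast hB
  by_cases hbox : 50 * L * E ≤ d ∨ 50 * L * F ≤ z
  · -- main case
    set K : ℕ := 2500 * L * E * F with hK
    obtain ⟨e, he, hdet⟩ := exists_points (a := q) (b := p) (u := z) (v := d) (K := K) (L := L)
      (R1 := L) (S1 := L) (R2 := 50 * L * E) (S2 := 50 * L * F) hqp hq hp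
      (Nat.le_mul_self L) (inj_box hzd hz (by omega) hbox) (by
        have hKpos : 0 < K := by
          rw [hK]
          positivity
        have h1 : (K - 1) * L < K * L := by
          apply Nat.mul_lt_mul_of_pos_right (by omega) (by omega)
        have h2 : K * L = 50 * L * E * (50 * L * F) := by
          rw [hK]
          ring
        omega)
    obtain ⟨f, m, hf⟩ := Lfl2_inv hd c
    have hdvd := TwoGen_dvd hq4 hp4 hf hmodh K L e
    have hKr : (K : ℝ) = 2500 * L * E * F := by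
      rw [hK]
      push_cast
      ring
    have hNr : ((K * L : ℕ) : ℝ) = 2500 * (L : ℝ) ^ 2 * E * F := by
      rw [Nat.cast_mul, hKr]
      ring
    have hEF : (1 : ℝ) ≤ (E : ℝ) * F := by nlinarith
    have hLEF : (1 : ℝ) ≤ (L : ℝ) * E * F := by nlinarith
    have hNpos : (0 : ℝ) < ((K * L : ℕ) : ℝ) := by
      rw [hNr]
      positivity
    have hHpos : (1 : ℝ) ≤ 102 * L * E * F * B := by nlinarith
    set H : ℝ := 102 * L * E * F * B with hH
    set M : ℕ := (K * L - K) * (K * L - K - 1) with hM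
    by_contra hcon
    push Not at hcon
    have hMN : (M : ℝ) ≤ (2500 * (L : ℝ) ^ 2 * E * F) ^ 2 := by
      rw [← hNr, ← Nat.cast_pow]
      have : M ≤ (K * L) ^ 2 := by
        rw [hM, pow_two]
        exact Nat.mul_le_mul (Nat.sub_le _ _) ((Nat.sub_le _ _).trans (Nat.sub_le _ _))
      exact_mod_cast this
    have hcM : M ≤ c := by
      have : (M : ℝ) < c := lt_of_le_of_lt hMN hcon
      exact_mod_cast this.le
    rw [min_eq_right hcM] at hdvd
    have hW := Lfl2_det_le (K := K) (L := L) (q := q) (p := p) (z := z) (d := d) e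
      (W := H ^ K * Real.exp (102 * (L : ℝ) ^ 2 * E * F)) (by
        intro x y
        have hr : ((e y).1 : ℝ) ≤ 51 * L * E := by
          have h1 := (he y).1
          have h2 : (e y).1 ≤ L + 50 * L * E := h1.le
          have h3 : ((e y).1 : ℝ) ≤ L + 50 * L * E := by exact_mod_cast h2
          nlinarith
        have hs : ((e y).2 : ℝ) ≤ 51 * L * F := by
          have h1 := (he y).2
          have h2 : (e y).2 ≤ L + 50 * L * F := h1.le
          have h3 : ((e y).2 : ℝ) ≤ L + 50 * L * F := by exact_mod_cast h2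
          nlinarith
        have hzr : (z : ℝ) ≤ B := by exact_mod_cast hzB
        have hdr : (d : ℝ) ≤ B := by exact_mod_cast hdB
        have hX : (((e y).1 * z + (e y).2 * d : ℕ) : ℝ) ≤ H := by
          push_cast
          have h1 : ((e y).1 : ℝ) * z ≤ 51 * L * E * B :=
            mul_le_mul hr hzr (Nat.cast_nonneg _) (by positivity)
          have h2 : ((e y).2 : ℝ) * d ≤ 51 * L * F * B :=
            mul_le_mul hs hdr (Nat.cast_nonneg _) (by positivity)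
          have h3 : (E : ℝ) + F ≤ 2 * (E * F) := by nlinarith
          have h4 : 51 * (L : ℝ) * E * B + 51 * L * F * B = 51 * (L * B) * (E + F) := by ring
          have h5 : (0 : ℝ) ≤ 51 * (L * B) := by positivity
          have h6 : 51 * ((L : ℝ) * B) * (E + F) ≤ 51 * (L * B) * (2 * (E * F)) :=
            mul_le_mul_of_nonneg_left h3 h5
          rw [hH]
          nlinarith
        have hXk : (((e y).1 * z + (e y).2 * d : ℕ) : ℝ) ^ (x.1 : ℕ) ≤ H ^ K := by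
          calc (((e y).1 * z + (e y).2 * d : ℕ) : ℝ) ^ (x.1 : ℕ) ≤ H ^ (x.1 : ℕ) :=
                pow_le_pow_left₀ (Nat.cast_nonneg _) hX _
            _ ≤ H ^ K := pow_le_pow_right₀ hHpos x.1.2.le
        have hYl : ((p ^ (e y).1 * q ^ (e y).2 : ℕ) : ℝ) ^ (x.2 : ℕ) ≤
            Real.exp (102 * (L : ℝ) ^ 2 * E * F) := by
          have hp0 : (0 : ℝ) < p := by
            have : 0 < p := by omega
            exact_mod_cast this
          have hq0 : (0 : ℝ) < q := by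
            have : 0 < q := by omega
            exact_mod_cast this
          have hpos : (0 : ℝ) < ((p ^ (e y).1 * q ^ (e y).2 : ℕ) : ℝ) ^ (x.2 : ℕ) := by
            push_cast
            positivity
          rw [← Real.log_le_iff_le_exp hpos, Real.log_pow]
          push_cast
          rw [Real.log_mul (by positivity) (by positivity), Real.log_pow, Real.log_pow]
          have h1 : ((e y).1 : ℝ) * Real.log p ≤ 51 * L * E * F :=
            mul_le_mul hr hFb (Real.log_natCast_nonneg p) (by positivity)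
          have h2 : ((e y).2 : ℝ) * Real.log q ≤ 51 * L * F * E :=
            mul_le_mul hs hEa (Real.log_natCast_nonneg q) (by positivity)
          have h3 : ((x.2 : ℕ) : ℝ) ≤ L := by exact_mod_cast x.2.2.le
          have h4 : ((e y).1 : ℝ) * Real.log p + (e y).2 * Real.log q ≤ 102 * L * E * F := by
            linarith
          have h5 : (0 : ℝ) ≤ ((e y).1 : ℝ) * Real.log p + (e y).2 * Real.log q :=
            add_nonneg (mul_nonneg (Nat.cast_nonneg _) (Real.log_natCast_nonneg p))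
              (mul_nonneg (Nat.cast_nonneg _) (Real.log_natCast_nonneg q))
          calc ((x.2 : ℕ) : ℝ) * (((e y).1 : ℝ) * Real.log p + (e y).2 * Real.log q)
              ≤ L * (102 * L * E * F) := mul_le_mul h3 h4 h5 (by positivity)
            _ = 102 * (L : ℝ) ^ 2 * E * F := by ring
        exact mul_le_mul hXk hYl (by positivity) (by positivity))
    have hge : (2 : ℝ) ^ M ≤ |(((Matrix.of (fun x y : Fin K × Fin L =>
        (((e y).1 * z + (e y).2 * d : ℕ) : ℤ) ^ (x.1 : ℕ) *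
          ((p ^ (e y).1 * q ^ (e y).2 : ℕ) : ℤ) ^ (x.2 : ℕ))).det : ℤ) : ℝ)| := by
      have h1 := Int.le_of_dvd (abs_pos.2 hdet) ((dvd_abs _ _).2 hdvd)
      have h2 : (((2 : ℤ) ^ M : ℤ) : ℝ) ≤ ((|(Matrix.of (fun x y : Fin K × Fin L =>
        (((e y).1 * z + (e y).2 * d : ℕ) : ℤ) ^ (x.1 : ℕ) *
          ((p ^ (e y).1 * q ^ (e y).2 : ℕ) : ℤ) ^ (x.2 : ℕ))).det| : ℤ) : ℝ) := by
        exact_mod_cast h1
      rw [Int.cast_abs] at h2
      push_cast at h2 ⊢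
      exact h2
    have hfin := hge.trans hW
    have hfact : ((K * L).factorial : ℝ) ≤ ((K * L : ℕ) : ℝ) ^ (K * L) := by
      exact_mod_cast Nat.factorial_le_pow (K * L)
    have hWpos : (0 : ℝ) < H ^ K * Real.exp (102 * (L : ℝ) ^ 2 * E * F) := by positivity
    have hfin2 : (2 : ℝ) ^ M ≤ ((K * L : ℕ) : ℝ) ^ (K * L) *
        (H ^ K * Real.exp (102 * (L : ℝ) ^ 2 * E * F)) ^ (K * L) :=
      hfin.trans (mul_le_mul_of_nonneg_right hfact (by positivity))
    have hlog := Real.log_le_log (by positivity) hfin2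
    rw [Real.log_pow, Real.log_mul (by positivity) (by positivity), Real.log_pow, Real.log_pow,
      Real.log_mul (by positivity) (by positivity), Real.log_pow, Real.log_exp, hKr] at hlog
    have hnum := num_two (L := L) (E := E) (F := F) (B := B) hE hF hB hL
    have hM2 : (((2500 * L * E * F * L - 2500 * L * E * F) *
        (2500 * L * E * F * L - 2500 * L * E * F - 1) : ℕ) : ℝ) = (M : ℝ) := by
      rw [hM, hK]
    rw [hM2, ← hH] at hnum
    rw [hNr] at hlog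
    linarith
  · push Not at hbox
    have hp0 : (0 : ℝ) < p := by
      have : 0 < p := by omega
      exact_mod_cast this
    have hq0 : (0 : ℝ) < q := by
      have : 0 < q := by omega
      exact_mod_cast this
    have hne : (q : ℤ) ^ z - (p : ℤ) ^ d ≠ 0 := by
      intro h0
      have h1 : q ^ z = p ^ d := by
        have : (q : ℤ) ^ z = (p : ℤ) ^ d := by linarith
        exact_mod_cast this
      have h2 : q ∣ p ^ d := by
        rw [← h1]
        exact dvd_pow_self q (by omega)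
      have h3 : Nat.Coprime q (p ^ d) := Nat.Coprime.pow_right d hqp
      have h4 := Nat.Coprime.eq_one_of_dvd h3 h2
      omega
    have h1 : (c : ℝ) * Real.log 2 ≤ 50 * L * F * E := by
      have h2 : (2 : ℤ) ^ c ≤ |(q : ℤ) ^ z - (p : ℤ) ^ d| :=
        Int.le_of_dvd (abs_pos.2 hne) ((dvd_abs _ _).2 h)
      have h3 : |(q : ℤ) ^ z - (p : ℤ) ^ d| ≤ max ((q : ℤ) ^ z) ((p : ℤ) ^ d) := by
        have hq1 : (0 : ℤ) ≤ (q : ℤ) ^ z := by positivity
        have hp1 : (0 : ℤ) ≤ (p : ℤ) ^ d := by positivity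
        rw [abs_le]
        constructor
        · have := le_max_right ((q : ℤ) ^ z) ((p : ℤ) ^ d)
          linarith
        · have := le_max_left ((q : ℤ) ^ z) ((p : ℤ) ^ d)
          linarith
      have h4 : (2 : ℤ) ^ c ≤ (q : ℤ) ^ z ∨ (2 : ℤ) ^ c ≤ (p : ℤ) ^ d := by
        rcases le_max_iff.1 (h2.trans h3) with h | h
        · exact Or.inl h
        · exact Or.inr h
      rcases h4 with h4 | h4
      · have h5 : (2 : ℝ) ^ c ≤ (q : ℝ) ^ z := by exact_mod_cast h4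
        have h6 := Real.log_le_log (by positivity) h5
        rw [Real.log_pow, Real.log_pow] at h6
        have h7 : (z : ℝ) ≤ 50 * L * F := by exact_mod_cast hbox.2.le
        exact h6.trans (mul_le_mul h7 hEa (Real.log_natCast_nonneg q) (by positivity))
      · have h5 : (2 : ℝ) ^ c ≤ (p : ℝ) ^ d := by exact_mod_cast h4
        have h6 := Real.log_le_log (by positivity) h5
        rw [Real.log_pow, Real.log_pow] at h6
        have h7 : (d : ℝ) ≤ 50 * L * E := by exact_mod_cast hbox.1.le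
        have h8 := h6.trans (mul_le_mul h7 hFb (Real.log_natCast_nonneg p) (by positivity))
        calc (c : ℝ) * Real.log 2 ≤ 50 * L * E * F := h8
          _ = 50 * L * F * E := by ring
    have h5 : (0.69 : ℝ) < Real.log 2 := by
      have := Real.log_two_gt_d9
      linarith
    have h6 : (c : ℝ) ≤ 100 * L * F * E := by
      have hc : (0 : ℝ) ≤ c := Nat.cast_nonneg c
      have : (0.69 : ℝ) * c ≤ 50 * L * F * E := by
        calc (0.69 : ℝ) * c ≤ c * Real.log 2 := by nlinarith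
          _ ≤ _ := h1
      nlinarith
    have h7 : (1 : ℝ) ≤ 2500 * (L : ℝ) ^ 2 * E * F := by
      have : (1 : ℝ) ≤ (L : ℝ) ^ 2 := by nlinarith
      have h8 : (1 : ℝ) ≤ (L : ℝ) ^ 2 * E := by nlinarith
      have h9 : (1 : ℝ) ≤ (L : ℝ) ^ 2 * E * F := by nlinarith
      nlinarith
    have h8 : 100 * (L : ℝ) * F * E ≤ 2500 * (L : ℝ) ^ 2 * E * F := by
      have h9 : (0 : ℝ) ≤ E * F := by positivity
      have h10 : 100 * (L : ℝ) ≤ 2500 * (L : ℝ) ^ 2 := by nlinarith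
      nlinarith
    calc (c : ℝ) ≤ 2500 * (L : ℝ) ^ 2 * E * F := h6.trans h8
      _ ≤ (2500 * (L : ℝ) ^ 2 * E * F) ^ 2 := by nlinarith


theorem TwoGen_mod4 {a : ℕ} (ha : a % 2 = 1) : (a ^ 2) % 4 = 1 := by
  rw [Nat.pow_mod]
  have : a % 4 = 1 ∨ a % 4 = 3 := by omega
  rcases this with h | h <;> rw [h]

theorem TwoGen_cop {a b u v c : ℕ} {t T : ℝ} (ha : a % 2 = 1) (hb : b % 2 = 1) (hab : a.Coprime b)
    (ha3 : 3 ≤ a) (hb3 : 3 ≤ b) (hu : 1 ≤ u) (huv : u.Coprime v) (hv : v % 2 = 1)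
    (h : (2 : ℤ) ^ c ∣ (a : ℤ) ^ (2 * u) - (b : ℤ) ^ (2 * v)) (ht : 200 ≤ t)
    (hta : Real.log a ≤ t) (htb : Real.log b ≤ t) (hT : t ≤ T) (huT : (u : ℝ) ≤ T)
    (hvT : (v : ℝ) ≤ T) :
    (c : ℝ) ≤ (2500 * (101 * Real.log (t * T)) ^ 2 * (9 * t ^ 2)) ^ 2 := by
  set x := t * T with hx
  have hx200 : 200 ≤ x := by
    rw [hx]
    nlinarith
  have hlogx : 5 ≤ Real.log x := by
    rw [Real.le_log_iff_exp_le (by linarith)]
    have h1 : Real.exp 5 = Real.exp 1 ^ 5 := by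
      rw [← Real.exp_nat_mul]
      norm_num
    have h2 : Real.exp 1 < 2.7182818286 := Real.exp_one_lt_d9
    have h3 : (0 : ℝ) < Real.exp 1 := Real.exp_pos 1
    rw [h1]
    calc Real.exp 1 ^ 5 ≤ (2.72 : ℝ) ^ 5 := pow_le_pow_left₀ h3.le (by linarith) 5
      _ ≤ 200 := by norm_num
      _ ≤ x := hx200
  set E := ⌈2 * t⌉₊ with hE
  have hEt : 2 * t ≤ E := Nat.le_ceil _
  have hEt2 : (E : ℝ) ≤ 3 * t := by
    have := (Nat.ceil_lt_add_one (by linarith : (0 : ℝ) ≤ 2 * t)).le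
    linarith
  have hE1 : 1 ≤ E := by
    have : (1 : ℝ) ≤ E := by linarith
    exact_mod_cast this
  set B := max u v with hB
  have hBT : (B : ℝ) ≤ T := by
    rw [hB, Nat.cast_max]
    exact max_le huT hvT
  have hB1 : 1 ≤ B := le_trans hu (le_max_left _ _)
  have hE0 : (0 : ℝ) ≤ E := Nat.cast_nonneg _
  have hEE : (E : ℝ) * E ≤ 9 * t ^ 2 := by nlinarith
  have hT0 : 0 ≤ T := by linarith
  have hEEB : (E : ℝ) * E * B ≤ x ^ 9 := by
    have h2 : (E : ℝ) * E * B ≤ 9 * t ^ 2 * T :=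
      mul_le_mul hEE hBT (Nat.cast_nonneg _) (by positivity)
    have h3 : 9 * t ^ 2 * T ≤ 9 * x ^ 2 := by
      rw [hx]
      have h4 : T ≤ T ^ 2 := by nlinarith
      have h5 : 0 ≤ t ^ 2 := by positivity
      calc 9 * t ^ 2 * T ≤ 9 * t ^ 2 * T ^ 2 := mul_le_mul_of_nonneg_left h4 (by positivity)
        _ = 9 * (t * T) ^ 2 := by ring
    have h6 : (9 : ℝ) ≤ x ^ 7 := by
      calc (9 : ℝ) ≤ 200 ^ 7 := by norm_num
        _ ≤ x ^ 7 := pow_le_pow_left₀ (by norm_num) hx200 7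
    calc (E : ℝ) * E * B ≤ 9 * x ^ 2 := h2.trans h3
      _ ≤ x ^ 7 * x ^ 2 := mul_le_mul_of_nonneg_right h6 (by positivity)
      _ = x ^ 9 := by ring
  obtain ⟨hL, hL101⟩ := L_cond hlogx (by linarith) hE1 hE1 hB1 hEEB
  set L := ⌈100 * Real.log x⌉₊ with hLdef
  have h' : (2 : ℤ) ^ c ∣ ((a ^ 2 : ℕ) : ℤ) ^ u - ((b ^ 2 : ℕ) : ℤ) ^ v := by
    have e1 : ((a ^ 2 : ℕ) : ℤ) ^ u = (a : ℤ) ^ (2 * u) := by
      rw [pow_mul]
      push_cast
      rfl
    have e2 : ((b ^ 2 : ℕ) : ℤ) ^ v = (b : ℤ) ^ (2 * v) := by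
      rw [pow_mul]
      push_cast
      rfl
    rw [e1, e2]
    exact h
  have hcop : (a ^ 2).Coprime (b ^ 2) := Nat.Coprime.pow 2 2 hab
  have hEa : Real.log ((a ^ 2 : ℕ) : ℝ) ≤ E := by
    push_cast
    rw [Real.log_pow]
    push_cast
    linarith
  have hEb : Real.log ((b ^ 2 : ℕ) : ℝ) ≤ E := by
    push_cast
    rw [Real.log_pow]
    push_cast
    linarith
  have key := lfl_two_dvd (q := a ^ 2) (p := b ^ 2) (z := u) (d := v) (c := c) (E := E) (F := E)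
    (L := L) (B := B) hcop (TwoGen_mod4 ha) (TwoGen_mod4 hb) (by nlinarith) (by nlinarith) hv huv hu
    (le_max_left _ _) (le_max_right _ _) h' hEa hEb hE1 hE1 hL
  refine key.trans ?_
  apply pow_le_pow_left₀ (by positivity)
  have h1 : (L : ℝ) ^ 2 ≤ (101 * Real.log x) ^ 2 := pow_le_pow_left₀ (Nat.cast_nonneg _) hL101 2
  calc 2500 * (L : ℝ) ^ 2 * E * E = 2500 * ((L : ℝ) ^ 2 * (E * E)) := by ring
    _ ≤ 2500 * ((101 * Real.log x) ^ 2 * (9 * t ^ 2)) := by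
        apply mul_le_mul_of_nonneg_left _ (by norm_num)
        exact mul_le_mul h1 hEE (by positivity) (by positivity)
    _ = 2500 * (101 * Real.log x) ^ 2 * (9 * t ^ 2) := by ring

theorem TwoGen_ne {a b u v : ℕ} (hab : a.Coprime b) (ha3 : 3 ≤ a) (hu : 1 ≤ u) :
    (a : ℤ) ^ (2 * u) - (b : ℤ) ^ (2 * v) ≠ 0 := by
  intro h0
  have h1 : a ^ (2 * u) = b ^ (2 * v) := by
    have : (a : ℤ) ^ (2 * u) = (b : ℤ) ^ (2 * v) := by linarith
    exact_mod_cast this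
  have h2 : a ∣ b ^ (2 * v) := by
    rw [← h1]
    exact dvd_pow_self a (by omega)
  have h3 : Nat.Coprime a (b ^ (2 * v)) := Nat.Coprime.pow_right _ hab
  have h4 := Nat.Coprime.eq_one_of_dvd h3 h2
  omega

theorem TwoGen_lte {a b u v g e : ℕ} (ha : a % 2 = 1) (hb : b % 2 = 1) (hab : a.Coprime b)
    (ha3 : 3 ≤ a) (hu : 1 ≤ u) (hg : 1 ≤ g)
    (h : (2 : ℤ) ^ e ∣ ((a : ℤ) ^ (2 * u)) ^ g - ((b : ℤ) ^ (2 * v)) ^ g) :
    ∃ c s : ℕ, e ≤ c + s ∧ 2 ^ s ≤ g ∧ (2 : ℤ) ^ c ∣ (a : ℤ) ^ (2 * u) - (b : ℤ) ^ (2 * v) := by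
  have hne : (a : ℤ) ^ (2 * u) - (b : ℤ) ^ (2 * v) ≠ 0 := TwoGen_ne hab ha3 hu
  have hA : ∀ n m : ℕ, n % 2 = 1 → ((n : ℤ) ^ (2 * m)) % 4 = 1 := by
    intro n m hn
    have h1 : (n ^ 2) ^ m ≡ 1 ^ m [MOD 4] := by
      apply Nat.ModEq.pow
      exact TwoGen_mod4 hn
    have h2 : (n ^ (2 * m)) % 4 = 1 := by
      rw [pow_mul]
      rw [one_pow] at h1
      exact h1
    have h3 : (((n ^ (2 * m) : ℕ) : ℤ)) % 4 = 1 := by omega
    push_cast at h3
    exact h3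
  have hA1 := hA a u ha
  have hB1 := hA b v hb
  have h4 : (4 : ℤ) ∣ (a : ℤ) ^ (2 * u) - (b : ℤ) ^ (2 * v) := by omega
  have h5 : ¬ (2 : ℤ) ∣ (a : ℤ) ^ (2 * u) := by omega
  have hlte := Int.two_pow_sub_pow' g h4 h5
  have hf1 : FiniteMultiplicity (2 : ℤ) ((a : ℤ) ^ (2 * u) - (b : ℤ) ^ (2 * v)) := by
    rw [Int.finiteMultiplicity_iff]
    exact ⟨by norm_num, hne⟩
  have hf2 : FiniteMultiplicity (2 : ℤ) (g : ℤ) := by
    rw [Int.finiteMultiplicity_iff]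
    exact ⟨by norm_num, by exact_mod_cast (by omega : g ≠ 0)⟩
  rw [hf1.emultiplicity_eq_multiplicity, hf2.emultiplicity_eq_multiplicity] at hlte
  refine ⟨multiplicity (2 : ℤ) ((a : ℤ) ^ (2 * u) - (b : ℤ) ^ (2 * v)), multiplicity (2 : ℤ) (g : ℤ),
    ?_, ?_, pow_multiplicity_dvd _ _⟩
  · have h6 := le_emultiplicity_of_pow_dvd h
    rw [hlte] at h6
    exact_mod_cast h6
  · have h7 : (2 : ℤ) ^ multiplicity (2 : ℤ) (g : ℤ) ∣ (g : ℤ) := pow_multiplicity_dvd _ _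
    have h8 := Int.le_of_dvd (by exact_mod_cast hg) h7
    exact_mod_cast h8

theorem two_gen {a b u v e : ℕ} {t T : ℝ} (ha : a % 2 = 1) (hb : b % 2 = 1) (hab : a.Coprime b)
    (ha3 : 3 ≤ a) (hb3 : 3 ≤ b) (hu : 1 ≤ u) (hv : 1 ≤ v)
    (h : (2 : ℤ) ^ e ∣ (a : ℤ) ^ (2 * u) - (b : ℤ) ^ (2 * v)) (ht : 200 ≤ t)
    (hta : Real.log a ≤ t) (htb : Real.log b ≤ t) (hT : t ≤ T) (huT : (u : ℝ) ≤ T)
    (hvT : (v : ℝ) ≤ T) :
    (e : ℝ) ≤ (2500 * (101 * Real.log (t * T)) ^ 2 * (9 * t ^ 2)) ^ 2 + 2 * Real.log T := by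
  have hg : 0 < u.gcd v := Nat.gcd_pos_of_pos_left _ hu
  have hcop := Nat.coprime_div_gcd_div_gcd hg
  have hu' : u.gcd v * (u / u.gcd v) = u := Nat.mul_div_cancel' (Nat.gcd_dvd_left u v)
  have hv' : u.gcd v * (v / u.gcd v) = v := Nat.mul_div_cancel' (Nat.gcd_dvd_right u v)
  have hu1 : 1 ≤ u / u.gcd v := Nat.div_pos (Nat.gcd_le_left v hu) hg
  have hv1 : 1 ≤ v / u.gcd v := Nat.div_pos (Nat.gcd_le_right u hv) hg
  have huu : u / u.gcd v ≤ u := Nat.div_le_self _ _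
  have hvv : v / u.gcd v ≤ v := Nat.div_le_self _ _
  have hgu : u.gcd v ≤ u := Nat.gcd_le_left v hu
  set g := u.gcd v with hgdef
  set u1 := u / g with hu1def
  set v1 := v / g with hv1def
  have hu1T : (u1 : ℝ) ≤ T := le_trans (by exact_mod_cast huu) huT
  have hv1T : (v1 : ℝ) ≤ T := le_trans (by exact_mod_cast hvv) hvT
  have hgT : (g : ℝ) ≤ T := le_trans (by exact_mod_cast hgu) huT
  have h2 : (2 : ℤ) ^ e ∣ ((a : ℤ) ^ (2 * u1)) ^ g - ((b : ℤ) ^ (2 * v1)) ^ g := by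
    rw [← pow_mul, ← pow_mul]
    have e1 : 2 * u1 * g = 2 * u := by
      calc 2 * u1 * g = 2 * (g * u1) := by ring
        _ = 2 * u := by rw [hu']
    have e2 : 2 * v1 * g = 2 * v := by
      calc 2 * v1 * g = 2 * (g * v1) := by ring
        _ = 2 * v := by rw [hv']
    rw [e1, e2]
    exact h
  obtain ⟨c, s, hcs, hs, hc⟩ := TwoGen_lte ha hb hab ha3 hu1 hg h2
  have hs2 : (s : ℝ) ≤ 2 * Real.log T := by
    have h3 : (2 : ℝ) ^ s ≤ T := le_trans (by exact_mod_cast hs) hgT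
    have h4 := Real.log_le_log (by positivity) h3
    rw [Real.log_pow] at h4
    have h5 := Real.log_two_gt_d9
    have h6 : (0 : ℝ) ≤ s := Nat.cast_nonneg s
    nlinarith
  have hc2 : (c : ℝ) ≤ (2500 * (101 * Real.log (t * T)) ^ 2 * (9 * t ^ 2)) ^ 2 := by
    by_cases hodd : v1 % 2 = 1
    · exact TwoGen_cop ha hb hab ha3 hb3 hu1 hcop hodd hc ht hta htb hT hu1T hv1T
    · have hodd' : u1 % 2 = 1 := by
        by_contra hcon
        have h3 : 2 ∣ u1 := by omega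
        have h4 : 2 ∣ v1 := by omega
        have h5 := Nat.dvd_gcd h3 h4
        rw [Nat.Coprime] at hcop
        rw [hcop] at h5
        omega
      have hc' : (2 : ℤ) ^ c ∣ (b : ℤ) ^ (2 * v1) - (a : ℤ) ^ (2 * u1) := by
        rw [← dvd_neg, neg_sub]
        exact hc
      exact TwoGen_cop hb ha hab.symm hb3 ha3 hv1 hcop.symm hodd' hc' ht htb hta hT hv1T hu1T
  have hcs' : (e : ℝ) ≤ c + s := by exact_mod_cast hcs
  linarith

end Pool.Agent.H91.CB
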